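import Pool.Agent.H37SQ.Pre

/-!
# Almost primes just above the squares: assembly
-/

set_option autoImplicit false

namespace Pool.Agent.H37SQ

open Finset Filter Pool.Agent.H373R2.T7 Pool.Agent.Y486.SQ Pool.Agent.Y882 Pool.Agent.W23.DC Pool.Agent.Y882.KW
open Pool.Agent.Y862.SQ (rH leg z2 Ns V1)
open Pool.Agent.T6.H57 (Lam lev_of)

open Classical in
/-- the number of the `j` in `[1, T]` such that `m ^ 2 + j` has at most `r` prime factors, all of them at least `w` -/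
noncomputable def cn (r : ℕ) (w : ℝ) (T m : ℕ) : ℕ :=
  ((Icc 1 T).filter (fun j : ℕ => (m ^ 2 + j).primeFactorsList.length ≤ r ∧
    ∀ p : ℕ, p.Prime → p ∣ m ^ 2 + j → w ≤ p)).card

lemma card_shift (P : ℕ → Prop) [DecidablePred P] (Z M : ℕ) :
    ((Ioc Z (Z + M)).filter P).card = ((Icc 1 M).filter (fun n => P (n + Z))).card := by
  symm
  apply card_bij (fun n _ => n + Z)
  · intro n hn
    rw [mem_filter, mem_Icc] at hn
    rw [mem_filter, mem_Ioc]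
    exact ⟨by omega, hn.2⟩
  · intro a _ b _ h
    omega
  · intro b hb
    rw [mem_filter, mem_Ioc] at hb
    refine ⟨b - Z, ?_, by omega⟩
    rw [mem_filter, mem_Icc]
    refine ⟨by omega, ?_⟩
    rw [Nat.sub_add_cancel (by omega)]
    exact hb.2

open Classical in
/-- the number of the almost primes from the weights -/
lemma det (Y : ℕ) (hY : 2 ≤ Y) (ε₁ ζ υ lam S : ℝ) (r : ℕ) (hζυ : ζ ≤ υ) (hυ0 : 0 < υ) (hυ1 : υ ≤ 1)
    (hlam : 0 < lam) (hr : 1 / lam + S / υ ≤ r + 1) (y : ℕ)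
    (hy : y = ⌈(Y : ℝ) ^ ε₁⌉₊ - 1) (c : Finset ℕ → ℝ)
    (hc : ∀ N : ℕ, VV (pr Y ε₁ υ) c (fun p => if p ∣ N then 1 else 0) ≤ WB Y ε₁ ζ υ lam (lam / υ) N)
    (Z T n : ℕ) (hN : ∀ j ∈ Icc 1 T, (((n + Z) ^ 2 + j : ℕ) : ℝ) ≤ (Y : ℝ) ^ S)
    (hsq : ∀ j ∈ Icc 1 T, ∀ q ∈ pr Y ζ υ, ¬ q ^ 2 ∣ (n + Z) ^ 2 + j) :
    ∑ j ∈ Icc 1 T, ok Z y j n * wj (pr Y ε₁ υ) c Z j n ≤ cn r ((Y : ℝ) ^ ζ) T (n + Z) := by
  calc ∑ j ∈ Icc 1 T, ok Z y j n * wj (pr Y ε₁ υ) c Z j n ≤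
      ∑ j ∈ Icc 1 T, (if 0 < WW Y ζ υ lam (lam / υ) ((n + Z) ^ 2 + j) then (1 : ℝ) else 0) :=
        sum_le_sum fun j _ => ok_w_le Y hY ε₁ ζ υ lam (lam / υ) (by positivity)
          (by rw [div_mul_cancel₀ _ hυ0.ne']) y hy c hc Z j n
    _ = (((Icc 1 T).filter (fun j => 0 < WW Y ζ υ lam (lam / υ) ((n + Z) ^ 2 + j))).card : ℝ) := by
        rw [Finset.sum_ite, sum_const_zero, add_zero, sum_const, nsmul_eq_mul, mul_one]
    _ ≤ cn r ((Y : ℝ) ^ ζ) T (n + Z) := by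
        unfold cn
        apply Nat.cast_le.2
        apply card_le_card
        intro j hj
        rw [mem_filter] at hj ⊢
        have hj1 := (mem_Icc.1 hj.1).1
        exact ⟨hj.1, almost Y hY ζ υ lam S r hζυ hυ0 hυ1 hlam hr _ (by omega) (hN j hj.1) hj.2 (hsq j hj.1)⟩

lemma le_e1 (ε' f0 a1 ε₁ κ : ℝ) (ha1 : a1 ≠ 0) (hε₁ : ε₁ ≠ 0)
    (h : κ ≤ 2 * (4 * (ε' * f0 ^ 2 / (147456 * a1 ^ 2) * ε₁ ^ 4))) :
    a1 ^ 2 * (κ * (3 / ε₁) ^ 2) * 16 ≤ ε' / 8 * ((ε₁ * f0) / 4) ^ 2 := by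
  have e1 : a1 ^ 2 * (2 * (4 * (ε' * f0 ^ 2 / (147456 * a1 ^ 2) * ε₁ ^ 4)) * (3 / ε₁) ^ 2) * 16 =
      ε' / 8 * ((ε₁ * f0) / 4) ^ 2 := by
    field_simp
    ring
  rw [← e1]
  have h2 := mul_le_mul_of_nonneg_right h (sq_nonneg (3 / ε₁))
  have h3 := mul_le_mul_of_nonneg_left h2 (sq_nonneg a1)
  exact mul_le_mul_of_nonneg_right h3 (by norm_num)

lemma le_e2 (a1 g4 : ℝ) (ha1 : a1 ≠ 0) : a1 ^ 2 * (g4 / a1 ^ 2) ≤ g4 := by
  apply le_of_eq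
  field_simp

open Classical in
/-- **Almost primes just above the squares.** -/
theorem main (r : ℕ) (hr : 1 ≤ r) (θ : ℝ) (hθ : 0 < θ) (hθ1 : θ ≤ 1) (hL : 4 < θ * Lam r) :
    ∃ c δ : ℝ, 0 < c ∧ 0 < δ ∧ ∀ ε : ℝ, 0 < ε → ∃ K : ℝ, 0 < K ∧ ∃ X0 : ℕ, ∀ X : ℕ, X0 ≤ X →
      ∀ Z M T : ℕ, (X : ℝ) ^ θ ≤ M → Z + M ≤ 2 * X → K * Real.log X ≤ T → (T : ℝ) ≤ Real.log X ^ 49 →
        (((Ioc Z (Z + M)).filter (fun n => (cn r ((X : ℝ) ^ δ) T n : ℝ) < c * T / Real.log X)).card : ℝ) ≤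
          ε * M := by
  -- parameters of the weighted sieve
  set Λ : ℝ := Lam r with hΛ
  have hΛ0 : 0 < Λ := by
    by_contra h
    push Not at h
    have := mul_nonpos_of_nonneg_of_nonpos hθ.le h
    linarith
  set τ : ℝ := (1 / Λ + θ / 4) / 2 with hτd
  have hθΛ : 1 / Λ < θ / 4 := by
    rw [div_lt_iff₀ hΛ0]
    linarith
  have hinv : 0 < 1 / Λ := by positivity
  have hτ0 : 0 < τ := by rw [hτd]; linarith
  have hτθ : τ < θ / 4 := by rw [hτd]; linarith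
  have hτL : 1 < τ * Λ := by
    have h1 : 1 / Λ < τ := by rw [hτd]; linarith
    rw [div_lt_iff₀ hΛ0] at h1
    exact h1
  obtain ⟨υ, lam, S, hυ1, hυτ, hlam, hS, hJ, hrr⟩ := lev_of r hr τ hτ0 hτL
  set ζ : ℝ := τ / 4 with hζ
  have hζ0 : 0 < ζ := by rw [hζ]; linarith
  have hυ0 : 0 < υ := hζ0.trans_le hυ1
  have hυ1' : υ ≤ 1 := by linarith
  obtain ⟨f0, F0, hf0, hF0, HL⟩ := lsw4 τ ζ υ lam (lam / υ) hζ0 (by rw [hζ]; linarith) (by rw [hζ]; linarith)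
    (by linarith) hυ1 hυτ hlam.le (by positivity) (by rw [div_mul_cancel₀ _ hυ0.ne']) hJ
  set a1 : ℝ := 1 + lam with ha1
  have ha10 : 0 < a1 := by rw [ha1]; linarith
  obtain ⟨C, x0, hC, HM2⟩ := M2
  obtain ⟨c1, C1, hc1, hC1, hV⟩ := Pool.Agent.Y810.SQ.V1_bounds
  refine ⟨f0 * c1 / 16, 2 * ζ, by positivity, by linarith, ?_⟩
  intro ε hε
  set ε' : ℝ := min ε 1 with hε'
  have hε'0 : 0 < ε' := lt_min hε one_pos
  have hε'1 : ε' ≤ 1 := min_le_right _ _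
  have hε'ε : ε' ≤ ε := min_le_left _ _
  obtain ⟨Kl, K0, y0, T0, hKl, Hlln⟩ := Pool.Agent.Y862.SQ.lln Pool.Agent.Y862.SQ.t_MOM (ε' / 4) (by linarith)
    (by linarith)
  obtain ⟨K0', y0', T0', Hmom⟩ := moments
  set σ : ℝ := θ / 2 - 2 * τ with hσ
  have hσ0 : 0 < σ := by rw [hσ]; linarith
  set κ0 : ℝ := ε' * f0 ^ 2 / (147456 * a1 ^ 2) with hκ0
  have hκ00 : 0 < κ0 := by positivity
  set e0 : ℝ := min (min ζ (τ - υ)) (min (θ / 2 / (K0 + 1)) (θ / 2 / (K0' + 1))) with he0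
  have he00 : 0 < e0 := by
    apply lt_min (lt_min hζ0 (by linarith))
    apply lt_min <;> positivity
  obtain ⟨b, hbC, hb1, hbe, hbκ⟩ := pick_b C σ e0 κ0 hC hσ0 he00 hκ00
  have hC0 : (0 : ℝ) < C := by exact_mod_cast hC
  have hb0 : (0 : ℝ) < b := by exact_mod_cast hb1
  set ε₁ : ℝ := σ / (C * b) with hε₁d
  have hε₁ : 0 < ε₁ := by positivity
  have hε₁ζ : ε₁ ≤ ζ := hbe.trans ((min_le_left _ _).trans (min_le_left _ _))
  have hε₁τ : ε₁ ≤ τ - υ := hbe.trans ((min_le_left _ _).trans (min_le_right _ _))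
  have hε₁K : ε₁ * K0 ≤ θ / 2 := by
    have h1 : ε₁ ≤ θ / 2 / (K0 + 1) := hbe.trans ((min_le_right _ _).trans (min_le_left _ _))
    rw [le_div_iff₀ (by positivity)] at h1
    linarith
  have hε₁K' : ε₁ * K0' ≤ θ / 2 := by
    have h1 : ε₁ ≤ θ / 2 / (K0' + 1) := hbe.trans ((min_le_right _ _).trans (min_le_right _ _))
    rw [le_div_iff₀ (by positivity)] at h1
    linarith
  have hε₁1 : ε₁ ≤ 1 := by linarith
  have hε₁Cb : ε₁ * (C * b) = σ := by rw [hε₁d]; field_simp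
  obtain ⟨η, hη, HL2⟩ := HL ε₁ hε₁ hε₁ζ hε₁τ
  set m : ℕ := ⌈S / ε₁⌉₊ with hm
  have hmS : S / ε₁ ≤ m := Nat.le_ceil _
  have hmτ : τ / ε₁ ≤ m := by
    refine le_trans ?_ hmS
    apply div_le_div_of_nonneg_right _ hε₁.le
    linarith
  set G0 : ℝ := ε₁ * f0 with hG0
  have hG00 : 0 < G0 := by positivity
  set Pb : ℝ := 3 / ε₁ with hPb
  have hPb0 : 0 < Pb := by positivity
  set B : ℝ := a1 * 2 ^ m + a1 * Pb with hB
  have hB0 : 0 < B := by positivity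
  set κ1 : ℝ := 4 * (κ0 * ε₁ ^ 4) with hκ1
  have hκ10 : 0 < κ1 := by positivity
  set g4 : ℝ := ε' / 16 * (G0 / 4) ^ 2 with hg4
  have hg40 : 0 < g4 := by positivity
  set ρ : ℝ := g4 / a1 ^ 2 with hρ
  have hρ0 : 0 < ρ := by positivity
  set μ0 : ℝ := max 1 (max Kl (12 * B ^ 2 / g4)) with hμ0
  have hμ01 : 1 ≤ μ0 := le_max_left _ _
  set K : ℝ := 2 * ε₁ * μ0 / c1 with hK
  have hKpos : 0 < K := by positivity
  refine ⟨K, hKpos, ?_⟩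
  obtain ⟨Yr, HR⟩ := reg ε₁ υ (min η 1) hε₁ hυ1' (lt_min hη one_pos)
  -- the conditions on `X`
  have hlogt : Tendsto (fun X : ℕ => Real.log X) atTop atTop :=
    Real.tendsto_log_atTop.comp tendsto_natCast_atTop_atTop
  have ev1 : ∀ᶠ X : ℕ in atTop, ((T0 : ℝ) + T0' + 1) / K ≤ Real.log X := hlogt.eventually_ge_atTop _
  have ev2 : ∀ᶠ X : ℕ in atTop, (x0 : ℝ) + y0 + y0' + 3 + 48 / κ1 ≤ (X : ℝ) ^ (2 * ε₁) :=
    ((tendsto_rpow_atTop (by linarith)).comp tendsto_natCast_atTop_atTop).eventually_ge_atTop _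
  have ev3 := ev_log 49 2 (2 * ε₁) (by norm_num) (by linarith)
  have ev4 := ev_log 245 1 θ (by norm_num) hθ
  have ev6 : ∀ᶠ X : ℕ in atTop, (5 : ℝ) ≤ (X : ℝ) ^ (2 * S - 2) :=
    ((tendsto_rpow_atTop (by linarith)).comp tendsto_natCast_atTop_atTop).eventually_ge_atTop _
  have ev7 := ev_log 49 3 (2 * ζ) (by norm_num) (by linarith)
  have ev8 := ev_log 98 (4 * 2 ^ (2 * m) / ρ) σ (by positivity) hσ0
  have ev8' := ev_log 98 1 (θ / 2) (by norm_num) (by linarith)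
  have ev9 := ev_log 49 (32 / ε') (2 * ζ) (by positivity) (by linarith)
  have ev9' := ev_log 49 (16 / ε') (θ - 2 * υ) (by positivity) (by linarith)
  obtain ⟨X1, hX1⟩ := eventually_atTop.1 ((ev1.and (ev2.and (ev3.and ev4))).and
    ((ev6.and (ev7.and (ev8.and ev8'))).and (ev9.and (ev9'.and ((eventually_ge_atTop 3).and
      (eventually_ge_atTop Yr))))))
  refine ⟨X1, fun X hX Z M T hM hZM hKT hTX => ?_⟩
  obtain ⟨⟨v1, v2, v3, v4⟩, ⟨v6, v7, v8, v8'⟩, v9, v9', vX3, vXr⟩ := hX1 X hX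
  have hXr : (3 : ℝ) ≤ X := by exact_mod_cast vX3
  have hX0 : (0 : ℝ) < X := by linarith
  have hX1r : (1 : ℝ) ≤ X := by linarith
  set l : ℝ := Real.log X with hl
  have hl1 : 1 ≤ l := by
    rw [hl, ← Real.log_exp 1]
    apply Real.log_le_log (Real.exp_pos _)
    linarith [Real.exp_one_lt_d9]
  have hl0 : 0 < l := by linarith
  have hl49 : 1 ≤ l ^ 49 := one_le_pow₀ hl1
  -- the scale
  set Y : ℕ := X ^ 2 with hY
  have hYp : ∀ s : ℝ, (Y : ℝ) ^ s = (X : ℝ) ^ (2 * s) := by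
    intro s
    rw [hY]
    push_cast
    rw [← Real.rpow_natCast, ← Real.rpow_mul hX0.le]
    norm_num
  have hYX : X ≤ Y := by rw [hY]; exact Nat.le_self_pow (by norm_num) X
  have hY2 : 2 ≤ Y := by omega
  have hYr2 : (2 : ℝ) ≤ Y := by exact_mod_cast hY2
  have hY0 : (0 : ℝ) < Y := by linarith
  have hlY : Real.log Y = 2 * l := by
    rw [hY, hl]
    push_cast
    rw [Real.log_pow]
    norm_num
  -- the sifting limit
  set y : ℕ := ⌈(Y : ℝ) ^ ε₁⌉₊ - 1 with hy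
  have hceil : 0 < ⌈(Y : ℝ) ^ ε₁⌉₊ := Nat.ceil_pos.2 (by positivity)
  have hycast : (y : ℝ) = (⌈(Y : ℝ) ^ ε₁⌉₊ : ℝ) - 1 := by
    rw [hy, Nat.cast_sub (by omega)]
    norm_num
  have hylt : (y : ℝ) < (Y : ℝ) ^ ε₁ := by
    rw [hycast]
    have := Nat.ceil_lt_add_one (show 0 ≤ (Y : ℝ) ^ ε₁ by positivity)
    linarith
  have hyge : (X : ℝ) ^ (2 * ε₁) - 1 ≤ y := by
    rw [hycast, ← hYp]
    have := Nat.le_ceil ((Y : ℝ) ^ ε₁)
    linarith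
  have hq1 : (0 : ℝ) ≤ x0 := Nat.cast_nonneg _
  have hq2 : (0 : ℝ) ≤ y0 := Nat.cast_nonneg _
  have hq3 : (0 : ℝ) ≤ y0' := Nat.cast_nonneg _
  have hq4 : 0 < 48 / κ1 := by positivity
  have hy2r : (2 : ℝ) ≤ y := by linarith
  have hy2 : 2 ≤ y := by exact_mod_cast hy2r
  have hyx0 : x0 ≤ y := by
    have : (x0 : ℝ) ≤ y := by linarith
    exact_mod_cast this
  have hyy0 : y0 ≤ y := by
    have : (y0 : ℝ) ≤ y := by linarith
    exact_mod_cast this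
  have hyy0' : y0' ≤ y := by
    have : (y0' : ℝ) ≤ y := by linarith
    exact_mod_cast this
  have hy0 : (0 : ℝ) < y := by linarith
  have hyκ : 48 / (y : ℝ) ≤ κ1 := by
    rw [div_le_iff₀ hy0]
    have h1 : 48 / κ1 ≤ y := by linarith
    rw [div_le_iff₀ hκ10] at h1
    linarith
  have hTyr : (T : ℝ) ≤ y := by linarith
  have hTy : T ≤ y := by exact_mod_cast hTyr
  have hypow : ∀ k : ℕ, (y : ℝ) ^ k ≤ (X : ℝ) ^ (2 * (ε₁ * k)) := by
    intro k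
    calc (y : ℝ) ^ k ≤ ((Y : ℝ) ^ ε₁) ^ k := pow_le_pow_left₀ hy0.le hylt.le k
      _ = (Y : ℝ) ^ (ε₁ * k) := by rw [← Real.rpow_natCast, ← Real.rpow_mul hY0.le]
      _ = _ := hYp _
  have hmonoX : ∀ s t : ℝ, s ≤ t → (X : ℝ) ^ s ≤ (X : ℝ) ^ t := fun s t h =>
    Real.rpow_le_rpow_of_exponent_le hX1r h
  have hyK0 : y ^ K0 ≤ M := by
    have h1 : ((y ^ K0 : ℕ) : ℝ) ≤ M := by
      push_cast
      exact (hypow K0).trans ((hmonoX _ _ (by linarith)).trans hM)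
    exact_mod_cast h1
  have hyK0' : y ^ K0' ≤ M := by
    have h1 : ((y ^ K0' : ℕ) : ℝ) ≤ M := by
      push_cast
      exact (hypow K0').trans ((hmonoX _ _ (by linarith)).trans hM)
    exact_mod_cast h1
  set x : ℕ := ⌊(X : ℝ) ^ (2 * σ)⌋₊ with hx
  have hyCb : y ^ (C * b) ≤ x := by
    apply Nat.le_floor
    push_cast
    refine (hypow (C * b)).trans (le_of_eq ?_)
    congr 1
    push_cast
    rw [hε₁Cb]
  have hsx : √(x : ℝ) ≤ (X : ℝ) ^ σ := by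
    rw [Real.sqrt_le_left (by positivity)]
    have h1 : (x : ℝ) ≤ (X : ℝ) ^ (2 * σ) := Nat.floor_le (by positivity)
    have h2 : ((X : ℝ) ^ σ) ^ 2 = (X : ℝ) ^ (2 * σ) := by
      rw [← Real.rpow_natCast, ← Real.rpow_mul hX0.le]
      congr 1
      push_cast
      ring
    rw [h2]
    exact h1
  -- the sizes of `T` and `M`
  have hT0r : (T0 : ℝ) + T0' + 1 ≤ T := by
    rw [div_le_iff₀ hKpos] at v1
    linarith
  have hq5 : (0 : ℝ) ≤ T0 := Nat.cast_nonneg _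
  have hq6 : (0 : ℝ) ≤ T0' := Nat.cast_nonneg _
  have hTT0 : T0 ≤ T := by
    have : (T0 : ℝ) ≤ T := by linarith
    exact_mod_cast this
  have hTT0' : T0' ≤ T := by
    have : (T0' : ℝ) ≤ T := by linarith
    exact_mod_cast this
  have hT1r : (1 : ℝ) ≤ T := by linarith
  have hT1 : 1 ≤ T := by exact_mod_cast hT1r
  have hTnn : (0 : ℝ) ≤ T := by linarith
  have hT5 : T ^ 5 ≤ M := by
    have h1 : ((T ^ 5 : ℕ) : ℝ) ≤ M := by
      push_cast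
      calc (T : ℝ) ^ 5 ≤ (l ^ 49) ^ 5 := pow_le_pow_left₀ hTnn hTX 5
        _ = 1 * l ^ 245 := by ring
        _ ≤ (X : ℝ) ^ θ := v4
        _ ≤ M := hM
    exact_mod_cast h1
  have hT4 : T ^ 4 ≤ M := (Nat.pow_le_pow_right hT1 (by norm_num)).trans hT5
  have hTM : T ≤ M := (Nat.le_self_pow (by norm_num) T).trans hT5
  have hM0 : (0 : ℝ) ≤ M := Nat.cast_nonneg _
  have hT2 : (T : ℝ) ^ 2 ≤ l ^ 98 := by
    calc (T : ℝ) ^ 2 ≤ (l ^ 49) ^ 2 := pow_le_pow_left₀ hTnn hTX 2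
      _ = l ^ 98 := by ring
  -- the expected number
  set μ : ℝ := T * V1 y with hμ
  have hlogy : Real.log y ≤ 2 * ε₁ * l := by
    have h1 : Real.log y ≤ Real.log ((Y : ℝ) ^ ε₁) := Real.log_le_log hy0 hylt.le
    rw [Real.log_rpow hY0, hlY] at h1
    linarith
  have hlogy0 : 0 < Real.log y := Real.log_pos (by linarith)
  have hVy : c1 / (2 * ε₁ * l) ≤ V1 y :=
    (div_le_div_of_nonneg_left hc1.le hlogy0 hlogy).trans (hV y hy2).1
  have hμge : T * (c1 / (2 * ε₁ * l)) ≤ μ := mul_le_mul_of_nonneg_left hVy hTnn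
  have hμμ0 : μ0 ≤ μ := by
    refine le_trans ?_ hμge
    calc μ0 = (K * l) * (c1 / (2 * ε₁ * l)) := by rw [hK]; field_simp
      _ ≤ T * (c1 / (2 * ε₁ * l)) := mul_le_mul_of_nonneg_right hKT (by positivity)
  have hμ1 : 1 ≤ μ := hμ01.trans hμμ0
  have hμKl : Kl ≤ μ := ((le_max_left _ _).trans (le_max_right _ _)).trans hμμ0
  have hμB : 12 * B ^ 2 ≤ g4 * μ := by
    have h1 : 12 * B ^ 2 / g4 ≤ μ := ((le_max_right _ _).trans (le_max_right _ _)).trans hμμ0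
    rw [div_le_iff₀ hg40] at h1
    linarith
  -- the weights
  obtain ⟨cU, cL, hcb, hcsup, hcWB, hcval⟩ := HL2 Y hY2
  have hreg : ∀ j ∈ Icc 1 T, Mer (pr Y ε₁ υ) (tt Y) (fun p => (rH {j} p : ℝ) / p) ε₁ υ (min η 1) := by
    intro j hj
    rw [mem_Icc] at hj
    apply HR Y (vXr.trans hYX) j hj.1
    have h1 : (j : ℝ) ≤ T := by exact_mod_cast hj.2
    calc (j : ℝ) ≤ T := h1
      _ ≤ l ^ 49 := hTX
      _ ≤ (Real.log Y) ^ 49 := pow_le_pow_left₀ hl0.le (by rw [hlY]; linarith) 49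
      _ ≤ (Real.log Y) ^ 50 := pow_le_pow_right₀ (by rw [hlY]; linarith) (by norm_num)
  have hvlow : ∀ j ∈ Icc 1 T, G0 ≤ vj (pr Y ε₁ υ) cL j := by
    intro j hj
    have h1 : Mer (pr Y ε₁ υ) (tt Y) (fun p => (rH {j} p : ℝ) / p) ε₁ υ η :=
      fun a b ha hab hb => (hreg j hj a b ha hab hb).trans (min_le_left _ _)
    exact (hcval _ (fun p _ => by positivity) h1).1
  have hPi : ∀ j ∈ Icc 1 T, Pi' (pr Y ε₁ υ) j ≤ Pb := fun j hj =>
    Pi'_le Y ε₁ υ (min η 1) j hε₁ (hε₁ζ.trans hυ1) hυ1' (min_le_right _ _) (hreg j hj)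
  have hclabs : ∀ D, |cL D| ≤ a1 := fun D => (hcb D).2
  have hNle : ∀ n ∈ Icc 1 M, ∀ j ∈ Icc 1 T, (((n + Z) ^ 2 + j : ℕ) : ℝ) ≤ (Y : ℝ) ^ S := by
    intro n hn j hj
    rw [mem_Icc] at hn hj
    have h1 : n + Z ≤ 2 * X := by omega
    have h2 : j ≤ X ^ 2 := by
      have : 2 * X ≤ X ^ 2 := by
        rw [sq]
        exact Nat.mul_le_mul_right X (by omega)
      omega
    have h3 : (n + Z) ^ 2 + j ≤ 5 * X ^ 2 := by
      have := Nat.pow_le_pow_left h1 2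
      have e : (2 * X) ^ 2 = 4 * X ^ 2 := by ring
      omega
    have h4 : (((n + Z) ^ 2 + j : ℕ) : ℝ) ≤ 5 * (X : ℝ) ^ 2 := by exact_mod_cast h3
    refine h4.trans ?_
    rw [hYp]
    calc 5 * (X : ℝ) ^ 2 ≤ (X : ℝ) ^ (2 * S - 2) * (X : ℝ) ^ 2 := mul_le_mul_of_nonneg_right v6 (by positivity)
      _ = (X : ℝ) ^ (2 * S) := by
          rw [← Real.rpow_natCast, ← Real.rpow_add hX0]
          congr 1
          push_cast
          ring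
  have hw : ∀ j ∈ Icc 1 T, ∀ n ∈ Icc 1 M, |wj (pr Y ε₁ υ) cL Z j n| ≤ B := by
    intro j hj n hn
    have hj1 := (mem_Icc.1 hj).1
    refine (wj_le Y hY2 ε₁ υ S hε₁ cL a1 hclabs m hmS Z j n (by omega) (hNle n hn j hj)).trans ?_
    rw [hB]
    have : 0 ≤ a1 * Pb := by positivity
    linarith
  have hv : ∀ j ∈ Icc 1 T, |vj (pr Y ε₁ υ) cL j| ≤ B := by
    intro j hj
    refine (vj_le _ cL a1 hclabs j).trans ?_
    have h1 := mul_le_mul_of_nonneg_left (hPi j hj) ha10.le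
    have : 0 ≤ a1 * 2 ^ m := by positivity
    rw [hB]
    linarith
  have hPp : ∀ p ∈ pr Y ε₁ υ, p.Prime ∧ y < p := by
    intro p hp
    obtain ⟨h1, h2, _⟩ := Pool.Agent.Y882.PX.pr_mem Y p ε₁ υ hY2 hp
    refine ⟨h1, ?_⟩
    have : (y : ℝ) < p := hylt.trans_le h2
    exact_mod_cast this
  set L : ℕ := ⌊(X : ℝ) ^ (2 * τ)⌋₊ with hLd
  have hcLm : ∀ D ⊆ pr Y ε₁ υ, cL D ≠ 0 → D.card ≤ m ∧ ∏ p ∈ D, p ≤ L := by
    intro D hD hne
    have h1 := hcsup D hD (Or.inr hne)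
    refine ⟨?_, ?_⟩
    · apply few_large Y hY2 ε₁ τ hε₁ D _ m hmτ h1
      intro p hp
      exact (Pool.Agent.Y882.PX.pr_mem Y p ε₁ υ hY2 (hD hp)).2.1
    · apply Nat.le_floor
      rw [← hYp]
      exact h1
  have key := HM2 b hbC x y hyx0 (by omega) hyCb Z M T hTy (pr Y ε₁ υ) cL a1 m L Pb B hPp hclabs hcLm hPi hw hv hB0.le
  obtain ⟨hN2, hN1⟩ := Hmom Z M y T hyy0' hyK0' hTT0' hT1 hT4 hμ1
  rw [← hμ] at hN2 hN1
  set Fn : ℕ → ℝ := fun n => ∑ j ∈ Icc 1 T, ok Z y j n * (wj (pr Y ε₁ υ) cL Z j n - vj (pr Y ε₁ υ) cL j) with hFn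
  have hMμ2 : (M : ℝ) ≤ M * μ ^ 2 := le_mul_of_one_le_right hM0 (one_le_pow₀ hμ1)
  have hterm1 : 2 * (T : ℝ) ^ 2 * √(x : ℝ) ≤ 2 * (M * μ ^ 2) := by
    have h1 : (T : ℝ) ^ 2 * √(x : ℝ) ≤ M := by
      calc (T : ℝ) ^ 2 * √(x : ℝ) ≤ l ^ 98 * (X : ℝ) ^ σ :=
            mul_le_mul hT2 hsx (Real.sqrt_nonneg _) (by positivity)
        _ ≤ (X : ℝ) ^ (θ / 2) * (X : ℝ) ^ (θ / 2) := by
            apply mul_le_mul (by linarith) (hmonoX _ _ (by linarith)) (by positivity) (by positivity)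
        _ = (X : ℝ) ^ θ := by
            rw [← Real.rpow_add hX0]
            congr 1
            ring
        _ ≤ M := hM
    linarith
  have hterm2 : (T : ℝ) ^ 2 * (4 * (2 ^ (2 * m) * √(x : ℝ)) * (L : ℝ) ^ 2) ≤ ρ * M := by
    have hLr : (L : ℝ) ≤ (X : ℝ) ^ (2 * τ) := Nat.floor_le (by positivity)
    have hL2 : (L : ℝ) ^ 2 ≤ (X : ℝ) ^ (4 * τ) := by
      calc (L : ℝ) ^ 2 ≤ ((X : ℝ) ^ (2 * τ)) ^ 2 := pow_le_pow_left₀ (Nat.cast_nonneg _) hLr 2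
        _ = (X : ℝ) ^ (4 * τ) := by
            rw [← Real.rpow_natCast, ← Real.rpow_mul hX0.le]
            congr 1
            push_cast
            ring
    have h8 : 4 * 2 ^ (2 * m) * l ^ 98 ≤ ρ * (X : ℝ) ^ σ := by
      have h9 : 4 * 2 ^ (2 * m) / ρ * l ^ 98 = 4 * 2 ^ (2 * m) * l ^ 98 / ρ := by ring
      rw [h9, div_le_iff₀ hρ0] at v8
      linarith
    calc (T : ℝ) ^ 2 * (4 * (2 ^ (2 * m) * √(x : ℝ)) * (L : ℝ) ^ 2) ≤
        l ^ 98 * (4 * (2 ^ (2 * m) * (X : ℝ) ^ σ) * (X : ℝ) ^ (4 * τ)) := by gcongr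
      _ = (4 * 2 ^ (2 * m) * l ^ 98) * ((X : ℝ) ^ σ * (X : ℝ) ^ (4 * τ)) := by ring
      _ ≤ (ρ * (X : ℝ) ^ σ) * ((X : ℝ) ^ σ * (X : ℝ) ^ (4 * τ)) := mul_le_mul_of_nonneg_right h8 (by positivity)
      _ = ρ * (X : ℝ) ^ θ := by
          rw [mul_assoc, ← Real.rpow_add hX0, ← Real.rpow_add hX0]
          congr 2
          rw [hσ]
          ring
      _ ≤ ρ * M := mul_le_mul_of_nonneg_left hM hρ0.le
  set κ : ℝ := 4 * (1 / 2 : ℝ) ^ b + 48 / y with hκ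
  have hκ0' : 0 ≤ κ := by positivity
  have hκle : κ ≤ 2 * κ1 := by
    have h1 : 4 * (1 / 2 : ℝ) ^ b ≤ κ1 := by
      rw [hκ1]
      linarith
    linarith
  have hSs : ∑ n ∈ Icc 1 M, Fn n ^ 2 ≤ a1 ^ 2 * (κ * Pb ^ 2 * (16 * (M * μ ^ 2)) + ρ * M) + 12 * B ^ 2 * (M * μ) := by
    refine key.trans ?_
    have h1 : κ * Pb ^ 2 * (2 * ∑ n ∈ Icc 1 M, (Ns y T (n + Z) : ℝ) ^ 2 + 2 * (T : ℝ) ^ 2 * √(x : ℝ)) ≤
        κ * Pb ^ 2 * (16 * (M * μ ^ 2)) := by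
      apply mul_le_mul_of_nonneg_left _ (by positivity)
      linarith
    have h2 : (2 * B) ^ 2 * ∑ n ∈ Icc 1 M, (Ns y T (n + Z) : ℝ) ≤ 12 * B ^ 2 * (M * μ) := by
      have := mul_le_mul_of_nonneg_left hN1 (show 0 ≤ (2 * B) ^ 2 by positivity)
      refine this.trans (le_of_eq ?_)
      ring
    have h3 : a1 ^ 2 * (κ * Pb ^ 2 *
        (2 * ∑ n ∈ Icc 1 M, (Ns y T (n + Z) : ℝ) ^ 2 + 2 * (T : ℝ) ^ 2 * √(x : ℝ)) +
        (T : ℝ) ^ 2 * (4 * (2 ^ (2 * m) * √(x : ℝ)) * (L : ℝ) ^ 2)) ≤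
        a1 ^ 2 * (κ * Pb ^ 2 * (16 * (M * μ ^ 2)) + ρ * M) :=
      mul_le_mul_of_nonneg_left (add_le_add h1 hterm2) (by positivity)
    exact add_le_add h3 h2
  have hfin := fin_real ε' a1 κ Pb ρ B μ G0 M _ hM0 hμ1 hSs
    (le_e1 ε' f0 a1 ε₁ κ ha10.ne' hε₁.ne' hκle) (le_e2 a1 g4 ha10.ne') hμB hg40.le
  have hG0μ : 0 < G0 / 4 * μ := by positivity
  have hE2 := cheb M Fn (G0 / 4 * μ) (ε' / 4 * M) hG0μ hfin
  -- the law of large numbers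
  have hE1 := Hlln Z M y T hyy0 hyK0 hTT0 (by omega) hμKl
  rw [card_shift] at hE1
  -- squares
  have hE3 := few_sq Y hY2 ζ υ Z M T (by rw [hYp]; linarith) (by rw [hYp]; linarith)
  have hE3' : (T : ℝ) * (4 * M / (Y : ℝ) ^ ζ + 2 * (Y : ℝ) ^ υ) ≤ ε' / 4 * M := by
    rw [hYp, hYp]
    have hXζ : (0 : ℝ) < (X : ℝ) ^ (2 * ζ) := by positivity
    have k1 : (T : ℝ) * (4 * M / (X : ℝ) ^ (2 * ζ)) ≤ ε' / 8 * M := by
      have h1 : (T : ℝ) * (32 / ε') ≤ (X : ℝ) ^ (2 * ζ) := by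
        refine le_trans ?_ v9
        rw [mul_comm]
        exact mul_le_mul_of_nonneg_left hTX (by positivity)
      have h2 : (T : ℝ) * 32 ≤ ε' * (X : ℝ) ^ (2 * ζ) := by
        have h3 := mul_le_mul_of_nonneg_left h1 hε'0.le
        have e : ε' * ((T : ℝ) * (32 / ε')) = T * 32 := by field_simp
        rwa [e] at h3
      rw [mul_div_assoc', div_le_iff₀ hXζ]
      have h4 := mul_le_mul_of_nonneg_right h2 hM0
      linarith
    have k2 : (T : ℝ) * (2 * (X : ℝ) ^ (2 * υ)) ≤ ε' / 8 * M := by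
      have h1 : (T : ℝ) * (16 / ε') ≤ (X : ℝ) ^ (θ - 2 * υ) := by
        refine le_trans ?_ v9'
        rw [mul_comm]
        exact mul_le_mul_of_nonneg_left hTX (by positivity)
      have h2 : (T : ℝ) * 16 ≤ ε' * (X : ℝ) ^ (θ - 2 * υ) := by
        have h3 := mul_le_mul_of_nonneg_left h1 hε'0.le
        have e : ε' * ((T : ℝ) * (16 / ε')) = T * 16 := by field_simp
        rwa [e] at h3
      have h4 := mul_le_mul_of_nonneg_right h2 (show 0 ≤ (X : ℝ) ^ (2 * υ) by positivity)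
      have h5 : (X : ℝ) ^ (θ - 2 * υ) * (X : ℝ) ^ (2 * υ) = (X : ℝ) ^ θ := by
        rw [← Real.rpow_add hX0]
        congr 1
        ring
      have h6 : ε' * (X : ℝ) ^ (θ - 2 * υ) * (X : ℝ) ^ (2 * υ) ≤ ε' * M := by
        rw [mul_assoc, h5]
        exact mul_le_mul_of_nonneg_left hM hε'0.le
      linarith
    rw [mul_add]
    linarith
  -- conclusion
  rw [card_shift]
  have hsub : (Icc 1 M).filter (fun n => (cn r ((X : ℝ) ^ (2 * ζ)) T (n + Z) : ℝ) < f0 * c1 / 16 * T / l) ⊆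
      ((Icc 1 M).filter (fun n => ε' / 4 * (T * V1 y) < |(Ns y T (n + Z) : ℝ) - T * V1 y|) ∪
      (Icc 1 M).filter (fun n => Fn n < -(G0 / 4 * μ))) ∪
      (Icc 1 M).filter (fun n => ∃ j ∈ Icc 1 T, ∃ q ∈ pr Y ζ υ, q ^ 2 ∣ (n + Z) ^ 2 + j) := by
    intro n hn
    rw [mem_filter] at hn
    obtain ⟨hn1, hn2⟩ := hn
    by_contra hcon
    rw [mem_union, mem_union, mem_filter, mem_filter, mem_filter] at hcon
    push Not at hcon
    obtain ⟨⟨g1, g2⟩, g3⟩ := hcon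
    have g1 := g1 hn1
    have g2 := g2 hn1
    have g3 := g3 hn1
    rw [← hμ] at g1
    have hNs : μ / 2 ≤ (Ns y T (n + Z) : ℝ) := by
      have h1 := (abs_le.1 g1).1
      have h2 : ε' / 4 * μ ≤ μ / 4 := by
        have := mul_le_mul_of_nonneg_right hε'1 (show 0 ≤ μ by linarith)
        linarith
      linarith
    have hdet := det Y hY2 ε₁ ζ υ lam S r hυ1 hυ0 hυ1' hlam hrr y hy cL (fun N => (hcWB N).1) Z T n
      (hNle n hn1) (fun j hj q hq => g3 j hj q hq)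
    rw [hYp] at hdet
    have hsplit : ∑ j ∈ Icc 1 T, ok Z y j n * wj (pr Y ε₁ υ) cL Z j n =
        Fn n + ∑ j ∈ Icc 1 T, ok Z y j n * vj (pr Y ε₁ υ) cL j := by
      rw [hFn]
      simp only
      rw [← sum_add_distrib]
      apply sum_congr rfl
      intro j _
      ring
    have hlow : G0 * (Ns y T (n + Z) : ℝ) ≤ ∑ j ∈ Icc 1 T, ok Z y j n * vj (pr Y ε₁ υ) cL j := by
      rw [← sum_ok, mul_sum]
      apply sum_le_sum
      intro j hj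
      rw [mul_comm]
      exact mul_le_mul_of_nonneg_left (hvlow j hj) (ok_nonneg _ _ _ _)
    have h5 := mul_le_mul_of_nonneg_left hNs hG00.le
    have h6 : G0 / 4 * μ ≤ (cn r ((X : ℝ) ^ (2 * ζ)) T (n + Z) : ℝ) := by linarith
    have h7 : f0 * c1 / 16 * T / l ≤ G0 / 4 * μ := by
      calc f0 * c1 / 16 * T / l ≤ f0 * c1 / 8 * T / l := by gcongr; norm_num
        _ = G0 / 4 * (T * (c1 / (2 * ε₁ * l))) := by
            rw [hG0]
            field_simp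
            ring
        _ ≤ G0 / 4 * μ := mul_le_mul_of_nonneg_left hμge (by positivity)
    linarith
  have hcard := (card_le_card hsub).trans ((card_union_le _ _).trans
    (Nat.add_le_add_right (card_union_le _ _) _))
  have hcardr : (((Icc 1 M).filter (fun n => (cn r ((X : ℝ) ^ (2 * ζ)) T (n + Z) : ℝ) < f0 * c1 / 16 * T / l)).card : ℝ) ≤
      ((((Icc 1 M).filter (fun n => ε' / 4 * (T * V1 y) < |(Ns y T (n + Z) : ℝ) - T * V1 y|)).card : ℝ) +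
      (((Icc 1 M).filter (fun n => Fn n < -(G0 / 4 * μ))).card : ℝ)) +
      (((Icc 1 M).filter (fun n => ∃ j ∈ Icc 1 T, ∃ q ∈ pr Y ζ υ, q ^ 2 ∣ (n + Z) ^ 2 + j)).card : ℝ) := by
    exact_mod_cast hcard
  have hfin2 : ε' * M ≤ ε * M := mul_le_mul_of_nonneg_right hε'ε hM0
  have h34 : 0 ≤ ε' * M := by positivity
  linarith

end Pool.Agent.H37SQ
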