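import Pool.Agent.H37SQ.Pre

/-!
# The first moment of the weights
-/

set_option autoImplicit false

namespace Pool.Agent.H37SQ

open Finset Filter Pool.Agent.H373R2.T7 Pool.Agent.Y862.SQ Pool.Agent.Y486.SQ Pool.Agent.Y882

lemma wj_eq (P : Finset ℕ) (c : Finset ℕ → ℝ) (Z j n : ℕ) : wj P c Z j n = ∑ D ∈ P.powerset, c D * ind Z j D n := by
  have h := w_sub_v P c Z j n
  have h2 : vj P c j = ∑ D ∈ P.powerset, c D * hh j D := rfl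
  simp only [mul_sub, sum_sub_distrib] at h
  linarith

open Classical in
/-- one `j` -/
theorem E1 : ∃ C x0 : ℕ, 1 ≤ C ∧ ∀ b : ℕ, C ≤ b → ∀ x y : ℕ, x0 ≤ y → 1 ≤ y → y ^ (C * b) ≤ x →
    ∀ (Z M j : ℕ) (P : Finset ℕ) (c : Finset ℕ → ℝ) (a1 : ℝ) (m L : ℕ) (Pb G0 : ℝ),
      (∀ p ∈ P, p.Prime ∧ y < p) → (∀ D, |c D| ≤ a1) → (∀ D ⊆ P, c D ≠ 0 → D.card ≤ m ∧ ∏ p ∈ D, p ≤ L) →
      Pi' P j ≤ Pb → G0 ≤ vj P c j → 0 ≤ G0 → a1 * (1 / 2 : ℝ) ^ b * Pb ≤ G0 / 2 →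
      G0 / 4 * (Sf Z M y {j}).card - (G0 * √(x : ℝ) + a1 * (2 ^ m * √(x : ℝ)) * L) ≤ ∑ n ∈ Sf Z M y {j}, wj P c Z j n := by
  obtain ⟨C, x0, hC, H⟩ := count_DD
  refine ⟨C, x0, hC, ?_⟩
  intro b hb x y hy hy1 hyx Z M j P c a1 m L Pb G0 hP hc hcL hPb hG hG0 hsmall
  have ha1 : 0 ≤ a1 := (abs_nonneg _).trans (hc ∅)
  have hjj : ({j, j} : Finset ℕ) = {j} := by simp
  have hM0 : (0 : ℝ) ≤ M := Nat.cast_nonneg _
  set V : ℝ := VH {j} y with hV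
  have hV0 : 0 ≤ V := VH_nonneg _ _
  have hMV : 0 ≤ M * V := by positivity
  set δ : ℝ := (1 / 2 : ℝ) ^ b with hδ
  have hδ0 : 0 ≤ δ := by positivity
  have hδ1 : δ ≤ 1 := pow_le_one₀ (by norm_num) (by norm_num)
  have hs0 : 0 ≤ √(x : ℝ) := Real.sqrt_nonneg _
  have key : ∀ D : Finset ℕ, (∀ p ∈ D, p.Prime ∧ y < p) →
      |∑ n ∈ Sf Z M y {j}, ind Z j D n - M * V * hh j D| ≤ δ * (M * V * hh j D) + 2 ^ D.card * √(x : ℝ) := by
    intro D hD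
    have h1 := H b hb x y hy hyx Z M j j D ∅ hD (by simp) (disjoint_empty_right _)
    rw [hjj] at h1
    simp only [ind_empty, hh_empty, mul_one, card_empty, add_zero] at h1
    have e : (M : ℝ) * hh j D * VH {j} y = M * V * hh j D := by rw [hV]; ring
    rw [e] at h1
    exact h1
  have hcard : ((Sf Z M y {j}).card : ℝ) ≤ 2 * (M * V) + √(x : ℝ) := by
    have h1 := (abs_le.1 (key ∅ (by simp))).2
    simp only [ind_empty, hh_empty, mul_one, card_empty, pow_zero, one_mul, sum_const, nsmul_eq_mul] at h1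
    have h2 : δ * (M * V) ≤ 1 * (M * V) := mul_le_mul_of_nonneg_right hδ1 hMV
    linarith
  have e0 : ∑ n ∈ Sf Z M y {j}, wj P c Z j n = ∑ D ∈ P.powerset, c D * ∑ n ∈ Sf Z M y {j}, ind Z j D n := by
    simp only [wj_eq]
    rw [sum_comm]
    apply sum_congr rfl
    intro D _
    rw [mul_sum]
  have hterm : ∀ D ∈ P.powerset, M * V * (c D * hh j D) - (a1 * (δ * (M * V * hh j D)) +
      a1 * (2 ^ m * √(x : ℝ)) * (if ∏ p ∈ D, p ≤ L then 1 else 0)) ≤ c D * ∑ n ∈ Sf Z M y {j}, ind Z j D n := by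
    intro D hD
    rw [mem_powerset] at hD
    have h0 := hh_nonneg j D
    have hi2 : (0 : ℝ) ≤ (if ∏ p ∈ D, p ≤ L then 1 else 0) := by split_ifs <;> norm_num
    by_cases hcD : c D = 0
    · rw [hcD, zero_mul, zero_mul, mul_zero, zero_sub, neg_nonpos]
      positivity
    · obtain ⟨m1, m2⟩ := hcL D hD hcD
      rw [if_pos m2, mul_one]
      have k1 := key D (fun p hp => hP p (hD hp))
      have k2 : |c D * (∑ n ∈ Sf Z M y {j}, ind Z j D n - M * V * hh j D)| ≤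
          a1 * (δ * (M * V * hh j D) + 2 ^ m * √(x : ℝ)) := by
        rw [abs_mul]
        apply mul_le_mul (hc D) _ (abs_nonneg _) ha1
        refine k1.trans (add_le_add le_rfl ?_)
        apply mul_le_mul_of_nonneg_right _ hs0
        exact pow_le_pow_right₀ (by norm_num) m1
      have k3 := (abs_le.1 k2).1
      linarith
  have hsum := sum_le_sum hterm
  rw [← e0] at hsum
  refine le_trans ?_ hsum
  have s3 : ∑ D ∈ P.powerset, (if ∏ p ∈ D, p ≤ L then (1 : ℝ) else 0) ≤ L := by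
    rw [← sum_filter, sum_const, nsmul_eq_mul, mul_one]
    exact card_small P (fun p hp => (hP p hp).1) L
  have e1 : ∑ D ∈ P.powerset, (M * V * (c D * hh j D) - (a1 * (δ * (M * V * hh j D)) +
      a1 * (2 ^ m * √(x : ℝ)) * (if ∏ p ∈ D, p ≤ L then 1 else 0))) =
      M * V * vj P c j - (a1 * δ * Pi' P j * (M * V) + a1 * (2 ^ m * √(x : ℝ)) *
        ∑ D ∈ P.powerset, (if ∏ p ∈ D, p ≤ L then (1 : ℝ) else 0)) := by
    rw [sum_sub_distrib, sum_add_distrib, ← mul_sum, ← mul_sum, ← mul_sum, ← mul_sum, ← mul_sum, sum_hh]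
    have h2 : vj P c j = ∑ D ∈ P.powerset, c D * hh j D := rfl
    rw [h2]
    ring
  rw [e1]
  have h1 : a1 * δ * Pi' P j ≤ G0 / 2 := by
    refine le_trans ?_ hsmall
    exact mul_le_mul_of_nonneg_left hPb (by positivity)
  have h2 : a1 * δ * Pi' P j * (M * V) ≤ G0 / 2 * (M * V) := mul_le_mul_of_nonneg_right h1 hMV
  have h3 : G0 * (M * V) ≤ vj P c j * (M * V) := mul_le_mul_of_nonneg_right hG hMV
  have h4 : a1 * (2 ^ m * √(x : ℝ)) * ∑ D ∈ P.powerset, (if ∏ p ∈ D, p ≤ L then (1 : ℝ) else 0) ≤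
      a1 * (2 ^ m * √(x : ℝ)) * L := mul_le_mul_of_nonneg_left s3 (by positivity)
  have h5 : G0 / 4 * (Sf Z M y {j}).card ≤ G0 / 4 * (2 * (M * V) + √(x : ℝ)) :=
    mul_le_mul_of_nonneg_left hcard (by positivity)
  have h6 : 0 ≤ G0 * √(x : ℝ) := by positivity
  linarith

/-- **The first moment.** -/
theorem M1 : ∃ C x0 : ℕ, 1 ≤ C ∧ ∀ b : ℕ, C ≤ b → ∀ x y : ℕ, x0 ≤ y → 1 ≤ y → y ^ (C * b) ≤ x →
    ∀ (Z M T : ℕ) (P : Finset ℕ) (c : Finset ℕ → ℝ) (a1 : ℝ) (m L : ℕ) (Pb G0 : ℝ),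
      (∀ p ∈ P, p.Prime ∧ y < p) → (∀ D, |c D| ≤ a1) → (∀ D ⊆ P, c D ≠ 0 → D.card ≤ m ∧ ∏ p ∈ D, p ≤ L) →
      (∀ j ∈ Icc 1 T, Pi' P j ≤ Pb) → (∀ j ∈ Icc 1 T, G0 ≤ vj P c j) → 0 ≤ G0 → a1 * (1 / 2 : ℝ) ^ b * Pb ≤ G0 / 2 →
      G0 / 4 * ∑ n ∈ Icc 1 M, (Ns y T (n + Z) : ℝ) - T * (G0 * √(x : ℝ) + a1 * (2 ^ m * √(x : ℝ)) * L) ≤
        ∑ n ∈ Icc 1 M, ∑ j ∈ Icc 1 T, ok Z y j n * wj P c Z j n := by
  classical
  obtain ⟨C, x0, hC, H⟩ := E1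
  refine ⟨C, x0, hC, ?_⟩
  intro b hb x y hy hy1 hyx Z M T P c a1 m L Pb G0 hP hc hcL hPb hG hG0 hsmall
  have hjj : ∀ j : ℕ, ({j, j} : Finset ℕ) = {j} := by simp
  have hSf : ∀ (j : ℕ) (f : ℕ → ℝ), ∑ n ∈ Sf Z M y {j}, f n = ∑ n ∈ Icc 1 M, ok Z y j n * f n := by
    intro j f
    have h := Sf_sum Z M y j j f
    rw [hjj] at h
    rw [h]
    apply sum_congr rfl
    intro n _
    rw [ok_sq]
  have hcd : ∀ j : ℕ, ((Sf Z M y {j}).card : ℝ) = ∑ n ∈ Icc 1 M, ok Z y j n := by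
    intro j
    have h := hSf j (fun _ => 1)
    rw [sum_const, nsmul_eq_mul, mul_one] at h
    rw [h]
    apply sum_congr rfl
    intro n _
    rw [mul_one]
  have h1 : ∀ j ∈ Icc 1 T, G0 / 4 * (Sf Z M y {j}).card - (G0 * √(x : ℝ) + a1 * (2 ^ m * √(x : ℝ)) * L) ≤
      ∑ n ∈ Icc 1 M, ok Z y j n * wj P c Z j n := by
    intro j hj
    rw [← hSf]
    exact H b hb x y hy hy1 hyx Z M j P c a1 m L Pb G0 hP hc hcL (hPb j hj) (hG j hj) hG0 hsmall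
  have h2 := sum_le_sum h1
  rw [sum_comm] at h2
  refine le_trans (le_of_eq ?_) h2
  rw [sum_sub_distrib, ← mul_sum, sum_const, nsmul_eq_mul, Nat.card_Icc, Nat.add_sub_cancel]
  congr 2
  simp only [hcd]
  rw [sum_comm]
  apply sum_congr rfl
  intro n _
  rw [sum_ok]

/-- the first two moments of the numbers of the sifted integers, for all lengths -/
theorem moments2 : ∃ K0 y0 T0 : ℕ, ∀ Z M y T : ℕ, y0 ≤ y → y ^ K0 ≤ M → T0 ≤ T →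
    M * (T * V1 y) / 2 - T * √(M : ℝ) ≤ ∑ n ∈ Icc 1 M, (Ns y T (n + Z) : ℝ) ∧
    ∑ n ∈ Icc 1 M, (Ns y T (n + Z) : ℝ) ^ 2 ≤ 2 * (M * (T * V1 y) ^ 2) + 2 * (M * (T * V1 y)) + 3 * T ^ 2 * √(M : ℝ) := by
  obtain ⟨Ka, ya, Ta, ha⟩ := Pool.Agent.Y862.SQ.t_MOM 0 (1 / 2) (by norm_num)
  obtain ⟨Kb, yb, Tb, hb⟩ := Pool.Agent.Y862.SQ.t_MOM 1 1 one_pos
  refine ⟨max Ka Kb, max (max ya yb) 1, max (max Ta Tb) 1, ?_⟩
  intro Z M y T hy hyM hT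
  have hy1 : 1 ≤ y := (le_max_right _ _).trans hy
  have hT1 : 1 ≤ T := (le_max_right _ _).trans hT
  have h1 := ha Z M y T (((le_max_left _ _).trans (le_max_left _ _)).trans hy)
    ((Nat.pow_le_pow_right hy1 (le_max_left _ _)).trans hyM) (((le_max_left _ _).trans (le_max_left _ _)).trans hT)
  have h2 := hb Z M y T (((le_max_right _ _).trans (le_max_left _ _)).trans hy)
    ((Nat.pow_le_pow_right hy1 (le_max_right _ _)).trans hyM) (((le_max_right _ _).trans (le_max_left _ _)).trans hT)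
  obtain ⟨μ, hμd⟩ : ∃ μ : ℝ, μ = T * V1 y := ⟨_, rfl⟩
  rw [← hμd] at h1 h2 ⊢
  have hM0 : (0 : ℝ) ≤ M := Nat.cast_nonneg _
  have hTr : (1 : ℝ) ≤ T := by exact_mod_cast hT1
  have hμ0 : 0 ≤ μ := by
    rw [hμd]
    exact mul_nonneg (Nat.cast_nonneg _) (Pool.Agent.Y862.SQ.V1_nonneg y)
  have hsq0 : 0 ≤ √(M : ℝ) := Real.sqrt_nonneg _
  have e1 : ∑ n ∈ Ioc Z (Z + M), ((Ns y T n).choose (0 + 1) : ℝ) = ∑ n ∈ Icc 1 M, (Ns y T (n + Z) : ℝ) := by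
    rw [sum_shift]
    apply sum_congr rfl
    intro n _
    rw [zero_add, Nat.choose_one_right]
  have e2 : ∑ n ∈ Ioc Z (Z + M), ((Ns y T n).choose (1 + 1) : ℝ) =
      ∑ n ∈ Icc 1 M, ((Ns y T (n + Z)).choose 2 : ℝ) := sum_shift (fun n => ((Ns y T n).choose 2 : ℝ)) Z M
  rw [e1] at h1
  rw [e2] at h2
  have k1 := (abs_le.1 h1)
  have k2 := (abs_le.1 h2).2
  norm_num at k1 k2
  have e3 : ∑ n ∈ Icc 1 M, (Ns y T (n + Z) : ℝ) ^ 2 = 2 * ∑ n ∈ Icc 1 M, ((Ns y T (n + Z)).choose 2 : ℝ) +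
      ∑ n ∈ Icc 1 M, (Ns y T (n + Z) : ℝ) := by
    rw [mul_sum, ← sum_add_distrib]
    apply sum_congr rfl
    intro n _
    exact Pool.Agent.Y862.SQ.two_choose _
  have hTT : (T : ℝ) * √(M : ℝ) ≤ T ^ 2 * √(M : ℝ) := by
    apply mul_le_mul_of_nonneg_right _ hsq0
    exact le_self_pow₀ hTr two_ne_zero
  have hMμ : 0 ≤ M * μ := by positivity
  refine ⟨by linarith [k1.1], ?_⟩
  rw [e3]
  linarith [k1.2]

end Pool.Agent.H37SQ
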