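import Pool.Agent.H37SQ.First
import Pool.Agent.H37SQ.Main

/-!
# Almost primes just above a positive proportion of the squares: assembly
-/

set_option autoImplicit false

namespace Pool.Agent.H37SQ

open Finset Filter Pool.Agent.H373R2.T7 Pool.Agent.Y486.SQ Pool.Agent.Y882 Pool.Agent.W23.DC Pool.Agent.Y882.KW
open Pool.Agent.Y862.SQ (rH leg z2 Ns V1)
open Pool.Agent.T6.H57 (Lam lev_of)

open Classical in
/-- the almost primes are sifted integers -/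
lemma cn_le_Ns (r : ℕ) (w : ℝ) (y T m : ℕ) (hw : (y : ℝ) < w) : cn r w T m ≤ Ns y T m := by
  unfold cn Ns
  apply card_le_card
  intro j hj
  rw [mem_filter] at hj ⊢
  refine ⟨hj.1, fun p hp hd => ?_⟩
  unfold Pool.Agent.Y862.SQ.pr at hp
  rw [mem_filter, mem_Icc] at hp
  have h1 := hj.2.2 p hp.2 hd
  have h2 : (p : ℝ) ≤ y := by exact_mod_cast hp.1.2
  linarith

/-- many large values from the first two moments -/
lemma many (M : ℕ) (f : ℕ → ℝ) (s q t : ℝ) (hq : 0 < q)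
    (hs : 0 ≤ s) (ht : 0 ≤ t) (h1 : s + M * t ≤ ∑ n ∈ Icc 1 M, f n) (h2 : ∑ n ∈ Icc 1 M, f n ^ 2 ≤ q) :
    s ^ 2 / q ≤ (((Icc 1 M).filter (fun n => 0 < f n ∧ t ≤ f n)).card : ℝ) := by
  classical
  set A := (Icc 1 M).filter (fun n => 0 < f n ∧ t ≤ f n) with hA
  have h3 : ∑ n ∈ Icc 1 M, f n ≤ ∑ n ∈ A, f n + M * t := by
    have e := sum_filter_add_sum_filter_not (Icc 1 M) (fun n => 0 < f n ∧ t ≤ f n) f
    rw [← hA] at e
    rw [← e]
    apply add_le_add le_rfl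
    calc ∑ n ∈ (Icc 1 M).filter (fun n => ¬ (0 < f n ∧ t ≤ f n)), f n ≤
        ∑ _n ∈ (Icc 1 M).filter (fun n => ¬ (0 < f n ∧ t ≤ f n)), t := by
          apply sum_le_sum
          intro n hn
          have h := (mem_filter.1 hn).2
          by_cases h0 : 0 < f n
          · push Not at h
            exact (h h0).le
          · linarith [not_lt.1 h0]
      _ ≤ ∑ _n ∈ Icc 1 M, t := sum_le_sum_of_subset_of_nonneg (filter_subset _ _) fun _ _ _ => ht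
      _ = M * t := by rw [sum_const, nsmul_eq_mul, Nat.card_Icc, Nat.add_sub_cancel]
  have h4 : s ≤ ∑ n ∈ A, f n := by linarith
  have h5 : (∑ n ∈ A, f n) ^ 2 ≤ A.card * ∑ n ∈ A, f n ^ 2 := sq_sum_le_card_mul_sum_sq
  have h6 : ∑ n ∈ A, f n ^ 2 ≤ q :=
    (sum_le_sum_of_subset_of_nonneg (filter_subset _ _) fun _ _ _ => sq_nonneg _).trans h2
  rw [div_le_iff₀ hq]
  calc s ^ 2 ≤ (∑ n ∈ A, f n) ^ 2 := pow_le_pow_left₀ hs h4 2
    _ ≤ A.card * ∑ n ∈ A, f n ^ 2 := h5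
    _ ≤ A.card * q := mul_le_mul_of_nonneg_left h6 (Nat.cast_nonneg _)

open Classical in
/-- **Almost primes just above a positive proportion of the squares.** -/
theorem main3 (r : ℕ) (hr : 1 ≤ r) (θ : ℝ) (hθ : 0 < θ) (hθ1 : θ ≤ 1) (hL : 2 < θ * Lam r) :
    ∃ c δ : ℝ, 0 < c ∧ 0 < δ ∧ ∃ T₀ X₀ : ℕ, ∀ X : ℕ, X₀ ≤ X →
      ∀ Z M T : ℕ, (X : ℝ) ^ θ ≤ M → Z + M ≤ 2 * X → T₀ ≤ T → (T : ℝ) ≤ Real.log X ^ 49 →
        c * M * (T / (T + Real.log X)) ≤ (((Ioc Z (Z + M)).filter (fun n => 1 ≤ cn r ((X : ℝ) ^ δ) T n ∧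
          c * T / Real.log X ≤ (cn r ((X : ℝ) ^ δ) T n : ℝ))).card : ℝ) := by
  -- parameters of the weighted sieve
  set Λ : ℝ := Lam r with hΛ
  have hΛ0 : 0 < Λ := by
    by_contra h
    push Not at h
    have := mul_nonpos_of_nonneg_of_nonpos hθ.le h
    linarith
  set τ : ℝ := (1 / Λ + θ / 2) / 2 with hτd
  have hθΛ : 1 / Λ < θ / 2 := by
    rw [div_lt_iff₀ hΛ0]
    linarith
  have hinv : 0 < 1 / Λ := by positivity
  have hτ0 : 0 < τ := by rw [hτd]; linarith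
  have hτθ : τ < θ / 2 := by rw [hτd]; linarith
  have hτL : 1 < τ * Λ := by
    have h1 : 1 / Λ < τ := by rw [hτd]; linarith
    rw [div_lt_iff₀ hΛ0] at h1
    exact h1
  obtain ⟨υ, lam, S, hυ1, hυτ, hlam, hS, hJ, hrr⟩ := lev_of r hr τ hτ0 hτL
  set ζ : ℝ := τ / 4 with hζ
  have hζ0 : 0 < ζ := by rw [hζ]; linarith
  have hυ0 : 0 < υ := hζ0.trans_le hυ1
  have hυ1' : υ ≤ 1 := by linarith
  obtain ⟨f0, F0, hf0, hF0, HL⟩ := lsw4 τ ζ υ lam (lam / υ) hζ0 (by rw [hζ]; linarith) (by rw [hζ]; linarith)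
    (by linarith) hυ1 hυτ hlam.le (by positivity) (by rw [div_mul_cancel₀ _ hυ0.ne']) hJ
  set a1 : ℝ := 1 + lam with ha1
  have ha10 : 0 < a1 := by rw [ha1]; linarith
  obtain ⟨C, x0, hC, HM1⟩ := M1
  obtain ⟨c1, C1, hc1, hC1, hV⟩ := Pool.Agent.Y810.SQ.V1_bounds
  obtain ⟨K0, y0, T0, Hmom⟩ := moments2
  set σ : ℝ := (θ - 2 * τ) / 2 with hσ
  have hσ0 : 0 < σ := by rw [hσ]; linarith
  set κ0 : ℝ := f0 / (6 * a1) with hκ0
  have hκ00 : 0 < κ0 := by positivity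
  set e0 : ℝ := min (min ζ (τ - υ)) (θ / 2 / (K0 + 1)) with he0
  have he00 : 0 < e0 := by
    apply lt_min (lt_min hζ0 (by linarith))
    positivity
  obtain ⟨b, hbC, hb1, hbe, hbκ⟩ := pick_b C σ e0 κ0 hC hσ0 he00 hκ00
  have hC0 : (0 : ℝ) < C := by exact_mod_cast hC
  have hb0 : (0 : ℝ) < b := by exact_mod_cast hb1
  set ε₁ : ℝ := σ / (C * b) with hε₁d
  have hε₁ : 0 < ε₁ := by positivity
  have hε₁ζ : ε₁ ≤ ζ := hbe.trans ((min_le_left _ _).trans (min_le_left _ _))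
  have hε₁τ : ε₁ ≤ τ - υ := hbe.trans ((min_le_left _ _).trans (min_le_right _ _))
  have hε₁K : ε₁ * K0 ≤ θ / 2 := by
    have h1 : ε₁ ≤ θ / 2 / (K0 + 1) := hbe.trans (min_le_right _ _)
    rw [le_div_iff₀ (by positivity)] at h1
    linarith
  have hε₁1 : ε₁ ≤ 1 := by linarith
  have hε₁Cb : ε₁ * (C * b) = σ := by rw [hε₁d]; field_simp
  obtain ⟨η, hη, HL2⟩ := HL ε₁ hε₁ hε₁ζ hε₁τ
  set m : ℕ := ⌈S / ε₁⌉₊ with hm
  have hmS : S / ε₁ ≤ m := Nat.le_ceil _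
  have hmτ : τ / ε₁ ≤ m := by
    refine le_trans ?_ hmS
    apply div_le_div_of_nonneg_right _ hε₁.le
    linarith
  set G0 : ℝ := ε₁ * f0 with hG0
  have hG00 : 0 < G0 := by positivity
  set Pb : ℝ := 3 / ε₁ with hPb
  have hPb0 : 0 < Pb := by positivity
  have hsmall : a1 * (1 / 2 : ℝ) ^ b * Pb ≤ G0 / 2 := by
    have h1 : (1 / 2 : ℝ) ^ b ≤ κ0 * ε₁ ^ 2 := by
      refine hbκ.trans (mul_le_mul_of_nonneg_left ?_ hκ00.le)
      exact pow_le_pow_of_le_one hε₁.le hε₁1 (by norm_num)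
    calc a1 * (1 / 2 : ℝ) ^ b * Pb ≤ a1 * (κ0 * ε₁ ^ 2) * Pb := by gcongr
      _ = G0 / 2 := by
          rw [hκ0, hPb, hG0]
          field_simp
          norm_num
  set B : ℝ := a1 * 2 ^ m with hB
  have hB0 : 0 < B := by positivity
  set κ : ℝ := c1 / (2 * ε₁) with hκ
  have hκp : 0 < κ := by positivity
  refine ⟨min (G0 / 32 * κ) (G0 ^ 2 / 3072 * min κ 1), 2 * ζ, ?_, by linarith, ?_⟩
  · apply lt_min (by positivity)
    have : 0 < min κ 1 := lt_min hκp one_pos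
    positivity
  obtain ⟨Yr, HR⟩ := reg ε₁ υ (min η 1) hε₁ hυ1' (lt_min hη one_pos)
  -- the conditions on `X`
  have hlogt : Tendsto (fun X : ℕ => Real.log X) atTop atTop :=
    Real.tendsto_log_atTop.comp tendsto_natCast_atTop_atTop
  have ev2 : ∀ᶠ X : ℕ in atTop, (x0 : ℝ) + y0 + 3 ≤ (X : ℝ) ^ (2 * ε₁) :=
    ((tendsto_rpow_atTop (by linarith)).comp tendsto_natCast_atTop_atTop).eventually_ge_atTop _
  have ev6 : ∀ᶠ X : ℕ in atTop, (5 : ℝ) ≤ (X : ℝ) ^ (2 * S - 2) :=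
    ((tendsto_rpow_atTop (by linarith)).comp tendsto_natCast_atTop_atTop).eventually_ge_atTop _
  have ev7 := ev_log 49 3 (2 * ζ) (by norm_num) (by linarith)
  have ev8 := ev_log 2 (3 / κ ^ 2) (θ / 2) (by positivity) (by linarith)
  have ev9 := ev_log 1 (24 / κ) (θ / 2) (by positivity) (by linarith)
  have ev10 := ev_log 1 (96 / κ) (θ - σ) (by positivity) (by linarith)
  have ev11 := ev_log 1 (a1 * 2 ^ m * (96 / (G0 * κ))) σ (by positivity) hσ0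
  have ev12 := ev_log 50 (B * 4 * (64 / (G0 * κ))) (2 * ζ) (by positivity) (by linarith)
  have ev13 := ev_log 50 (B * 2 * (64 / (G0 * κ))) (θ - 2 * υ) (by positivity) (by linarith)
  obtain ⟨X1, hX1⟩ := eventually_atTop.1 (((ev2.and ev6).and (ev7.and ev8)).and
    ((ev9.and (ev10.and (ev11.and ev12))).and (ev13.and ((eventually_ge_atTop 3).and
      (eventually_ge_atTop Yr)))))
  refine ⟨max T0 1, X1, fun X hX Z M T hM hZM hTT hTX => ?_⟩
  obtain ⟨⟨⟨v2, v6⟩, v7, v8⟩, ⟨v9, v10, v11, v12⟩, v13, vX3, vXr⟩ := hX1 X hX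
  have hTT0 : T0 ≤ T := (le_max_left _ _).trans hTT
  have hT1 : 1 ≤ T := (le_max_right _ _).trans hTT
  have hXr : (3 : ℝ) ≤ X := by exact_mod_cast vX3
  have hX0 : (0 : ℝ) < X := by linarith
  have hX1r : (1 : ℝ) ≤ X := by linarith
  set l : ℝ := Real.log X with hl
  have hl1 : 1 ≤ l := by
    rw [hl, ← Real.log_exp 1]
    apply Real.log_le_log (Real.exp_pos _)
    linarith [Real.exp_one_lt_d9]
  have hl0 : 0 < l := by linarith
  rw [pow_one] at v9 v10 v11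
  -- the scale
  set Y : ℕ := X ^ 2 with hY
  have hYp : ∀ s : ℝ, (Y : ℝ) ^ s = (X : ℝ) ^ (2 * s) := by
    intro s
    rw [hY]
    push_cast
    rw [← Real.rpow_natCast, ← Real.rpow_mul hX0.le]
    norm_num
  have hYX : X ≤ Y := by rw [hY]; exact Nat.le_self_pow (by norm_num) X
  have hY2 : 2 ≤ Y := by omega
  have hYr2 : (2 : ℝ) ≤ Y := by exact_mod_cast hY2
  have hY0 : (0 : ℝ) < Y := by linarith
  have hlY : Real.log Y = 2 * l := by
    rw [hY, hl]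
    push_cast
    rw [Real.log_pow]
    norm_num
  -- the sifting limit
  set y : ℕ := ⌈(Y : ℝ) ^ ε₁⌉₊ - 1 with hy
  have hceil : 0 < ⌈(Y : ℝ) ^ ε₁⌉₊ := Nat.ceil_pos.2 (by positivity)
  have hycast : (y : ℝ) = (⌈(Y : ℝ) ^ ε₁⌉₊ : ℝ) - 1 := by
    rw [hy, Nat.cast_sub (by omega)]
    norm_num
  have hylt : (y : ℝ) < (Y : ℝ) ^ ε₁ := by
    rw [hycast]
    have := Nat.ceil_lt_add_one (show 0 ≤ (Y : ℝ) ^ ε₁ by positivity)
    linarith
  have hyge : (X : ℝ) ^ (2 * ε₁) - 1 ≤ y := by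
    rw [hycast, ← hYp]
    have := Nat.le_ceil ((Y : ℝ) ^ ε₁)
    linarith
  have hq1 : (0 : ℝ) ≤ x0 := Nat.cast_nonneg _
  have hq2 : (0 : ℝ) ≤ y0 := Nat.cast_nonneg _
  have hy2r : (2 : ℝ) ≤ y := by linarith
  have hy2 : 2 ≤ y := by exact_mod_cast hy2r
  have hyx0 : x0 ≤ y := by
    have : (x0 : ℝ) ≤ y := by linarith
    exact_mod_cast this
  have hyy0 : y0 ≤ y := by
    have : (y0 : ℝ) ≤ y := by linarith
    exact_mod_cast this
  have hy0 : (0 : ℝ) < y := by linarith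
  have hypow : ∀ k : ℕ, (y : ℝ) ^ k ≤ (X : ℝ) ^ (2 * (ε₁ * k)) := by
    intro k
    calc (y : ℝ) ^ k ≤ ((Y : ℝ) ^ ε₁) ^ k := pow_le_pow_left₀ hy0.le hylt.le k
      _ = (Y : ℝ) ^ (ε₁ * k) := by rw [← Real.rpow_natCast, ← Real.rpow_mul hY0.le]
      _ = _ := hYp _
  have hmonoX : ∀ s t : ℝ, s ≤ t → (X : ℝ) ^ s ≤ (X : ℝ) ^ t := fun s t h =>
    Real.rpow_le_rpow_of_exponent_le hX1r h
  have hyK0 : y ^ K0 ≤ M := by
    have h1 : ((y ^ K0 : ℕ) : ℝ) ≤ M := by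
      push_cast
      exact (hypow K0).trans ((hmonoX _ _ (by linarith)).trans hM)
    exact_mod_cast h1
  set x : ℕ := ⌊(X : ℝ) ^ (2 * σ)⌋₊ with hx
  have hyCb : y ^ (C * b) ≤ x := by
    apply Nat.le_floor
    push_cast
    refine (hypow (C * b)).trans (le_of_eq ?_)
    congr 1
    push_cast
    rw [hε₁Cb]
  have hsx : √(x : ℝ) ≤ (X : ℝ) ^ σ := by
    rw [Real.sqrt_le_left (by positivity)]
    have h1 : (x : ℝ) ≤ (X : ℝ) ^ (2 * σ) := Nat.floor_le (by positivity)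
    have h2 : ((X : ℝ) ^ σ) ^ 2 = (X : ℝ) ^ (2 * σ) := by
      rw [← Real.rpow_natCast, ← Real.rpow_mul hX0.le]
      congr 1
      push_cast
      ring
    rw [h2]
    exact h1
  -- the sizes of `T` and `M`
  have hT1r : (1 : ℝ) ≤ T := by exact_mod_cast hT1
  have hT0r : (0 : ℝ) < T := by linarith
  have hM0 : (0 : ℝ) < M := lt_of_lt_of_le (by positivity) hM
  -- the expected number
  set V : ℝ := V1 y with hVd
  set μ : ℝ := T * V with hμ
  have hlogy : Real.log y ≤ 2 * ε₁ * l := by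
    have h1 : Real.log y ≤ Real.log ((Y : ℝ) ^ ε₁) := Real.log_le_log hy0 hylt.le
    rw [Real.log_rpow hY0, hlY] at h1
    linarith
  have hlogy0 : 0 < Real.log y := Real.log_pos (by linarith)
  have hVy : κ / l ≤ V := by
    have h1 : c1 / (2 * ε₁ * l) ≤ V :=
      (div_le_div_of_nonneg_left hc1.le hlogy0 hlogy).trans (hV y hy2).1
    rw [hκ, div_div]
    exact h1
  have hV0 : 0 < V := lt_of_lt_of_le (by positivity) hVy
  have hμ0 : 0 < μ := by positivity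
  have hμge : κ * T / l ≤ μ := by
    have := mul_le_mul_of_nonneg_left hVy hT0r.le
    calc κ * T / l = T * (κ / l) := by ring
      _ ≤ μ := this
  -- the weights
  obtain ⟨cU, cL, hcb, hcsup, hcWB, hcval⟩ := HL2 Y hY2
  have hreg : ∀ j ∈ Icc 1 T, Mer (pr Y ε₁ υ) (tt Y) (fun p => (rH {j} p : ℝ) / p) ε₁ υ (min η 1) := by
    intro j hj
    rw [mem_Icc] at hj
    apply HR Y (vXr.trans hYX) j hj.1
    have h1 : (j : ℝ) ≤ T := by exact_mod_cast hj.2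
    calc (j : ℝ) ≤ T := h1
      _ ≤ l ^ 49 := hTX
      _ ≤ (Real.log Y) ^ 49 := pow_le_pow_left₀ hl0.le (by rw [hlY]; linarith) 49
      _ ≤ (Real.log Y) ^ 50 := pow_le_pow_right₀ (by rw [hlY]; linarith) (by norm_num)
  have hvlow : ∀ j ∈ Icc 1 T, G0 ≤ vj (pr Y ε₁ υ) cL j := by
    intro j hj
    have h1 : Mer (pr Y ε₁ υ) (tt Y) (fun p => (rH {j} p : ℝ) / p) ε₁ υ η :=
      fun a b ha hab hb => (hreg j hj a b ha hab hb).trans (min_le_left _ _)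
    exact (hcval _ (fun p _ => by positivity) h1).1
  have hPi : ∀ j ∈ Icc 1 T, Pi' (pr Y ε₁ υ) j ≤ Pb := fun j hj =>
    Pi'_le Y ε₁ υ (min η 1) j hε₁ (hε₁ζ.trans hυ1) hυ1' (min_le_right _ _) (hreg j hj)
  have hclabs : ∀ D, |cL D| ≤ a1 := fun D => (hcb D).2
  have hTX2 : T ≤ X ^ 2 := by
    have h1 : (T : ℝ) ≤ (X : ℝ) ^ (2 * ζ) := by
      have h2 : (0 : ℝ) ≤ l ^ 49 := by positivity
      linarith
    have h2 : (X : ℝ) ^ (2 * ζ) ≤ (X : ℝ) ^ (2 : ℝ) := hmonoX _ _ (by rw [hζ]; linarith)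
    have h3 : (T : ℝ) ≤ ((X ^ 2 : ℕ) : ℝ) := by
      push_cast
      rw [← Real.rpow_natCast]
      push_cast
      exact h1.trans h2
    exact_mod_cast h3
  have hNle : ∀ n ∈ Icc 1 M, ∀ j ∈ Icc 1 T, (((n + Z) ^ 2 + j : ℕ) : ℝ) ≤ (Y : ℝ) ^ S := by
    intro n hn j hj
    rw [mem_Icc] at hn hj
    have h1 : n + Z ≤ 2 * X := by omega
    have h2 : j ≤ X ^ 2 := hj.2.trans hTX2
    have h3 : (n + Z) ^ 2 + j ≤ 5 * X ^ 2 := by
      have := Nat.pow_le_pow_left h1 2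
      have e : (2 * X) ^ 2 = 4 * X ^ 2 := by ring
      omega
    have h4 : (((n + Z) ^ 2 + j : ℕ) : ℝ) ≤ 5 * (X : ℝ) ^ 2 := by exact_mod_cast h3
    refine h4.trans ?_
    rw [hYp]
    calc 5 * (X : ℝ) ^ 2 ≤ (X : ℝ) ^ (2 * S - 2) * (X : ℝ) ^ 2 := mul_le_mul_of_nonneg_right v6 (by positivity)
      _ = (X : ℝ) ^ (2 * S) := by
          rw [← Real.rpow_natCast, ← Real.rpow_add hX0]
          congr 1
          push_cast
          ring
  have hw : ∀ j ∈ Icc 1 T, ∀ n ∈ Icc 1 M, |wj (pr Y ε₁ υ) cL Z j n| ≤ B := by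
    intro j hj n hn
    have hj1 := (mem_Icc.1 hj).1
    exact wj_le Y hY2 ε₁ υ S hε₁ cL a1 hclabs m hmS Z j n (by omega) (hNle n hn j hj)
  have hPp : ∀ p ∈ pr Y ε₁ υ, p.Prime ∧ y < p := by
    intro p hp
    obtain ⟨h1, h2, _⟩ := Pool.Agent.Y882.PX.pr_mem Y p ε₁ υ hY2 hp
    refine ⟨h1, ?_⟩
    have : (y : ℝ) < p := hylt.trans_le h2
    exact_mod_cast this
  set L : ℕ := ⌊(X : ℝ) ^ (2 * τ)⌋₊ with hLd
  have hcLm : ∀ D ⊆ pr Y ε₁ υ, cL D ≠ 0 → D.card ≤ m ∧ ∏ p ∈ D, p ≤ L := by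
    intro D hD hne
    have h1 := hcsup D hD (Or.inr hne)
    refine ⟨?_, ?_⟩
    · apply few_large Y hY2 ε₁ τ hε₁ D _ m hmτ h1
      intro p hp
      exact (Pool.Agent.Y882.PX.pr_mem Y p ε₁ υ hY2 (hD hp)).2.1
    · apply Nat.le_floor
      rw [← hYp]
      exact h1
  have key := HM1 b hbC x y hyx0 (by omega) hyCb Z M T (pr Y ε₁ υ) cL a1 m L Pb G0 hPp hclabs hcLm hPi hvlow hG00.le hsmall
  obtain ⟨hN1, hN2⟩ := Hmom Z M y T hyy0 hyK0 hTT0
  rw [← hVd, ← hμ] at hN1 hN2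
  set W : ℕ → ℝ := fun n => ∑ j ∈ Icc 1 T, ok Z y j n * wj (pr Y ε₁ υ) cL Z j n with hWd
  -- the error terms
  have hMV : (M : ℝ) * κ / l ≤ M * V := by
    have := mul_le_mul_of_nonneg_left hVy hM0.le
    calc (M : ℝ) * κ / l = M * (κ / l) := by ring
      _ ≤ _ := this
  have hMμ : (M : ℝ) * μ = T * (M * V) := by rw [hμ]; ring
  have hsM : (X : ℝ) ^ (θ / 2) ≤ √(M : ℝ) := by
    apply Real.le_sqrt_of_sq_le
    have h2 : ((X : ℝ) ^ (θ / 2)) ^ 2 = (X : ℝ) ^ θ := by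
      rw [← Real.rpow_natCast, ← Real.rpow_mul hX0.le]
      congr 1
      push_cast
      ring
    rw [h2]
    exact hM
  have hsM0 : 0 < √(M : ℝ) := Real.sqrt_pos.2 hM0
  have hsMM : √(M : ℝ) * √(M : ℝ) = M := Real.mul_self_sqrt hM0.le
  have r1 : √(M : ℝ) ≤ M * V / 24 := by
    have h1 : 24 / κ * l ≤ √(M : ℝ) := v9.trans hsM
    have h2 : 24 * l ≤ κ * √(M : ℝ) := by
      have := mul_le_mul_of_nonneg_left h1 hκp.le
      have e : κ * (24 / κ * l) = 24 * l := by field_simp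
      rwa [e] at this
    have h3 : √(M : ℝ) * (24 * l) ≤ √(M : ℝ) * (κ * √(M : ℝ)) := mul_le_mul_of_nonneg_left h2 hsM0.le
    have h4 : √(M : ℝ) * (κ * √(M : ℝ)) = κ * M := by
      calc √(M : ℝ) * (κ * √(M : ℝ)) = κ * (√(M : ℝ) * √(M : ℝ)) := by ring
        _ = _ := by rw [hsMM]
    have h5 : √(M : ℝ) ≤ (M : ℝ) * κ / l / 24 := by
      rw [div_div, le_div_iff₀ (by positivity)]
      linarith
    linarith
  have hMX : (X : ℝ) ^ σ * (X : ℝ) ^ (2 * τ) * (X : ℝ) ^ σ ≤ M := by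
    rw [← Real.rpow_add hX0, ← Real.rpow_add hX0]
    refine le_trans (le_of_eq ?_) hM
    congr 1
    rw [hσ]
    ring
  have hXσ : (0 : ℝ) < (X : ℝ) ^ σ := by positivity
  have r2 : G0 * √(x : ℝ) ≤ G0 / 96 * (M * V) := by
    have h1 : (X : ℝ) ^ σ * (96 / κ * l) ≤ M := by
      calc (X : ℝ) ^ σ * (96 / κ * l) ≤ (X : ℝ) ^ σ * (X : ℝ) ^ (θ - σ) := mul_le_mul_of_nonneg_left v10 hXσ.le
        _ = (X : ℝ) ^ θ := by
            rw [← Real.rpow_add hX0]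
            congr 1
            ring
        _ ≤ M := hM
    have h2 : (X : ℝ) ^ σ ≤ (M : ℝ) * κ / l / 96 := by
      rw [div_div, le_div_iff₀ (by positivity)]
      have := mul_le_mul_of_nonneg_left h1 hκp.le
      have e : κ * ((X : ℝ) ^ σ * (96 / κ * l)) = (X : ℝ) ^ σ * (l * 96) := by field_simp
      rw [e] at this
      linarith
    have h3 : √(x : ℝ) ≤ M * V / 96 := by linarith
    have := mul_le_mul_of_nonneg_left h3 hG00.le
    linarith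
  have r3 : a1 * (2 ^ m * √(x : ℝ)) * L ≤ G0 / 96 * (M * V) := by
    have hLr : (L : ℝ) ≤ (X : ℝ) ^ (2 * τ) := Nat.floor_le (by positivity)
    have h1 : a1 * (2 ^ m * √(x : ℝ)) * L ≤ a1 * 2 ^ m * ((X : ℝ) ^ σ * (X : ℝ) ^ (2 * τ)) := by
      calc a1 * (2 ^ m * √(x : ℝ)) * L ≤ a1 * (2 ^ m * (X : ℝ) ^ σ) * (X : ℝ) ^ (2 * τ) := by gcongr
        _ = _ := by ring
    have h2 : a1 * 2 ^ m * (96 * l) ≤ G0 * κ * (X : ℝ) ^ σ := by
      have := mul_le_mul_of_nonneg_left v11 (show 0 ≤ G0 * κ by positivity)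
      have e : G0 * κ * (a1 * 2 ^ m * (96 / (G0 * κ)) * l) = a1 * 2 ^ m * (96 * l) := by field_simp
      rwa [e] at this
    have h3 : a1 * 2 ^ m * ((X : ℝ) ^ σ * (X : ℝ) ^ (2 * τ)) * (96 * l) ≤ G0 * κ * M := by
      calc a1 * 2 ^ m * ((X : ℝ) ^ σ * (X : ℝ) ^ (2 * τ)) * (96 * l) =
          (a1 * 2 ^ m * (96 * l)) * ((X : ℝ) ^ σ * (X : ℝ) ^ (2 * τ)) := by ring
        _ ≤ (G0 * κ * (X : ℝ) ^ σ) * ((X : ℝ) ^ σ * (X : ℝ) ^ (2 * τ)) := mul_le_mul_of_nonneg_right h2 (by positivity)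
        _ = G0 * κ * ((X : ℝ) ^ σ * (X : ℝ) ^ (2 * τ) * (X : ℝ) ^ σ) := by ring
        _ ≤ G0 * κ * M := mul_le_mul_of_nonneg_left hMX (by positivity)
    have h4 : a1 * 2 ^ m * ((X : ℝ) ^ σ * (X : ℝ) ^ (2 * τ)) ≤ G0 / 96 * ((M : ℝ) * κ / l) := by
      have e : G0 / 96 * ((M : ℝ) * κ / l) = G0 * κ * M / (96 * l) := by field_simp
      rw [e, le_div_iff₀ (by positivity)]
      exact h3
    have h5 := mul_le_mul_of_nonneg_left hMV (show 0 ≤ G0 / 96 by positivity)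
    linarith
  -- the bad `n`
  set Bd := (Icc 1 M).filter (fun n => ∃ j ∈ Icc 1 T, ∃ q ∈ pr Y ζ υ, q ^ 2 ∣ (n + Z) ^ 2 + j) with hBd
  have hE3 : (Bd.card : ℝ) ≤ T * (4 * M / (Y : ℝ) ^ ζ + 2 * (Y : ℝ) ^ υ) :=
    few_sq Y hY2 ζ υ Z M T (by rw [hYp]; nlinarith [one_le_pow₀ hl1 (n := 49)]) (by
      rw [hYp]
      have : 0 < l ^ 49 := by positivity
      linarith)
  have r4 : (Bd.card : ℝ) * (T * B) ≤ G0 / 32 * (M * μ) := by
    rw [hYp, hYp] at hE3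
    have hXζ : (0 : ℝ) < (X : ℝ) ^ (2 * ζ) := by positivity
    have hTl : (T : ℝ) * l ≤ l ^ 50 := by
      calc (T : ℝ) * l ≤ l ^ 49 * l := mul_le_mul_of_nonneg_right hTX hl0.le
        _ = l ^ 50 := by ring
    have k1 : T * B * (4 / (X : ℝ) ^ (2 * ζ)) ≤ G0 / 64 * (κ / l) := by
      have h1 : B * 4 * 64 * l ^ 50 ≤ G0 * κ * (X : ℝ) ^ (2 * ζ) := by
        have := mul_le_mul_of_nonneg_left v12 (show 0 ≤ G0 * κ by positivity)
        have e : G0 * κ * (B * 4 * (64 / (G0 * κ)) * l ^ 50) = B * 4 * 64 * l ^ 50 := by field_simp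
        rwa [e] at this
      have h2 : B * 4 * 64 * (T * l) ≤ G0 * κ * (X : ℝ) ^ (2 * ζ) :=
        (mul_le_mul_of_nonneg_left hTl (by positivity)).trans h1
      have e1 : T * B * (4 / (X : ℝ) ^ (2 * ζ)) = (T * B * 4) / (X : ℝ) ^ (2 * ζ) := by ring
      have e2 : G0 / 64 * (κ / l) = (G0 * κ) / (64 * l) := by field_simp
      rw [e1, e2, div_le_div_iff₀ hXζ (by positivity)]
      linarith
    have k2 : T * B * (2 * (X : ℝ) ^ (2 * υ)) ≤ G0 / 64 * (κ / l) * M := by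
      have h1 : B * 2 * 64 * l ^ 50 ≤ G0 * κ * (X : ℝ) ^ (θ - 2 * υ) := by
        have := mul_le_mul_of_nonneg_left v13 (show 0 ≤ G0 * κ by positivity)
        have e : G0 * κ * (B * 2 * (64 / (G0 * κ)) * l ^ 50) = B * 2 * 64 * l ^ 50 := by field_simp
        rwa [e] at this
      have h2 : B * 2 * 64 * (T * l) ≤ G0 * κ * (X : ℝ) ^ (θ - 2 * υ) :=
        (mul_le_mul_of_nonneg_left hTl (by positivity)).trans h1
      have h3 : B * 2 * 64 * (T * l) * (X : ℝ) ^ (2 * υ) ≤ G0 * κ * M := by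
        calc B * 2 * 64 * (T * l) * (X : ℝ) ^ (2 * υ) ≤ G0 * κ * (X : ℝ) ^ (θ - 2 * υ) * (X : ℝ) ^ (2 * υ) :=
              mul_le_mul_of_nonneg_right h2 (by positivity)
          _ = G0 * κ * (X : ℝ) ^ θ := by
              rw [mul_assoc, ← Real.rpow_add hX0]
              congr 2
              ring
          _ ≤ G0 * κ * M := mul_le_mul_of_nonneg_left hM (by positivity)
      have e2 : G0 / 64 * (κ / l) * M = (G0 * κ * M) / (64 * l) := by field_simp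
      rw [e2, le_div_iff₀ (by positivity)]
      linarith
    have k3 : T * B * (4 * M / (X : ℝ) ^ (2 * ζ) + 2 * (X : ℝ) ^ (2 * υ)) ≤ G0 / 32 * (κ / l) * M := by
      have := mul_le_mul_of_nonneg_right k1 hM0.le
      have e : T * B * (4 * M / (X : ℝ) ^ (2 * ζ) + 2 * (X : ℝ) ^ (2 * υ)) =
          T * B * (4 / (X : ℝ) ^ (2 * ζ)) * M + T * B * (2 * (X : ℝ) ^ (2 * υ)) := by ring
      rw [e]
      linarith
    calc (Bd.card : ℝ) * (T * B) ≤ T * (4 * M / (X : ℝ) ^ (2 * ζ) + 2 * (X : ℝ) ^ (2 * υ)) * (T * B) :=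
          mul_le_mul_of_nonneg_right hE3 (by positivity)
      _ = T * (T * B * (4 * M / (X : ℝ) ^ (2 * ζ) + 2 * (X : ℝ) ^ (2 * υ))) := by ring
      _ ≤ T * (G0 / 32 * (κ / l) * M) := mul_le_mul_of_nonneg_left k3 hT0r.le
      _ = G0 / 32 * (T * ((M : ℝ) * κ / l)) := by ring
      _ ≤ G0 / 32 * (M * μ) := by
          rw [hMμ]
          apply mul_le_mul_of_nonneg_left _ (by positivity)
          exact mul_le_mul_of_nonneg_left hMV hT0r.le
  -- the first moment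
  set f : ℕ → ℝ := fun n => (cn r ((X : ℝ) ^ (2 * ζ)) T (n + Z) : ℝ) with hf
  have hfnn : ∀ n, 0 ≤ f n := fun n => Nat.cast_nonneg _
  have hWB : ∀ n ∈ Icc 1 M, W n ≤ T * B := by
    intro n hn
    rw [hWd]
    simp only
    calc ∑ j ∈ Icc 1 T, ok Z y j n * wj (pr Y ε₁ υ) cL Z j n ≤ ∑ _j ∈ Icc 1 T, B := by
          apply sum_le_sum
          intro j hj
          have h1 := hw j hj n hn
          have h2 := (abs_le.1 h1).2
          have h3 : ok Z y j n ≤ 1 := by unfold ok; split_ifs <;> norm_num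
          have h4 := ok_nonneg Z y j n
          calc ok Z y j n * wj (pr Y ε₁ υ) cL Z j n ≤ ok Z y j n * B := mul_le_mul_of_nonneg_left h2 h4
            _ ≤ 1 * B := mul_le_mul_of_nonneg_right h3 hB0.le
            _ = B := one_mul B
      _ = T * B := by rw [sum_const, nsmul_eq_mul, Nat.card_Icc, Nat.add_sub_cancel]
  have hWf : ∀ n ∈ Icc 1 M, n ∉ Bd → W n ≤ f n := by
    intro n hn hnB
    have hsq : ∀ j ∈ Icc 1 T, ∀ q ∈ pr Y ζ υ, ¬ q ^ 2 ∣ (n + Z) ^ 2 + j := by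
      intro j hj q hq hd
      apply hnB
      rw [hBd, mem_filter]
      exact ⟨hn, j, hj, q, hq, hd⟩
    have hdet := det Y hY2 ε₁ ζ υ lam S r hυ1 hυ0 hυ1' hlam hrr y hy cL (fun N => (hcWB N).1) Z T n
      (hNle n hn) hsq
    rw [hYp] at hdet
    exact hdet
  have hsumW : ∑ n ∈ Icc 1 M, W n ≤ ∑ n ∈ Icc 1 M, f n + Bd.card * (T * B) := by
    have hpt : ∀ n ∈ Icc 1 M, W n ≤ f n + (if n ∈ Bd then T * B else 0) := by
      intro n hn
      by_cases hnB : n ∈ Bd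
      · rw [if_pos hnB]
        have := hWB n hn
        have := hfnn n
        linarith
      · rw [if_neg hnB, add_zero]
        exact hWf n hn hnB
    refine (sum_le_sum hpt).trans ?_
    rw [sum_add_distrib]
    apply add_le_add le_rfl
    rw [← sum_filter, sum_const, nsmul_eq_mul]
    apply mul_le_mul_of_nonneg_right _ (by positivity)
    apply Nat.cast_le.2
    apply card_le_card
    intro n hn
    exact (mem_filter.1 hn).2
  have hMμ0 : 0 < M * μ := by positivity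
  have hfirst : G0 / 32 * (M * μ) + M * (G0 / 32 * μ) ≤ ∑ n ∈ Icc 1 M, f n := by
    have h1 : T * √(M : ℝ) ≤ M * μ / 24 := by
      rw [hMμ]
      have := mul_le_mul_of_nonneg_left r1 hT0r.le
      linarith
    have h2 : T * (G0 * √(x : ℝ) + a1 * (2 ^ m * √(x : ℝ)) * L) ≤ G0 / 48 * (M * μ) := by
      rw [hMμ]
      have h3 : G0 * √(x : ℝ) + a1 * (2 ^ m * √(x : ℝ)) * L ≤ G0 / 48 * (M * V) := by linarith
      have := mul_le_mul_of_nonneg_left h3 hT0r.le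
      linarith
    have h3 : G0 / 4 * (M * μ / 2 - T * √(M : ℝ)) ≤ G0 / 4 * ∑ n ∈ Icc 1 M, (Ns y T (n + Z) : ℝ) :=
      mul_le_mul_of_nonneg_left hN1 (by positivity)
    have h4 : G0 / 4 * (T * √(M : ℝ)) ≤ G0 / 4 * (M * μ / 24) := mul_le_mul_of_nonneg_left h1 (by positivity)
    have h5 : 0 < G0 * (M * μ) := by positivity
    have e : M * (G0 / 32 * μ) = G0 / 32 * (M * μ) := by ring
    rw [e]
    linarith
  -- the second moment
  have hsecond : ∑ n ∈ Icc 1 M, f n ^ 2 ≤ 3 * (M * (μ ^ 2 + μ)) := by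
    have h1 : ∑ n ∈ Icc 1 M, f n ^ 2 ≤ ∑ n ∈ Icc 1 M, (Ns y T (n + Z) : ℝ) ^ 2 := by
      apply sum_le_sum
      intro n _
      apply pow_le_pow_left₀ (hfnn n)
      rw [hf]
      simp only
      apply Nat.cast_le.2
      apply cn_le_Ns
      rw [← hYp]
      exact hylt.trans_le (Real.rpow_le_rpow_of_exponent_le (by linarith) hε₁ζ)
    have h2 : 3 * (T : ℝ) ^ 2 * √(M : ℝ) ≤ M * μ ^ 2 := by
      have h3 : 3 / κ ^ 2 * l ^ 2 ≤ √(M : ℝ) := v8.trans hsM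
      have h4 : 3 * l ^ 2 ≤ κ ^ 2 * √(M : ℝ) := by
        have := mul_le_mul_of_nonneg_left h3 (show 0 ≤ κ ^ 2 by positivity)
        have e : κ ^ 2 * (3 / κ ^ 2 * l ^ 2) = 3 * l ^ 2 := by field_simp
        rwa [e] at this
      have h5 : 3 ≤ V ^ 2 * √(M : ℝ) := by
        have h6 : (κ / l) ^ 2 ≤ V ^ 2 := pow_le_pow_left₀ (by positivity) hVy 2
        have h7 : 3 ≤ (κ / l) ^ 2 * √(M : ℝ) := by
          rw [div_pow, div_mul_eq_mul_div, le_div_iff₀ (by positivity)]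
          exact h4
        exact h7.trans (mul_le_mul_of_nonneg_right h6 hsM0.le)
      calc 3 * (T : ℝ) ^ 2 * √(M : ℝ) ≤ (V ^ 2 * √(M : ℝ)) * (T : ℝ) ^ 2 * √(M : ℝ) := by gcongr
        _ = T ^ 2 * V ^ 2 * (√(M : ℝ) * √(M : ℝ)) := by ring
        _ = M * μ ^ 2 := by rw [hsMM, hμ]; ring
    have h8 : 0 < M * μ ^ 2 := by positivity
    linarith
  have hq : 0 < 3 * (M * (μ ^ 2 + μ)) := by positivity
  have hmany := many M f (G0 / 32 * (M * μ)) _ (G0 / 32 * μ) hq (by positivity) (by positivity) hfirst hsecond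
  -- conclusion
  rw [card_shift]
  have hsub : (Icc 1 M).filter (fun n => 0 < f n ∧ G0 / 32 * μ ≤ f n) ⊆
      (Icc 1 M).filter (fun n => 1 ≤ cn r ((X : ℝ) ^ (2 * ζ)) T (n + Z) ∧
        min (G0 / 32 * κ) (G0 ^ 2 / 3072 * min κ 1) * T / l ≤ (cn r ((X : ℝ) ^ (2 * ζ)) T (n + Z) : ℝ)) := by
    intro n hn
    rw [mem_filter] at hn ⊢
    obtain ⟨h1, h2, h3⟩ := hn
    refine ⟨h1, ?_, ?_⟩
    · rw [hf] at h2
      simp only at h2
      have : 0 < cn r ((X : ℝ) ^ (2 * ζ)) T (n + Z) := by exact_mod_cast h2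
      omega
    · refine le_trans ?_ h3
      calc min (G0 / 32 * κ) (G0 ^ 2 / 3072 * min κ 1) * T / l ≤ (G0 / 32 * κ) * T / l := by
            gcongr
            exact min_le_left _ _
        _ = G0 / 32 * (κ * T / l) := by ring
        _ ≤ G0 / 32 * μ := mul_le_mul_of_nonneg_left hμge (by positivity)
  refine le_trans ?_ (hmany.trans (Nat.cast_le.2 (card_le_card hsub)))
  have e : (G0 / 32 * (M * μ)) ^ 2 / (3 * (M * (μ ^ 2 + μ))) = G0 ^ 2 / 3072 * M * (μ / (μ + 1)) := by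
    have : μ + 1 ≠ 0 := by positivity
    field_simp
    ring
  rw [e]
  have hfrac : min κ 1 * (T / (T + l)) ≤ μ / (μ + 1) := by
    rw [mul_div_assoc', div_le_div_iff₀ (by positivity) (by positivity)]
    have h1 : min κ 1 * T ≤ μ * l := by
      rw [div_le_iff₀ hl0] at hμge
      exact (mul_le_mul_of_nonneg_right (min_le_left κ 1) hT0r.le).trans hμge
    have h2 : min κ 1 * T * μ ≤ μ * T := by
      have h3 := mul_le_mul_of_nonneg_right (min_le_right κ 1) (show 0 ≤ T * μ by positivity)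
      linarith
    linarith
  calc min (G0 / 32 * κ) (G0 ^ 2 / 3072 * min κ 1) * M * (T / (T + l)) ≤
      (G0 ^ 2 / 3072 * min κ 1) * M * (T / (T + l)) := by
        gcongr
        exact min_le_right _ _
    _ = G0 ^ 2 / 3072 * M * (min κ 1 * (T / (T + l))) := by ring
    _ ≤ G0 ^ 2 / 3072 * M * (μ / (μ + 1)) := mul_le_mul_of_nonneg_left hfrac (by positivity)

end Pool.Agent.H37SQ
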