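import Pool.Agent.H37SQ.Pair
import Pool.Agent.H37AC.HB

/-!
# The second moment of the weights
-/

set_option autoImplicit false

namespace Pool.Agent.H37SQ

open Finset Pool.Agent.H373R2.T7 Pool.Agent.Y862.SQ Pool.Agent.Y486.SQ Pool.Agent.Y882

/-- the weight of `(n + Z) ^ 2 + j` -/
noncomputable def wj (P : Finset ℕ) (c : Finset ℕ → ℝ) (Z j n : ℕ) : ℝ :=
  VV P c (fun p => if p ∣ (n + Z) ^ 2 + j then 1 else 0)

/-- its expected value -/
noncomputable def vj (P : Finset ℕ) (c : Finset ℕ → ℝ) (j : ℕ) : ℝ := VV P c (fun p => (rH {j} p : ℝ) / p)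

/-- the product of `1 + ρ(p) / p` -/
noncomputable def Pi' (P : Finset ℕ) (j : ℕ) : ℝ := ∏ p ∈ P, (1 + (rH {j} p : ℝ) / p)

lemma Pi'_one (P : Finset ℕ) (j : ℕ) : 1 ≤ Pi' P j := by
  unfold Pi'
  calc (1 : ℝ) = ∏ _p ∈ P, (1 : ℝ) := by rw [prod_const_one]
    _ ≤ _ := prod_le_prod (fun _ _ => zero_le_one) (fun p _ => by
        have : (0 : ℝ) ≤ (rH {j} p : ℝ) / p := by positivity
        linarith)

lemma w_sub_v (P : Finset ℕ) (c : Finset ℕ → ℝ) (Z j n : ℕ) :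
    wj P c Z j n - vj P c j = ∑ D ∈ P.powerset, c D * (ind Z j D n - hh j D) := by
  unfold wj vj VV
  rw [← sum_sub_distrib]
  apply sum_congr rfl
  intro D _
  rw [Pool.Agent.Y882.prod_ind, mul_sub]
  unfold ind hh
  congr

lemma sum_hh (P : Finset ℕ) (j : ℕ) : ∑ D ∈ P.powerset, hh j D = Pi' P j := by
  unfold hh Pi'
  rw [Finset.prod_one_add]

open Classical in
lemma sum_hh_mem (P : Finset ℕ) (j q : ℕ) (hq : q ∈ P) :
    ∑ D ∈ P.powerset, (if q ∈ D then hh j D else 0) ≤ (rH {j} q : ℝ) / q * Pi' P j := by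
  rw [← sum_filter]
  have h1 : ∀ D ∈ P.powerset.filter (fun D => q ∈ D), hh j D = (rH {j} q : ℝ) / q * hh j (D.erase q) := by
    intro D hD
    have hqD := (mem_filter.1 hD).2
    unfold hh
    rw [mul_prod_erase D (fun p => (rH {j} p : ℝ) / p) hqD]
  rw [sum_congr rfl h1, ← mul_sum]
  apply mul_le_mul_of_nonneg_left _ (by positivity)
  rw [← sum_hh]
  rw [← sum_image (f := fun D => hh j D) (g := fun D : Finset ℕ => D.erase q)]
  · apply sum_le_sum_of_subset_of_nonneg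
    · intro E hE
      rw [mem_image] at hE
      obtain ⟨D, hD, rfl⟩ := hE
      rw [mem_powerset]
      exact (erase_subset _ _).trans (mem_powerset.1 (mem_filter.1 hD).1)
    · intro E _ _
      exact hh_nonneg _ _
  · intro D hD D' hD' h
    rw [mem_coe, mem_filter] at hD hD'
    simp only at h
    rw [← insert_erase hD.2, ← insert_erase hD'.2, h]

open Classical in
lemma nondisj (P : Finset ℕ) (y j j' : ℕ) (hy : 1 ≤ y) (hP : ∀ p ∈ P, p.Prime ∧ y < p) :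
    ∑ D ∈ P.powerset, ∑ D' ∈ P.powerset, (if Disjoint D D' then 0 else hh j D * hh j' D') ≤
      8 / y * (Pi' P j * Pi' P j') := by
  have hb : ∀ D ∈ P.powerset, ∀ D' ∈ P.powerset, (if Disjoint D D' then 0 else hh j D * hh j' D') ≤
      ∑ q ∈ P, (if q ∈ D then hh j D else 0) * (if q ∈ D' then hh j' D' else 0) := by
    intro D hD D' hD'
    have hn : ∀ q ∈ P, 0 ≤ (if q ∈ D then hh j D else 0) * (if q ∈ D' then hh j' D' else 0) := by
      intro q _
      apply mul_nonneg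
      · split_ifs
        · exact hh_nonneg _ _
        · exact le_rfl
      · split_ifs
        · exact hh_nonneg _ _
        · exact le_rfl
    split_ifs with h
    · exact sum_nonneg hn
    · rw [not_disjoint_iff] at h
      obtain ⟨q, hq, hq'⟩ := h
      have h2 := single_le_sum hn (mem_powerset.1 hD hq)
      rw [if_pos hq, if_pos hq'] at h2
      exact h2
  have hPi : 0 ≤ Pi' P j * Pi' P j' := by
    have := Pi'_one P j
    have := Pi'_one P j'
    positivity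
  calc ∑ D ∈ P.powerset, ∑ D' ∈ P.powerset, (if Disjoint D D' then 0 else hh j D * hh j' D') ≤
      ∑ D ∈ P.powerset, ∑ D' ∈ P.powerset,
        ∑ q ∈ P, (if q ∈ D then hh j D else 0) * (if q ∈ D' then hh j' D' else 0) :=
        sum_le_sum fun D hD => sum_le_sum fun D' hD' => hb D hD D' hD'
    _ = ∑ q ∈ P, (∑ D ∈ P.powerset, (if q ∈ D then hh j D else 0)) *
        (∑ D' ∈ P.powerset, (if q ∈ D' then hh j' D' else 0)) := by
        have e1 : ∀ D ∈ P.powerset, ∑ D' ∈ P.powerset,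
            ∑ q ∈ P, (if q ∈ D then hh j D else 0) * (if q ∈ D' then hh j' D' else 0) =
            ∑ q ∈ P, (if q ∈ D then hh j D else 0) * ∑ D' ∈ P.powerset, (if q ∈ D' then hh j' D' else 0) := by
          intro D _
          rw [sum_comm]
          apply sum_congr rfl
          intro q _
          rw [mul_sum]
        rw [sum_congr rfl e1, sum_comm]
        apply sum_congr rfl
        intro q _
        rw [sum_mul]
    _ ≤ ∑ q ∈ P, ((rH {j} q : ℝ) / q * Pi' P j) * ((rH {j'} q : ℝ) / q * Pi' P j') := by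
        apply sum_le_sum
        intro q hq
        have h0 : 0 ≤ Pi' P j := by have := Pi'_one P j; linarith
        apply mul_le_mul (sum_hh_mem P j q hq) (sum_hh_mem P j' q hq) _ (by positivity)
        apply sum_nonneg
        intro D _
        split_ifs
        · exact hh_nonneg _ _
        · exact le_rfl
    _ ≤ ∑ q ∈ P, 4 * (1 / (q : ℝ) ^ 2) * (Pi' P j * Pi' P j') := by
        apply sum_le_sum
        intro q hq
        have hq0 : (0 : ℝ) < q := by exact_mod_cast (hP q hq).1.pos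
        have h1 : (rH {j} q : ℝ) ≤ 2 := by exact_mod_cast rH_le_two j q (hP q hq).1
        have h2 : (rH {j'} q : ℝ) ≤ 2 := by exact_mod_cast rH_le_two j' q (hP q hq).1
        have h3 : (rH {j} q : ℝ) * rH {j'} q ≤ 4 := by
          have := mul_le_mul h1 h2 (Nat.cast_nonneg _) (by norm_num)
          linarith
        calc ((rH {j} q : ℝ) / q * Pi' P j) * ((rH {j'} q : ℝ) / q * Pi' P j') =
            ((rH {j} q : ℝ) * rH {j'} q) * (1 / (q : ℝ) ^ 2) * (Pi' P j * Pi' P j') := by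
              field_simp
          _ ≤ 4 * (1 / (q : ℝ) ^ 2) * (Pi' P j * Pi' P j') := by
              apply mul_le_mul_of_nonneg_right _ hPi
              exact mul_le_mul_of_nonneg_right h3 (by positivity)
    _ = 4 * (∑ q ∈ P, 1 / (q : ℝ) ^ 2) * (Pi' P j * Pi' P j') := by
        rw [mul_sum, sum_mul]
    _ ≤ 8 / y * (Pi' P j * Pi' P j') := by
        apply mul_le_mul_of_nonneg_right _ hPi
        have h1 : ∑ q ∈ P, 1 / (q : ℝ) ^ 2 ≤ ∑ q ∈ Icc y (P.sup id), 1 / (q : ℝ) ^ 2 := by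
          apply sum_le_sum_of_subset_of_nonneg
          · intro q hq
            rw [mem_Icc]
            exact ⟨(hP q hq).2.le, Finset.le_sup (f := id) hq⟩
          · intro q _ _
            positivity
        have h2 := Pool.Agent.H37AC.tail_sq y (P.sup id) hy
        have h3 : (4 : ℝ) * (2 / y) = 8 / y := by ring
        linarith

open Classical in
lemma card_small (P : Finset ℕ) (hP : ∀ p ∈ P, p.Prime) (L : ℕ) :
    ((P.powerset.filter (fun D => ∏ p ∈ D, p ≤ L)).card : ℝ) ≤ L := by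
  have h : (P.powerset.filter (fun D => ∏ p ∈ D, p ≤ L)).card ≤ (Icc 1 L).card := by
    apply card_le_card_of_injOn (fun T : Finset ℕ => ∏ p ∈ T, p)
    · intro T hT
      rw [mem_coe, mem_filter, mem_powerset] at hT
      have h5 : 1 ≤ ∏ p ∈ T, p := Nat.pos_of_ne_zero (prod_ne_zero_iff.2 fun p hp => (hP p (hT.1 hp)).ne_zero)
      exact mem_coe.2 (mem_Icc.2 ⟨h5, hT.2⟩)
    · intro T hT T' hT' h
      rw [mem_coe, mem_filter, mem_powerset] at hT hT'
      exact prod_inj T T' (fun p hp => hP p (hT.1 hp)) (fun p hp => hP p (hT'.1 hp)) h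
  rw [Nat.card_Icc, Nat.add_sub_cancel] at h
  exact_mod_cast h

open Classical in
/-- the correlation of the weights of `n ^ 2 + j` and `n ^ 2 + j'` -/
theorem E2 : ∃ C x0 : ℕ, 1 ≤ C ∧ ∀ b : ℕ, C ≤ b → ∀ x y : ℕ, x0 ≤ y → 1 ≤ y → y ^ (C * b) ≤ x →
    ∀ (Z M j j' : ℕ), j ≠ j' → j ≤ y → j' ≤ y → ∀ (P : Finset ℕ) (c : Finset ℕ → ℝ) (a1 : ℝ) (m L : ℕ),
      (∀ p ∈ P, p.Prime ∧ y < p) → (∀ D, |c D| ≤ a1) → (∀ D ⊆ P, c D ≠ 0 → D.card ≤ m ∧ ∏ p ∈ D, p ≤ L) →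
      |∑ n ∈ Sf Z M y {j, j'}, (wj P c Z j n - vj P c j) * (wj P c Z j' n - vj P c j')| ≤
        a1 ^ 2 * ((4 * (1 / 2 : ℝ) ^ b + 48 / y) * (Pi' P j * Pi' P j') *
          (2 * (Sf Z M y {j, j'}).card + 2 * √(x : ℝ)) + 4 * (2 ^ (2 * m) * √(x : ℝ)) * (L : ℝ) ^ 2) := by
  obtain ⟨C, x0, hC, H⟩ := pairE
  refine ⟨C, x0, hC, ?_⟩
  intro b hb x y hy hy1 hyx Z M j j' hjj hjy hjy' P c a1 m L hP hc hcL
  have ha1 : 0 ≤ a1 := (abs_nonneg _).trans (hc ∅)
  have hy0 : (0 : ℝ) < y := by exact_mod_cast hy1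
  set e : Finset ℕ → Finset ℕ → ℝ := fun D D' =>
    ∑ n ∈ Sf Z M y {j, j'}, (ind Z j D n - hh j D) * (ind Z j' D' n - hh j' D') with he
  set W : ℝ := 2 * (Sf Z M y {j, j'}).card + 2 * √(x : ℝ) with hW
  have hW0 : 0 ≤ W := by positivity
  set δ : ℝ := (1 / 2 : ℝ) ^ b with hδ
  have hδ0 : 0 ≤ δ := by positivity
  have e0 : ∑ n ∈ Sf Z M y {j, j'}, (wj P c Z j n - vj P c j) * (wj P c Z j' n - vj P c j') =
      ∑ D ∈ P.powerset, ∑ D' ∈ P.powerset, c D * c D' * e D D' := by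
    simp only [w_sub_v]
    have e1 : ∀ n, (∑ D ∈ P.powerset, c D * (ind Z j D n - hh j D)) *
        (∑ D ∈ P.powerset, c D * (ind Z j' D n - hh j' D)) =
        ∑ D ∈ P.powerset, ∑ D' ∈ P.powerset,
          c D * c D' * ((ind Z j D n - hh j D) * (ind Z j' D' n - hh j' D')) := by
      intro n
      rw [sum_mul_sum]
      apply sum_congr rfl
      intro D _
      apply sum_congr rfl
      intro D' _
      ring
    simp only [e1]
    rw [sum_comm]
    apply sum_congr rfl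
    intro D _
    rw [sum_comm]
    apply sum_congr rfl
    intro D' _
    rw [he, mul_sum]
  rw [e0]
  have hterm : ∀ D ∈ P.powerset, ∀ D' ∈ P.powerset, |c D * c D' * e D D'| ≤
      a1 ^ 2 * ((4 * δ * (hh j D * hh j' D') + 6 * (if Disjoint D D' then 0 else hh j D * hh j' D')) * W +
        4 * (2 ^ (2 * m) * √(x : ℝ)) *
          ((if ∏ p ∈ D, p ≤ L then 1 else 0) * (if ∏ p ∈ D', p ≤ L then 1 else 0))) := by
    intro D hD D' hD'
    rw [mem_powerset] at hD hD'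
    have h0 := hh_nonneg j D
    have h0' := hh_nonneg j' D'
    have hi : 0 ≤ (if Disjoint D D' then 0 else hh j D * hh j' D') := by
      split_ifs
      · exact le_rfl
      · positivity
    have hi2 : (0 : ℝ) ≤ ((if ∏ p ∈ D, p ≤ L then 1 else 0) * (if ∏ p ∈ D', p ≤ L then 1 else 0)) := by
      apply mul_nonneg
      · split_ifs <;> norm_num
      · split_ifs <;> norm_num
    have hR0 : 0 ≤ a1 ^ 2 * ((4 * δ * (hh j D * hh j' D') + 6 * (if Disjoint D D' then 0 else hh j D * hh j' D')) * W +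
        4 * (2 ^ (2 * m) * √(x : ℝ)) *
          ((if ∏ p ∈ D, p ≤ L then 1 else 0) * (if ∏ p ∈ D', p ≤ L then 1 else 0))) := by
      have := Real.sqrt_nonneg (x : ℝ)
      positivity
    by_cases hcD : c D = 0
    · rw [hcD, zero_mul, zero_mul, abs_zero]
      exact hR0
    by_cases hcD' : c D' = 0
    · rw [hcD', mul_zero, zero_mul, abs_zero]
      exact hR0
    obtain ⟨m1, m2⟩ := hcL D hD hcD
    obtain ⟨m1', m2'⟩ := hcL D' hD' hcD'
    rw [if_pos m2, if_pos m2', mul_one, mul_one]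
    obtain ⟨k1, k2⟩ := H b hb x y hy hyx Z M j j' hjj hjy hjy' D D' (fun p hp => hP p (hD hp))
      (fun p hp => hP p (hD' hp))
    have hcc : |c D * c D'| ≤ a1 ^ 2 := by
      rw [abs_mul, sq]
      exact mul_le_mul (hc D) (hc D') (abs_nonneg _) ha1
    rw [abs_mul]
    apply mul_le_mul hcc _ (abs_nonneg _) (by positivity)
    refine k1.trans ?_
    apply add_le_add
    · have h1 : (M : ℝ) * (hh j D * hh j' D') * VH {j, j'} y ≤ (hh j D * hh j' D') * W := by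
        have := mul_le_mul_of_nonneg_left k2 (show 0 ≤ hh j D * hh j' D' by positivity)
        calc (M : ℝ) * (hh j D * hh j' D') * VH {j, j'} y = hh j D * hh j' D' * (M * VH {j, j'} y) := by ring
          _ ≤ _ := this
      have h2 : 0 ≤ (4 * δ + if Disjoint D D' then (0 : ℝ) else 6) := by
        split_ifs <;> positivity
      refine (mul_le_mul_of_nonneg_left h1 h2).trans (le_of_eq ?_)
      split_ifs <;> ring
    · apply mul_le_mul_of_nonneg_left _ (by norm_num)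
      apply mul_le_mul_of_nonneg_right _ (Real.sqrt_nonneg _)
      exact pow_le_pow_right₀ (by norm_num) (by omega)
  refine (abs_sum_le_sum_abs _ _).trans ?_
  refine (sum_le_sum fun D hD => (abs_sum_le_sum_abs _ _).trans (sum_le_sum fun D' hD' => hterm D hD D' hD')).trans ?_
  have s1 : ∑ D ∈ P.powerset, ∑ D' ∈ P.powerset, hh j D * hh j' D' = Pi' P j * Pi' P j' := by
    rw [← sum_mul_sum, sum_hh, sum_hh]
  have s2 := nondisj P y j j' hy1 hP
  have s3 : ∑ D ∈ P.powerset, ∑ D' ∈ P.powerset,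
      ((if ∏ p ∈ D, p ≤ L then (1 : ℝ) else 0) * (if ∏ p ∈ D', p ≤ L then 1 else 0)) ≤ (L : ℝ) ^ 2 := by
    rw [← sum_mul_sum, ← sum_filter, sum_const, nsmul_eq_mul, mul_one, sq]
    have := card_small P (fun p hp => (hP p hp).1) L
    exact mul_le_mul this this (Nat.cast_nonneg _) (Nat.cast_nonneg _)
  have hsx : 0 ≤ 4 * (2 ^ (2 * m) * √(x : ℝ)) := by positivity
  calc ∑ D ∈ P.powerset, ∑ D' ∈ P.powerset,
      a1 ^ 2 * ((4 * δ * (hh j D * hh j' D') + 6 * (if Disjoint D D' then 0 else hh j D * hh j' D')) * W +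
        4 * (2 ^ (2 * m) * √(x : ℝ)) *
          ((if ∏ p ∈ D, p ≤ L then 1 else 0) * (if ∏ p ∈ D', p ≤ L then 1 else 0))) =
      a1 ^ 2 * ((4 * δ * (∑ D ∈ P.powerset, ∑ D' ∈ P.powerset, hh j D * hh j' D') +
        6 * ∑ D ∈ P.powerset, ∑ D' ∈ P.powerset, (if Disjoint D D' then 0 else hh j D * hh j' D')) * W +
        4 * (2 ^ (2 * m) * √(x : ℝ)) * ∑ D ∈ P.powerset, ∑ D' ∈ P.powerset,
          ((if ∏ p ∈ D, p ≤ L then 1 else 0) * (if ∏ p ∈ D', p ≤ L then 1 else 0))) := by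
        simp only [← mul_sum, sum_add_distrib, ← sum_mul]
    _ ≤ a1 ^ 2 * ((4 * δ * (Pi' P j * Pi' P j') + 6 * (8 / y * (Pi' P j * Pi' P j'))) * W +
        4 * (2 ^ (2 * m) * √(x : ℝ)) * (L : ℝ) ^ 2) := by
        rw [s1]
        apply mul_le_mul_of_nonneg_left _ (by positivity)
        apply add_le_add
        · apply mul_le_mul_of_nonneg_right _ hW0
          linarith
        · exact mul_le_mul_of_nonneg_left s3 hsx
    _ = _ := by
        congr 2
        rw [add_mul]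
        ring

open Classical in
/-- the indicator function of the sifted pairs -/
noncomputable def ok (Z y j n : ℕ) : ℝ := if ∀ p ∈ pz y, ¬ p ∣ (n + Z) ^ 2 + j then 1 else 0

lemma ok_nonneg (Z y j n : ℕ) : 0 ≤ ok Z y j n := by
  unfold ok
  split_ifs <;> norm_num

lemma ok_sq (Z y j n : ℕ) : ok Z y j n * ok Z y j n = ok Z y j n := by
  unfold ok
  split_ifs <;> norm_num

lemma sum_ok (Z y T n : ℕ) : ∑ j ∈ Icc 1 T, ok Z y j n = (Ns y T (n + Z) : ℝ) := by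
  classical
  unfold ok Ns
  rw [Finset.sum_ite, sum_const_zero, add_zero, sum_const, nsmul_eq_mul, mul_one]
  norm_cast

lemma Sf_sum (Z M y j j' : ℕ) (f : ℕ → ℝ) : ∑ n ∈ Sf Z M y {j, j'}, f n =
    ∑ n ∈ Icc 1 M, ok Z y j n * ok Z y j' n * f n := by
  classical
  have hsub : Sf Z M y {j, j'} ⊆ Icc 1 M := filter_subset _ _
  have hiff : ∀ n, (∀ p ∈ pz y, ¬ Qz Z {j, j'} p n) ↔
      ((∀ p ∈ pz y, ¬ p ∣ (n + Z) ^ 2 + j) ∧ ∀ p ∈ pz y, ¬ p ∣ (n + Z) ^ 2 + j') := by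
    intro n
    unfold Qz
    constructor
    · intro h
      exact ⟨fun p hp hd => h p hp ⟨j, by simp, hd⟩, fun p hp hd => h p hp ⟨j', by simp, hd⟩⟩
    · rintro ⟨h1, h2⟩ p hp ⟨h, hh, hd⟩
      rw [mem_insert, mem_singleton] at hh
      rcases hh with rfl | rfl
      · exact h1 p hp hd
      · exact h2 p hp hd
  rw [← Finset.sum_subset hsub]
  · apply sum_congr rfl
    intro n hn
    unfold Sf at hn
    rw [mem_filter, hiff] at hn
    unfold ok
    rw [if_pos hn.2.1, if_pos hn.2.2, one_mul, one_mul]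
  · intro n hn hn'
    unfold Sf at hn'
    rw [mem_filter, hiff] at hn'
    unfold ok
    by_cases h1 : ∀ p ∈ pz y, ¬ p ∣ (n + Z) ^ 2 + j
    · have h2 : ¬ ∀ p ∈ pz y, ¬ p ∣ (n + Z) ^ 2 + j' := fun h2 => hn' ⟨hn, h1, h2⟩
      rw [if_neg h2, mul_zero, zero_mul]
    · rw [if_neg h1, zero_mul, zero_mul]

lemma card_Sf (Z M y j j' : ℕ) : ((Sf Z M y {j, j'}).card : ℝ) = ∑ n ∈ Icc 1 M, ok Z y j n * ok Z y j' n := by
  have h := Sf_sum Z M y j j' (fun _ => 1)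
  rw [sum_const, nsmul_eq_mul, mul_one] at h
  rw [h]
  apply sum_congr rfl
  intro n _
  rw [mul_one]

/-- **The second moment.** -/
theorem M2 : ∃ C x0 : ℕ, 1 ≤ C ∧ ∀ b : ℕ, C ≤ b → ∀ x y : ℕ, x0 ≤ y → 1 ≤ y → y ^ (C * b) ≤ x →
    ∀ (Z M T : ℕ), T ≤ y → ∀ (P : Finset ℕ) (c : Finset ℕ → ℝ) (a1 : ℝ) (m L : ℕ) (Pb B : ℝ),
      (∀ p ∈ P, p.Prime ∧ y < p) → (∀ D, |c D| ≤ a1) → (∀ D ⊆ P, c D ≠ 0 → D.card ≤ m ∧ ∏ p ∈ D, p ≤ L) →
      (∀ j ∈ Icc 1 T, Pi' P j ≤ Pb) → (∀ j ∈ Icc 1 T, ∀ n ∈ Icc 1 M, |wj P c Z j n| ≤ B) →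
      (∀ j ∈ Icc 1 T, |vj P c j| ≤ B) → 0 ≤ B →
      ∑ n ∈ Icc 1 M, (∑ j ∈ Icc 1 T, ok Z y j n * (wj P c Z j n - vj P c j)) ^ 2 ≤
        a1 ^ 2 * ((4 * (1 / 2 : ℝ) ^ b + 48 / y) * Pb ^ 2 *
          (2 * ∑ n ∈ Icc 1 M, (Ns y T (n + Z) : ℝ) ^ 2 + 2 * (T : ℝ) ^ 2 * √(x : ℝ)) +
          (T : ℝ) ^ 2 * (4 * (2 ^ (2 * m) * √(x : ℝ)) * (L : ℝ) ^ 2)) +
        (2 * B) ^ 2 * ∑ n ∈ Icc 1 M, (Ns y T (n + Z) : ℝ) := by
  classical
  obtain ⟨C, x0, hC, H⟩ := E2
  refine ⟨C, x0, hC, ?_⟩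
  intro b hb x y hy hy1 hyx Z M T hTy P c a1 m L Pb B hP hc hcL hPb hB hvB hB0
  set κ : ℝ := (4 * (1 / 2 : ℝ) ^ b + 48 / y) with hκ
  have hκ0 : 0 ≤ κ := by positivity
  set Err : ℝ := 4 * (2 ^ (2 * m) * √(x : ℝ)) * (L : ℝ) ^ 2 with hErr
  have hErr0 : 0 ≤ Err := by positivity
  set s : ℝ := √(x : ℝ) with hs
  have hs0 : 0 ≤ s := Real.sqrt_nonneg _
  have hmain : ∑ n ∈ Icc 1 M, (∑ j ∈ Icc 1 T, ok Z y j n * (wj P c Z j n - vj P c j)) ^ 2 =
      ∑ j ∈ Icc 1 T, ∑ j' ∈ Icc 1 T, ∑ n ∈ Icc 1 M, ok Z y j n * ok Z y j' n *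
        ((wj P c Z j n - vj P c j) * (wj P c Z j' n - vj P c j')) := by
    have e1 : ∀ n ∈ Icc 1 M, (∑ j ∈ Icc 1 T, ok Z y j n * (wj P c Z j n - vj P c j)) ^ 2 =
        ∑ j ∈ Icc 1 T, ∑ j' ∈ Icc 1 T, ok Z y j n * ok Z y j' n *
          ((wj P c Z j n - vj P c j) * (wj P c Z j' n - vj P c j')) := by
      intro n _
      rw [sq, sum_mul_sum]
      apply sum_congr rfl
      intro j _
      apply sum_congr rfl
      intro j' _
      ring
    rw [sum_congr rfl e1, sum_comm]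
    apply sum_congr rfl
    intro j _
    rw [sum_comm]
  rw [hmain]
  have hterm : ∀ j ∈ Icc 1 T, ∀ j' ∈ Icc 1 T, ∑ n ∈ Icc 1 M, ok Z y j n * ok Z y j' n *
        ((wj P c Z j n - vj P c j) * (wj P c Z j' n - vj P c j')) ≤
      a1 ^ 2 * (κ * Pb ^ 2 * (2 * ∑ n ∈ Icc 1 M, ok Z y j n * ok Z y j' n + 2 * s) + Err) +
        (if j = j' then (2 * B) ^ 2 * ∑ n ∈ Icc 1 M, ok Z y j n else 0) := by
    intro j hj j' hj'
    have hPb0 : 1 ≤ Pb := (Pi'_one P j).trans (hPb j hj)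
    have hoo : 0 ≤ ∑ n ∈ Icc 1 M, ok Z y j n * ok Z y j' n :=
      sum_nonneg fun n _ => mul_nonneg (ok_nonneg _ _ _ _) (ok_nonneg _ _ _ _)
    by_cases hjj : j = j'
    · subst hjj
      rw [if_pos rfl]
      have h1 : ∑ n ∈ Icc 1 M, ok Z y j n * ok Z y j n *
          ((wj P c Z j n - vj P c j) * (wj P c Z j n - vj P c j)) ≤ (2 * B) ^ 2 * ∑ n ∈ Icc 1 M, ok Z y j n := by
        rw [mul_sum]
        apply sum_le_sum
        intro n hn
        rw [ok_sq, mul_comm]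
        apply mul_le_mul_of_nonneg_right _ (ok_nonneg _ _ _ _)
        have h2 : |wj P c Z j n - vj P c j| ≤ 2 * B := by
          have := abs_sub (wj P c Z j n) (vj P c j)
          have := hB j hj n hn
          have := hvB j hj
          linarith
        rw [← sq, ← sq_abs]
        exact pow_le_pow_left₀ (abs_nonneg _) h2 2
      have h2 : 0 ≤ a1 ^ 2 * (κ * Pb ^ 2 * (2 * ∑ n ∈ Icc 1 M, ok Z y j n * ok Z y j n + 2 * s) + Err) := by
        positivity
      linarith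
    · rw [if_neg hjj, add_zero, ← Sf_sum, ← card_Sf]
      refine (le_abs_self _).trans ?_
      refine (H b hb x y hy hy1 hyx Z M j j' hjj ((mem_Icc.1 hj).2.trans hTy) ((mem_Icc.1 hj').2.trans hTy)
        P c a1 m L hP hc hcL).trans ?_
      apply mul_le_mul_of_nonneg_left _ (by positivity)
      apply add_le_add _ le_rfl
      apply mul_le_mul_of_nonneg_right _ (by positivity)
      apply mul_le_mul_of_nonneg_left _ hκ0
      rw [sq]
      exact mul_le_mul (hPb j hj) (hPb j' hj') (by have := Pi'_one P j'; linarith) (by linarith)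
  refine (sum_le_sum fun j hj => sum_le_sum fun j' hj' => hterm j hj j' hj').trans (le_of_eq ?_)
  have t1 : ∑ j ∈ Icc 1 T, ∑ j' ∈ Icc 1 T, ∑ n ∈ Icc 1 M, ok Z y j n * ok Z y j' n =
      ∑ n ∈ Icc 1 M, (Ns y T (n + Z) : ℝ) ^ 2 := by
    have e1 : ∀ n ∈ Icc 1 M, (Ns y T (n + Z) : ℝ) ^ 2 = ∑ j ∈ Icc 1 T, ∑ j' ∈ Icc 1 T, ok Z y j n * ok Z y j' n := by
      intro n _
      rw [← sum_ok, sq, sum_mul_sum]
    rw [sum_congr rfl e1, sum_comm' (s := Icc 1 M) (t := fun _ => Icc 1 T) (t' := Icc 1 T) (s' := fun _ => Icc 1 M)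
      (fun _ _ => by tauto)]
    apply sum_congr rfl
    intro j _
    rw [sum_comm]
  have t2 : ∑ j ∈ Icc 1 T, ∑ j' ∈ Icc 1 T, (if j = j' then (2 * B) ^ 2 * ∑ n ∈ Icc 1 M, ok Z y j n else 0) =
      (2 * B) ^ 2 * ∑ n ∈ Icc 1 M, (Ns y T (n + Z) : ℝ) := by
    have e1 : ∀ j ∈ Icc 1 T, ∑ j' ∈ Icc 1 T, (if j = j' then (2 * B) ^ 2 * ∑ n ∈ Icc 1 M, ok Z y j n else 0) =
        (2 * B) ^ 2 * ∑ n ∈ Icc 1 M, ok Z y j n := by
      intro j hj
      rw [sum_ite_eq, if_pos hj]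
    rw [sum_congr rfl e1, ← mul_sum, sum_comm]
    congr 1
    apply sum_congr rfl
    intro n _
    exact sum_ok Z y T n
  have t3 : ∀ a : ℝ, ∑ _j ∈ Icc 1 T, ∑ _j' ∈ Icc 1 T, a = (T : ℝ) ^ 2 * a := by
    intro a
    rw [sum_const, sum_const, Nat.card_Icc, Nat.add_sub_cancel, nsmul_eq_mul, nsmul_eq_mul]
    ring
  rw [sum_congr rfl (fun j _ => sum_add_distrib), sum_add_distrib, t2]
  congr 1
  have t4 : ∀ j ∈ Icc 1 T, ∑ j' ∈ Icc 1 T,
      a1 ^ 2 * (κ * Pb ^ 2 * (2 * ∑ n ∈ Icc 1 M, ok Z y j n * ok Z y j' n + 2 * s) + Err) =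
      a1 ^ 2 * (κ * Pb ^ 2 * (2 * ∑ j' ∈ Icc 1 T, ∑ n ∈ Icc 1 M, ok Z y j n * ok Z y j' n +
        ∑ _j' ∈ Icc 1 T, 2 * s) + ∑ _j' ∈ Icc 1 T, Err) := by
    intro j _
    rw [← mul_sum, sum_add_distrib, ← mul_sum, sum_add_distrib, ← mul_sum]
  rw [sum_congr rfl t4, ← mul_sum, sum_add_distrib, ← mul_sum, sum_add_distrib, ← mul_sum, t1, t3, t3]
  ring

end Pool.Agent.H37SQ
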