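import Pool.Agent.H37SQ.Fund
import Pool.Agent.Y486.SQ.Law
import Pool.Agent.Y882.VV

/-!
# Pairs `(n ^ 2 + j) (n ^ 2 + j')`: independence of the large prime factors
-/

set_option autoImplicit false

namespace Pool.Agent.H37SQ

open Finset Pool.Agent.H373R2.T7 Pool.Agent.Y862.SQ Pool.Agent.Y486.SQ

open Classical in
/-- the `n` in `[1, M]` such that `(n + Z) ^ 2 + h`, `h ∈ H`, have no prime factor up to `y` -/
noncomputable def Sf (Z M y : ℕ) (H : Finset ℕ) : Finset ℕ :=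
  (Icc 1 M).filter (fun n => ∀ p ∈ pz y, ¬ Qz Z H p n)

open Classical in
/-- the indicator function of `D ∣ (n + Z) ^ 2 + j` -/
noncomputable def ind (Z j : ℕ) (D : Finset ℕ) (n : ℕ) : ℝ :=
  if ∀ p ∈ D, p ∣ (n + Z) ^ 2 + j then 1 else 0

/-- the density -/
noncomputable def hh (j : ℕ) (D : Finset ℕ) : ℝ := ∏ p ∈ D, ((rH {j} p : ℝ) / p)

lemma rH_le_two (j p : ℕ) (hp : p.Prime) : rH {j} p ≤ 2 := by
  classical
  have h := (Qz_perB 0 {j}).few p hp
  rw [nuB_Qz] at h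
  simpa using h

lemma hh_nonneg (j : ℕ) (D : Finset ℕ) : 0 ≤ hh j D := prod_nonneg fun p _ => by positivity

lemma hh_le_one (j : ℕ) (D : Finset ℕ) : hh j D ≤ 1 := by
  apply prod_le_one
  · intro p _
    positivity
  · intro p _
    apply div_le_one_of_le₀ _ (Nat.cast_nonneg _)
    exact_mod_cast rH_le {j} p

lemma ind_cond_mod (Z j p n : ℕ) : (p ∣ (n % p + Z) ^ 2 + j) ↔ (p ∣ (n + Z) ^ 2 + j) := by
  have h := Qz_per Z {j} p n
  unfold Qz at h
  simp only [mem_singleton, exists_eq_left] at h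
  exact h.symm

lemma Qz_single (Z j p n : ℕ) : Qz Z {j} p n ↔ p ∣ (n + Z) ^ 2 + j := by
  unfold Qz
  simp

/-- the conditions of `D` and `D'` -/
def BB (Z j j' : ℕ) (D D' : Finset ℕ) (p a : ℕ) : Prop :=
  (p ∈ D → p ∣ (a + Z) ^ 2 + j) ∧ (p ∈ D' → p ∣ (a + Z) ^ 2 + j')

lemma nuB_congr (B B' : ℕ → ℕ → Prop) (p : ℕ) (h : ∀ a, B p a ↔ B' p a) : nuB B p = nuB B' p := by
  classical
  unfold nuB
  congr 1
  ext a
  rw [mem_filter, mem_filter, h a]

open Classical in
/-- counting with the conditions of `D` and `D'` -/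
theorem count_DD : ∃ C x0 : ℕ, 1 ≤ C ∧ ∀ b : ℕ, C ≤ b → ∀ x y : ℕ, x0 ≤ y → y ^ (C * b) ≤ x →
    ∀ (Z M j j' : ℕ) (D D' : Finset ℕ), (∀ p ∈ D, p.Prime ∧ y < p) → (∀ p ∈ D', p.Prime ∧ y < p) →
      Disjoint D D' →
      |∑ n ∈ Sf Z M y {j, j'}, ind Z j D n * ind Z j' D' n - M * (hh j D * hh j' D') * VH {j, j'} y| ≤
        (1 / 2 : ℝ) ^ b * (M * (hh j D * hh j' D') * VH {j, j'} y) +
          2 ^ (D.card + D'.card) * √(x : ℝ) := by
  obtain ⟨C, x0, hC, H⟩ := sysG 4 (by norm_num)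
  refine ⟨C, x0, hC, ?_⟩
  intro b hb x y hy hyx Z M j j' D D' hD hD' hdis
  have hQ : PerB (Qz Z {j, j'}) 4 := by
    have h := Qz_perB Z {j, j'}
    refine ⟨h.per, fun p hp => (h.few p hp).trans ?_⟩
    have := card_le_two (a := j) (b := j')
    omega
  have hG : ∀ p ∈ D ∪ D', p.Prime ∧ y < p := by
    intro p hp
    rcases mem_union.1 hp with h | h
    · exact hD p h
    · exact hD' p h
  have key := H b hb x y hy hyx (Qz Z {j, j'}) hQ (D ∪ D') hG
    (BB Z j j' D D') M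
  have nD : ∀ p ∈ D, nuB (BB Z j j' D D') p =
      rH {j} p := by
    intro p hp
    have hp' : p ∉ D' := fun h => (disjoint_left.1 hdis) hp h
    rw [← nuB_Qz Z]
    apply nuB_congr
    intro a
    rw [Qz_single]
    unfold BB
    simp [hp, hp']
  have nD' : ∀ p ∈ D', nuB (BB Z j j' D D') p =
      rH {j'} p := by
    intro p hp
    have hp' : p ∉ D := fun h => (disjoint_left.1 hdis) h hp
    rw [← nuB_Qz Z]
    apply nuB_congr
    intro a
    rw [Qz_single]
    unfold BB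
    simp [hp, hp']
  rw [prod_union hdis, prod_union hdis, VH_eq] at key
  have e1 : ∏ p ∈ D, ((nuB (BB Z j j' D D') p : ℝ) / p) =
      hh j D := by
    apply prod_congr rfl
    intro p hp
    rw [nD p hp]
  have e2 : ∏ p ∈ D', ((nuB (BB Z j j' D D') p : ℝ) / p) =
      hh j' D' := by
    apply prod_congr rfl
    intro p hp
    rw [nD' p hp]
  rw [e1, e2] at key
  have e3 : ∏ p ∈ D, (nuB (BB Z j j' D D') p : ℝ) ≤
      2 ^ D.card := by
    apply (prod_le_prod (fun _ _ => Nat.cast_nonneg _) (fun p hp => ?_)).trans (le_of_eq (prod_const _))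
    rw [nD p hp]
    exact_mod_cast rH_le_two j p (hD p hp).1
  have e4 : ∏ p ∈ D', (nuB (BB Z j j' D D') p : ℝ) ≤
      2 ^ D'.card := by
    apply (prod_le_prod (fun _ _ => Nat.cast_nonneg _) (fun p hp => ?_)).trans (le_of_eq (prod_const _))
    rw [nD' p hp]
    exact_mod_cast rH_le_two j' p (hD' p hp).1
  have e5 : ((((Icc 1 M).filter (fun n : ℕ => (∀ p ∈ pz y, ¬ Qz Z {j, j'} p n) ∧ ∀ p ∈ D ∪ D',
      (BB Z j j' D D') p (n % p))).card : ℕ) : ℝ) =
      ∑ n ∈ Sf Z M y {j, j'}, ind Z j D n * ind Z j' D' n := by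
    have hiff : ∀ n, (∀ p ∈ D ∪ D', BB Z j j' D D' p (n % p)) ↔
        ((∀ p ∈ D, p ∣ (n + Z) ^ 2 + j) ∧ ∀ p ∈ D', p ∣ (n + Z) ^ 2 + j') := by
      intro n
      unfold BB
      constructor
      · intro h
        refine ⟨fun p hp => ?_, fun p hp => ?_⟩
        · exact (ind_cond_mod Z j p n).1 ((h p (mem_union_left _ hp)).1 hp)
        · exact (ind_cond_mod Z j' p n).1 ((h p (mem_union_right _ hp)).2 hp)
      · rintro ⟨h1, h2⟩ p _
        exact ⟨fun hp => (ind_cond_mod Z j p n).2 (h1 p hp), fun hp => (ind_cond_mod Z j' p n).2 (h2 p hp)⟩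
    rw [← Finset.sum_subset (s₁ := (Icc 1 M).filter (fun n : ℕ => (∀ p ∈ pz y, ¬ Qz Z {j, j'} p n) ∧
      ∀ p ∈ D ∪ D', BB Z j j' D D' p (n % p)))]
    · rw [← nsmul_one, ← sum_const]
      apply sum_congr rfl
      intro n hn
      rw [mem_filter, hiff] at hn
      unfold ind
      rw [if_pos hn.2.2.1, if_pos hn.2.2.2, one_mul]
    · intro n hn
      rw [mem_filter] at hn
      unfold Sf
      rw [mem_filter]
      exact ⟨hn.1, hn.2.1⟩
    · intro n hn hn'
      unfold Sf at hn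
      rw [mem_filter] at hn
      rw [mem_filter, hiff] at hn'
      unfold ind
      by_cases h1 : ∀ p ∈ D, p ∣ (n + Z) ^ 2 + j
      · have h2 : ¬ ∀ p ∈ D', p ∣ (n + Z) ^ 2 + j' := fun h2 => hn' ⟨hn.1, hn.2, h1, h2⟩
        rw [if_neg h2, mul_zero]
      · rw [if_neg h1, zero_mul]
  rw [e5] at key
  refine key.trans ?_
  apply add_le_add le_rfl
  apply mul_le_mul_of_nonneg_right _ (Real.sqrt_nonneg _)
  rw [pow_add]
  exact mul_le_mul e3 e4 (prod_nonneg fun _ _ => Nat.cast_nonneg _) (by positivity)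

lemma ind_empty (Z j n : ℕ) : ind Z j ∅ n = 1 := by
  unfold ind
  simp

lemma hh_empty (j : ℕ) : hh j ∅ = 1 := by
  unfold hh
  simp

/-- the real inequality of the disjoint case -/
lemma real_disj (A A1 A2 A0 M h h' V δ s c : ℝ) (hh0 : 0 ≤ h) (hh1 : h ≤ 1) (hh0' : 0 ≤ h') (hh1' : h' ≤ 1)
    (hs : 0 ≤ s) (hc : 1 ≤ c)
    (k : |A - M * (h * h') * V| ≤ δ * (M * (h * h') * V) + c * s)
    (k1 : |A1 - M * h * V| ≤ δ * (M * h * V) + c * s)
    (k2 : |A2 - M * h' * V| ≤ δ * (M * h' * V) + c * s)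
    (k0 : |A0 - M * V| ≤ δ * (M * V) + c * s) :
    |A - h' * A1 - h * A2 + h * h' * A0| ≤ 4 * δ * (M * (h * h') * V) + 4 * (c * s) := by
  have hcs : 0 ≤ c * s := by positivity
  have e : A - h' * A1 - h * A2 + h * h' * A0 = (A - M * (h * h') * V) - h' * (A1 - M * h * V) -
      h * (A2 - M * h' * V) + h * h' * (A0 - M * V) := by ring
  rw [e]
  have i1 : |h' * (A1 - M * h * V)| ≤ h' * (δ * (M * h * V)) + c * s := by
    rw [abs_mul, abs_of_nonneg hh0']
    have := mul_le_mul_of_nonneg_left k1 hh0'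
    have h2 : h' * (c * s) ≤ 1 * (c * s) := mul_le_mul_of_nonneg_right hh1' hcs
    linarith
  have i2 : |h * (A2 - M * h' * V)| ≤ h * (δ * (M * h' * V)) + c * s := by
    rw [abs_mul, abs_of_nonneg hh0]
    have := mul_le_mul_of_nonneg_left k2 hh0
    have h2 : h * (c * s) ≤ 1 * (c * s) := mul_le_mul_of_nonneg_right hh1 hcs
    linarith
  have i3 : |h * h' * (A0 - M * V)| ≤ h * h' * (δ * (M * V)) + c * s := by
    have h0 : 0 ≤ h * h' := mul_nonneg hh0 hh0'
    have h1 : h * h' ≤ 1 := mul_le_one₀ hh1 hh0' hh1'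
    rw [abs_mul, abs_of_nonneg h0]
    have := mul_le_mul_of_nonneg_left k0 h0
    have h2 : h * h' * (c * s) ≤ 1 * (c * s) := mul_le_mul_of_nonneg_right h1 hcs
    linarith
  have j1 := abs_add_le ((A - M * (h * h') * V) - h' * (A1 - M * h * V) - h * (A2 - M * h' * V))
    (h * h' * (A0 - M * V))
  have j2 := abs_sub ((A - M * (h * h') * V) - h' * (A1 - M * h * V)) (h * (A2 - M * h' * V))
  have j3 := abs_sub (A - M * (h * h') * V) (h' * (A1 - M * h * V))
  have e1 : h' * (δ * (M * h * V)) = δ * (M * (h * h') * V) := by ring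
  have e2 : h * (δ * (M * h' * V)) = δ * (M * (h * h') * V) := by ring
  have e3 : h * h' * (δ * (M * V)) = δ * (M * (h * h') * V) := by ring
  rw [e1] at i1
  rw [e2] at i2
  rw [e3] at i3
  linarith

/-- the real inequality of the case of a common prime -/
lemma real_non (A1 A2 A0 M h h' V δ s c : ℝ) (hh0 : 0 ≤ h) (hh1 : h ≤ 1) (hh0' : 0 ≤ h') (hh1' : h' ≤ 1)
    (hM : 0 ≤ M) (hV : 0 ≤ V) (hδ : δ ≤ 1)
    (hs : 0 ≤ s) (hc : 1 ≤ c)
    (k1 : |A1 - M * h * V| ≤ δ * (M * h * V) + c * s)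
    (k2 : |A2 - M * h' * V| ≤ δ * (M * h' * V) + c * s)
    (k0 : |A0 - M * V| ≤ δ * (M * V) + c * s) :
    |0 - h' * A1 - h * A2 + h * h' * A0| ≤ 6 * (M * (h * h') * V) + 4 * (c * s) := by
  have hcs : 0 ≤ c * s := by positivity
  have b1 : |A1| ≤ 2 * (M * h * V) + c * s := by
    have h1 : |A1| ≤ |A1 - M * h * V| + |M * h * V| := by
      have := abs_add_le (A1 - M * h * V) (M * h * V)
      simpa using this
    have h2 : |M * h * V| = M * h * V := abs_of_nonneg (by positivity)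
    have h3 : δ * (M * h * V) ≤ 1 * (M * h * V) := mul_le_mul_of_nonneg_right hδ (by positivity)
    linarith
  have b2 : |A2| ≤ 2 * (M * h' * V) + c * s := by
    have h1 : |A2| ≤ |A2 - M * h' * V| + |M * h' * V| := by
      have := abs_add_le (A2 - M * h' * V) (M * h' * V)
      simpa using this
    have h2 : |M * h' * V| = M * h' * V := abs_of_nonneg (by positivity)
    have h3 : δ * (M * h' * V) ≤ 1 * (M * h' * V) := mul_le_mul_of_nonneg_right hδ (by positivity)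
    linarith
  have b0 : |A0| ≤ 2 * (M * V) + c * s := by
    have h1 : |A0| ≤ |A0 - M * V| + |M * V| := by
      have := abs_add_le (A0 - M * V) (M * V)
      simpa using this
    have h2 : |M * V| = M * V := abs_of_nonneg (by positivity)
    have h3 : δ * (M * V) ≤ 1 * (M * V) := mul_le_mul_of_nonneg_right hδ (by positivity)
    linarith
  have i1 : |h' * A1| ≤ 2 * (M * (h * h') * V) + c * s := by
    rw [abs_mul, abs_of_nonneg hh0']
    have h1 := mul_le_mul_of_nonneg_left b1 hh0'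
    have h2 : h' * (c * s) ≤ 1 * (c * s) := mul_le_mul_of_nonneg_right hh1' hcs
    have e : h' * (2 * (M * h * V) + c * s) = 2 * (M * (h * h') * V) + h' * (c * s) := by ring
    linarith
  have i2 : |h * A2| ≤ 2 * (M * (h * h') * V) + c * s := by
    rw [abs_mul, abs_of_nonneg hh0]
    have h1 := mul_le_mul_of_nonneg_left b2 hh0
    have h2 : h * (c * s) ≤ 1 * (c * s) := mul_le_mul_of_nonneg_right hh1 hcs
    have e : h * (2 * (M * h' * V) + c * s) = 2 * (M * (h * h') * V) + h * (c * s) := by ring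
    linarith
  have i3 : |h * h' * A0| ≤ 2 * (M * (h * h') * V) + c * s := by
    have h0 : 0 ≤ h * h' := mul_nonneg hh0 hh0'
    have h1 : h * h' ≤ 1 := mul_le_one₀ hh1 hh0' hh1'
    rw [abs_mul, abs_of_nonneg h0]
    have h3 := mul_le_mul_of_nonneg_left b0 h0
    have h2 : h * h' * (c * s) ≤ 1 * (c * s) := mul_le_mul_of_nonneg_right h1 hcs
    have e : h * h' * (2 * (M * V) + c * s) = 2 * (M * (h * h') * V) + h * h' * (c * s) := by ring
    linarith
  have j1 := abs_add_le (0 - h' * A1 - h * A2) (h * h' * A0)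
  have j2 := abs_sub (0 - h' * A1) (h * A2)
  have j3 : |0 - h' * A1| = |h' * A1| := by rw [zero_sub, abs_neg]
  linarith

open Classical in
/-- the correlations of the conditions of `D` and `D'` -/
theorem pairE : ∃ C x0 : ℕ, 1 ≤ C ∧ ∀ b : ℕ, C ≤ b → ∀ x y : ℕ, x0 ≤ y → y ^ (C * b) ≤ x →
    ∀ (Z M j j' : ℕ), j ≠ j' → j ≤ y → j' ≤ y → ∀ (D D' : Finset ℕ), (∀ p ∈ D, p.Prime ∧ y < p) →
      (∀ p ∈ D', p.Prime ∧ y < p) →
      |∑ n ∈ Sf Z M y {j, j'}, (ind Z j D n - hh j D) * (ind Z j' D' n - hh j' D')| ≤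
        (4 * (1 / 2 : ℝ) ^ b + if Disjoint D D' then 0 else 6) * (M * (hh j D * hh j' D') * VH {j, j'} y) +
          4 * (2 ^ (D.card + D'.card) * √(x : ℝ)) ∧
      (M : ℝ) * VH {j, j'} y ≤ 2 * (Sf Z M y {j, j'}).card + 2 * √(x : ℝ) := by
  obtain ⟨C, x0, hC, H⟩ := count_DD
  refine ⟨C, x0, hC, ?_⟩
  intro b hb x y hy hyx Z M j j' hjj hjy hjy' D D' hD hD'
  have hE : ∀ p ∈ (∅ : Finset ℕ), p.Prime ∧ y < p := by simp
  have hV : 0 ≤ VH {j, j'} y := VH_nonneg _ _
  have hM0 : (0 : ℝ) ≤ M := Nat.cast_nonneg _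
  have k1 := H b hb x y hy hyx Z M j j' D ∅ hD hE (disjoint_empty_right _)
  have k2 := H b hb x y hy hyx Z M j j' ∅ D' hE hD' (disjoint_empty_left _)
  have k0 := H b hb x y hy hyx Z M j j' ∅ ∅ hE hE (disjoint_empty_left _)
  simp only [ind_empty, hh_empty, mul_one, one_mul, card_empty, add_zero, zero_add, pow_zero] at k1 k2 k0
  have hpow1 : (2 : ℝ) ^ D.card ≤ 2 ^ (D.card + D'.card) := pow_le_pow_right₀ (by norm_num) (by omega)
  have hpow2 : (2 : ℝ) ^ D'.card ≤ 2 ^ (D.card + D'.card) := pow_le_pow_right₀ (by norm_num) (by omega)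
  have hpow0 : (1 : ℝ) ≤ 2 ^ (D.card + D'.card) := one_le_pow₀ (by norm_num)
  have hs : 0 ≤ √(x : ℝ) := Real.sqrt_nonneg _
  have k1' := k1.trans (add_le_add_right (mul_le_mul_of_nonneg_right hpow1 hs) _)
  have k2' := k2.trans (add_le_add_right (mul_le_mul_of_nonneg_right hpow2 hs) _)
  have k0' := k0.trans (add_le_add_right (le_mul_of_one_le_left hs hpow0) _)
  have hδ0 : (0 : ℝ) ≤ (1 / 2) ^ b := by positivity
  have hδ1 : ((1 : ℝ) / 2) ^ b ≤ 1 := pow_le_one₀ (by norm_num) (by norm_num)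
  have eE : ∑ n ∈ Sf Z M y {j, j'}, (ind Z j D n - hh j D) * (ind Z j' D' n - hh j' D') =
      ∑ n ∈ Sf Z M y {j, j'}, ind Z j D n * ind Z j' D' n -
        hh j' D' * ∑ n ∈ Sf Z M y {j, j'}, ind Z j D n -
        hh j D * ∑ n ∈ Sf Z M y {j, j'}, ind Z j' D' n +
        hh j D * hh j' D' * ∑ n ∈ Sf Z M y {j, j'}, (1 : ℝ) := by
    rw [mul_sum, mul_sum, mul_sum, ← sum_sub_distrib, ← sum_sub_distrib, ← sum_add_distrib]
    apply sum_congr rfl
    intro n _
    ring
  have hconj : (M : ℝ) * VH {j, j'} y ≤ 2 * (Sf Z M y {j, j'}).card + 2 * √(x : ℝ) := by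
    rw [sum_const, nsmul_eq_mul, mul_one] at k0
    have h1 : ((1 : ℝ) / 2) ^ b ≤ 1 / 2 := by
      calc ((1 : ℝ) / 2) ^ b ≤ (1 / 2) ^ 1 := pow_le_pow_of_le_one (by norm_num) (by norm_num) (by omega)
        _ = 1 / 2 := pow_one _
    have h2 := (abs_le.1 k0).1
    have h3 : 0 ≤ (M : ℝ) * VH {j, j'} y := mul_nonneg hM0 hV
    have h4 := mul_le_mul_of_nonneg_right h1 h3
    linarith
  refine ⟨?_, hconj⟩
  rw [eE]
  by_cases hdis : Disjoint D D'
  · rw [if_pos hdis, add_zero]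
    have k := H b hb x y hy hyx Z M j j' D D' hD hD' hdis
    exact real_disj _ _ _ _ M (hh j D) (hh j' D') (VH {j, j'} y) _ _ _ (hh_nonneg _ _) (hh_le_one _ _)
      (hh_nonneg _ _) (hh_le_one _ _) hs hpow0 k k1' k2' k0'
  · rw [if_neg hdis]
    have hA : ∑ n ∈ Sf Z M y {j, j'}, ind Z j D n * ind Z j' D' n = 0 := by
      apply sum_eq_zero
      intro n _
      rw [not_disjoint_iff] at hdis
      obtain ⟨p, hp, hp'⟩ := hdis
      unfold ind
      by_contra hne
      have h1 : ∀ p ∈ D, p ∣ (n + Z) ^ 2 + j := by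
        by_contra h
        rw [if_neg h, zero_mul] at hne
        exact hne rfl
      have h2 : ∀ p ∈ D', p ∣ (n + Z) ^ 2 + j' := by
        by_contra h
        rw [if_neg h, mul_zero] at hne
        exact hne rfl
      have h3 : (p : ℤ) ∣ ((n : ℤ) + Z) ^ 2 + j := by exact_mod_cast h1 p hp
      have h4 : (p : ℤ) ∣ ((n : ℤ) + Z) ^ 2 + j' := by exact_mod_cast h2 p hp'
      have h5 : (p : ℤ) ∣ (j : ℤ) - j' := by
        have := dvd_sub h3 h4
        have e : ((n : ℤ) + Z) ^ 2 + j - (((n : ℤ) + Z) ^ 2 + j') = (j : ℤ) - j' := by ring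
        rwa [e] at this
      have hpy := (hD p hp).2
      have h6 : (j : ℤ) - j' = 0 := by
        apply Int.eq_zero_of_abs_lt_dvd h5
        rw [abs_lt]
        constructor
        · have : (j' : ℤ) ≤ y := by exact_mod_cast hjy'
          have : (y : ℤ) < p := by exact_mod_cast hpy
          have : (0 : ℤ) ≤ j := Int.natCast_nonneg _
          omega
        · have : (j : ℤ) ≤ y := by exact_mod_cast hjy
          have : (y : ℤ) < p := by exact_mod_cast hpy
          have : (0 : ℤ) ≤ j' := Int.natCast_nonneg _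
          omega
      exact hjj (by omega)
    rw [hA]
    have h := real_non _ _ _ M (hh j D) (hh j' D') (VH {j, j'} y) _ _ _ (hh_nonneg _ _) (hh_le_one _ _)
      (hh_nonneg _ _) (hh_le_one _ _) hM0 hV hδ1 hs hpow0 k1' k2' k0'
    refine h.trans ?_
    have h1 : 0 ≤ M * (hh j D * hh j' D') * VH {j, j'} y := by
      have := hh_nonneg j D
      have := hh_nonneg j' D'
      positivity
    have h2 : 0 ≤ 4 * (1 / 2 : ℝ) ^ b * (M * (hh j D * hh j' D') * VH {j, j'} y) := by positivity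
    linarith

end Pool.Agent.H37SQ
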