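import Pool.Agent.H37SQ.Reg
import Pool.Agent.Y862.SQ.Main1
import Pool.Agent.T6.H57.LamR
import Pool.Agent.Y882.KW.Core4
import Pool.Agent.Y882.KW.Alm
import Pool.Agent.Y810.SQ.Law2

/-!
# Preparations for the assembly
-/

set_option autoImplicit false

namespace Pool.Agent.H37SQ

open Finset Filter Pool.Agent.H373R2.T7 Pool.Agent.Y486.SQ Pool.Agent.Y882 Pool.Agent.W23.DC Pool.Agent.Y882.KW
open Pool.Agent.Y862.SQ (rH leg z2 Ns V1)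

/-- a sum over a window -/
lemma sum_shift (f : ℕ → ℝ) (Z M : ℕ) : ∑ n ∈ Ioc Z (Z + M), f n = ∑ n ∈ Icc 1 M, f (n + Z) := by
  symm
  apply Finset.sum_bij (fun n _ => n + Z)
  · intro a ha
    rw [mem_Icc] at ha
    rw [mem_Ioc]
    omega
  · intro a _ b _ hab
    omega
  · intro b hb
    rw [mem_Ioc] at hb
    exact ⟨b - Z, by rw [mem_Icc]; omega, by omega⟩
  · intro a _
    rfl

/-- the first two moments -/
theorem moments : ∃ K0 y0 T0 : ℕ, ∀ Z M y T : ℕ, y0 ≤ y → y ^ K0 ≤ M → T0 ≤ T → 1 ≤ T → T ^ 4 ≤ M →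
    1 ≤ T * V1 y →
    ∑ n ∈ Icc 1 M, (Ns y T (n + Z) : ℝ) ^ 2 ≤ 7 * (M * (T * V1 y) ^ 2) ∧
    ∑ n ∈ Icc 1 M, (Ns y T (n + Z) : ℝ) ≤ 3 * (M * (T * V1 y)) := by
  obtain ⟨Ka, ya, Ta, ha⟩ := Pool.Agent.Y862.SQ.t_MOM 0 1 one_pos
  obtain ⟨Kb, yb, Tb, hb⟩ := Pool.Agent.Y862.SQ.t_MOM 1 1 one_pos
  refine ⟨max Ka Kb, max (max ya yb) 1, max Ta Tb, ?_⟩
  intro Z M y T hy hyM hT hT1 hT4 hμ
  have hy1 : 1 ≤ y := (le_max_right _ _).trans hy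
  have h1 := ha Z M y T (((le_max_left _ _).trans (le_max_left _ _)).trans hy)
    ((Nat.pow_le_pow_right hy1 (le_max_left _ _)).trans hyM) ((le_max_left _ _).trans hT)
  have h2 := hb Z M y T (((le_max_right _ _).trans (le_max_left _ _)).trans hy)
    ((Nat.pow_le_pow_right hy1 (le_max_right _ _)).trans hyM) ((le_max_right _ _).trans hT)
  obtain ⟨μ, hμd⟩ : ∃ μ : ℝ, μ = T * V1 y := ⟨_, rfl⟩
  rw [← hμd] at h1 h2 hμ ⊢
  have hM0 : (0 : ℝ) ≤ M := Nat.cast_nonneg _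
  have hTr : (1 : ℝ) ≤ T := by exact_mod_cast hT1
  have hsq : (T : ℝ) ^ 2 * √(M : ℝ) ≤ M := by
    have h3 : (T : ℝ) ^ 2 ≤ √(M : ℝ) := by
      apply Real.le_sqrt_of_sq_le
      have h5 : (T : ℝ) ^ 4 ≤ (M : ℝ) := by exact_mod_cast hT4
      have h6 : ((T : ℝ) ^ 2) ^ 2 = (T : ℝ) ^ 4 := by ring
      rw [h6]
      exact h5
    calc (T : ℝ) ^ 2 * √(M : ℝ) ≤ √(M : ℝ) * √(M : ℝ) := mul_le_mul_of_nonneg_right h3 (Real.sqrt_nonneg _)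
      _ = M := Real.mul_self_sqrt hM0
  have hsq1 : (T : ℝ) ^ 1 * √(M : ℝ) ≤ M := by
    refine le_trans ?_ hsq
    apply mul_le_mul_of_nonneg_right _ (Real.sqrt_nonneg _)
    exact pow_le_pow_right₀ hTr (by norm_num)
  have e1 : ∑ n ∈ Ioc Z (Z + M), ((Ns y T n).choose (0 + 1) : ℝ) = ∑ n ∈ Icc 1 M, (Ns y T (n + Z) : ℝ) := by
    rw [sum_shift]
    apply sum_congr rfl
    intro n _
    rw [zero_add, Nat.choose_one_right]
  have e2 : ∑ n ∈ Ioc Z (Z + M), ((Ns y T n).choose (1 + 1) : ℝ) =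
      ∑ n ∈ Icc 1 M, ((Ns y T (n + Z)).choose 2 : ℝ) := sum_shift (fun n => ((Ns y T n).choose 2 : ℝ)) Z M
  rw [e1] at h1
  rw [e2] at h2
  have k1 := (abs_le.1 h1).2
  have k2 := (abs_le.1 h2).2
  norm_num at k1 k2
  have hMμ : (M : ℝ) ≤ M * μ := le_mul_of_one_le_right hM0 hμ
  have hMμ2 : (M : ℝ) * μ ≤ M * μ ^ 2 := by
    have : μ ≤ μ ^ 2 := le_self_pow₀ hμ two_ne_zero
    exact mul_le_mul_of_nonneg_left this hM0
  have s1 : ∑ n ∈ Icc 1 M, (Ns y T (n + Z) : ℝ) ≤ 3 * (M * μ) := by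
    rw [pow_one] at hsq1
    linarith
  refine ⟨?_, s1⟩
  have e3 : ∑ n ∈ Icc 1 M, (Ns y T (n + Z) : ℝ) ^ 2 = 2 * ∑ n ∈ Icc 1 M, ((Ns y T (n + Z)).choose 2 : ℝ) +
      ∑ n ∈ Icc 1 M, (Ns y T (n + Z) : ℝ) := by
    rw [mul_sum, ← sum_add_distrib]
    apply sum_congr rfl
    intro n _
    exact Pool.Agent.Y862.SQ.two_choose _
  rw [e3]
  linarith

/-- choice of the accuracy -/
theorem pick_b (C : ℕ) (σ e0 κ0 : ℝ) (hC : 1 ≤ C) (hσ : 0 < σ) (he : 0 < e0) (hκ : 0 < κ0) :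
    ∃ b : ℕ, C ≤ b ∧ 1 ≤ b ∧ σ / (C * b) ≤ e0 ∧ (1 / 2 : ℝ) ^ b ≤ κ0 * (σ / (C * b)) ^ 4 := by
  have hC0 : (0 : ℝ) < C := by exact_mod_cast hC
  have h1 : Tendsto (fun n : ℕ => (n : ℝ) ^ 4 * (1 / 2 : ℝ) ^ n) atTop (nhds 0) :=
    tendsto_pow_const_mul_const_pow_of_abs_lt_one 4 (by rw [abs_of_pos] <;> norm_num)
  have h2 := h1.eventually_le_const (show (0 : ℝ) < κ0 * (σ / C) ^ 4 by positivity)
  have h3 : ∀ᶠ b : ℕ in atTop, σ / (C * e0) ≤ b := tendsto_natCast_atTop_atTop.eventually_ge_atTop _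
  obtain ⟨b, hb1, hb2, hb3, hb4⟩ := (h2.and (h3.and ((eventually_ge_atTop C).and (eventually_ge_atTop 1)))).exists
  have hb0 : (0 : ℝ) < b := by exact_mod_cast hb4
  refine ⟨b, hb3, hb4, ?_, ?_⟩
  · rw [div_le_iff₀ (by positivity)] at hb2 ⊢
    linarith
  · have e : κ0 * (σ / (C * b)) ^ 4 = κ0 * (σ / C) ^ 4 / (b : ℝ) ^ 4 := by
      field_simp
    rw [e, le_div_iff₀ (by positivity)]
    linarith

open Classical in
/-- the weight of the middle primes is the whole weight if there are no small prime factors -/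
lemma ww_eq (Y : ℕ) (hY : 2 ≤ Y) (ε₁ ζ υ a b : ℝ) (y : ℕ) (hy : y = ⌈(Y : ℝ) ^ ε₁⌉₊ - 1) (N : ℕ)
    (h0 : ∀ p ∈ pz y, ¬ p ∣ N) : WW Y ζ υ a b N = WB Y ε₁ ζ υ a b N := by
  have hYr : (2 : ℝ) ≤ Y := by exact_mod_cast hY
  have hY0 : (0 : ℝ) < Y := by linarith
  have hpos : 0 < ⌈(Y : ℝ) ^ ε₁⌉₊ := Nat.ceil_pos.2 (by positivity)
  have hiff : (∀ p ∈ PZ Y ζ, ¬ p ∣ N) ↔ (∀ p ∈ pr Y ε₁ ζ, ¬ p ∣ N) := by
    constructor
    · intro h p hp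
      apply h p
      unfold pr at hp
      unfold PZ
      rw [mem_filter] at hp ⊢
      exact ⟨hp.1, hp.2.1, hp.2.2.2⟩
    · intro h p hp hd
      unfold PZ at hp
      rw [mem_filter] at hp
      obtain ⟨hp1, hp2, hp3⟩ := hp
      rcases lt_or_ge (tt Y p) ε₁ with h4 | h4
      · have h5 := (tt_lt Y p ε₁ hY hp2.pos).1 h4
        have h6 : p < ⌈(Y : ℝ) ^ ε₁⌉₊ := Nat.lt_ceil.2 h5
        apply h0 p _ hd
        rw [mem_pz]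
        exact ⟨by omega, hp2⟩
      · apply h p _ hd
        unfold pr
        rw [mem_filter]
        exact ⟨hp1, hp2, h4, hp3⟩
  unfold WW WB
  by_cases h : ∀ p ∈ PZ Y ζ, ¬ p ∣ N
  · rw [if_pos h, if_pos (hiff.1 h)]
  · rw [if_neg h, if_neg (fun h' => h (hiff.2 h'))]

open Classical in
/-- the sifted weight is at most the indicator function of the positive weights -/
lemma ok_w_le (Y : ℕ) (hY : 2 ≤ Y) (ε₁ ζ υ a b : ℝ) (hb : 0 ≤ b) (hab : b * υ ≤ a)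
    (y : ℕ) (hy : y = ⌈(Y : ℝ) ^ ε₁⌉₊ - 1) (c : Finset ℕ → ℝ)
    (hc : ∀ N : ℕ, VV (pr Y ε₁ υ) c (fun p => if p ∣ N then 1 else 0) ≤ WB Y ε₁ ζ υ a b N) (Z j n : ℕ) :
    ok Z y j n * wj (pr Y ε₁ υ) c Z j n ≤ if 0 < WW Y ζ υ a b ((n + Z) ^ 2 + j) then 1 else 0 := by
  have hnn : (0 : ℝ) ≤ if 0 < WW Y ζ υ a b ((n + Z) ^ 2 + j) then 1 else 0 := by split_ifs <;> norm_num
  unfold ok
  split_ifs with h h2 h2
  · rw [one_mul]
    unfold wj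
    refine (hc _).trans ?_
    rw [← ww_eq Y hY ε₁ ζ υ a b y hy _ h]
    exact WW_le_one Y ζ υ a b hb hab _
  · rw [one_mul]
    unfold wj
    refine (hc _).trans ?_
    rw [← ww_eq Y hY ε₁ ζ υ a b y hy _ h]
    exact not_lt.1 h2
  · rw [zero_mul]
    norm_num
  · rw [zero_mul]

/-- the final real inequality -/
lemma fin_real (ε' a1 κ Pb ρ B μ G0 M Ss : ℝ) (hM : 0 ≤ M) (hμ : 1 ≤ μ)
    (h0 : Ss ≤ a1 ^ 2 * (κ * Pb ^ 2 * (16 * (M * μ ^ 2)) + ρ * M) + 12 * B ^ 2 * (M * μ))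
    (h1 : a1 ^ 2 * (κ * Pb ^ 2) * 16 ≤ ε' / 8 * (G0 / 4) ^ 2)
    (h2 : a1 ^ 2 * ρ ≤ ε' / 16 * (G0 / 4) ^ 2) (h3 : 12 * B ^ 2 ≤ ε' / 16 * (G0 / 4) ^ 2 * μ)
    (h4 : 0 ≤ ε' / 16 * (G0 / 4) ^ 2) :
    Ss ≤ ε' / 4 * M * (G0 / 4 * μ) ^ 2 := by
  have hMμ : 0 ≤ M * μ := by positivity
  have hMμ2 : 0 ≤ M * μ ^ 2 := by positivity
  have hle : M ≤ M * μ ^ 2 := le_mul_of_one_le_right hM (one_le_pow₀ hμ)
  have k1 := mul_le_mul_of_nonneg_right h1 hMμ2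
  have k2 := mul_le_mul_of_nonneg_right h2 hM
  have k2' := mul_le_mul_of_nonneg_left hle h4
  have k3 := mul_le_mul_of_nonneg_right h3 hMμ
  have e : ε' / 4 * M * (G0 / 4 * μ) ^ 2 = ε' / 8 * (G0 / 4) ^ 2 * (M * μ ^ 2) +
      ε' / 16 * (G0 / 4) ^ 2 * (M * μ ^ 2) + ε' / 16 * (G0 / 4) ^ 2 * μ * (M * μ) := by ring
  rw [e]
  refine h0.trans ?_
  have e2 : a1 ^ 2 * (κ * Pb ^ 2 * (16 * (M * μ ^ 2)) + ρ * M) + 12 * B ^ 2 * (M * μ) =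
      a1 ^ 2 * (κ * Pb ^ 2) * 16 * (M * μ ^ 2) + a1 ^ 2 * ρ * M + 12 * B ^ 2 * (M * μ) := by ring
  rw [e2]
  linarith

/-- Chebyshev's inequality -/
lemma cheb (M : ℕ) (F : ℕ → ℝ) (t A : ℝ) (ht : 0 < t) (hA : ∑ n ∈ Icc 1 M, F n ^ 2 ≤ A * t ^ 2) :
    (((Icc 1 M).filter (fun n => F n < -t)).card : ℝ) ≤ A := by
  have h1 : (((Icc 1 M).filter (fun n => F n < -t)).card : ℝ) * t ^ 2 ≤ ∑ n ∈ Icc 1 M, F n ^ 2 := by
    calc (((Icc 1 M).filter (fun n => F n < -t)).card : ℝ) * t ^ 2 =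
        ∑ _n ∈ (Icc 1 M).filter (fun n => F n < -t), t ^ 2 := by rw [sum_const, nsmul_eq_mul]
      _ ≤ ∑ n ∈ (Icc 1 M).filter (fun n => F n < -t), F n ^ 2 := by
          apply sum_le_sum
          intro n hn
          have h2 := (mem_filter.1 hn).2
          have h3 : t ^ 2 ≤ (-F n) ^ 2 := pow_le_pow_left₀ ht.le (by linarith) 2
          linarith [neg_sq (F n)]
      _ ≤ ∑ n ∈ Icc 1 M, F n ^ 2 :=
          sum_le_sum_of_subset_of_nonneg (filter_subset _ _) fun _ _ _ => sq_nonneg _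
  have ht2 : 0 < t ^ 2 := by positivity
  exact le_of_mul_le_mul_right (h1.trans hA) ht2

/-- powers of the logarithm -/
lemma ev_log (k : ℕ) (C s : ℝ) (hC : 0 < C) (hs : 0 < s) : ∀ᶠ X : ℕ in atTop, C * Real.log X ^ k ≤ (X : ℝ) ^ s := by
  have h1 : Tendsto (fun x : ℝ => Real.log x ^ (k : ℝ) / x ^ s) atTop (nhds 0) :=
    (isLittleO_log_rpow_rpow_atTop (k : ℝ) hs).tendsto_div_nhds_zero
  have h2 := h1.eventually_le_const (show (0 : ℝ) < 1 / C by positivity)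
  have h3 := tendsto_natCast_atTop_atTop.eventually (h2.and (eventually_gt_atTop (0 : ℝ)))
  filter_upwards [h3] with X hX
  obtain ⟨h4, h5⟩ := hX
  have h6 : (0 : ℝ) < (X : ℝ) ^ s := by positivity
  rw [div_le_div_iff₀ h6 hC, one_mul, Real.rpow_natCast] at h4
  linarith

end Pool.Agent.H37SQ
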