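import Pool.Agent.H37SQ.Mom
import Pool.Agent.H37AC.Sq
import Pool.Agent.Y848.SQ.SW3
import Pool.Agent.Y420.SQ.Tail
import Pool.Agent.Y882.SI.Quad
import Pool.Agent.Y882.PX.MerX

/-!
# Regularity of the numbers of the roots of `X ^ 2 + j`, bounds for the weights, squares
-/

set_option autoImplicit false

namespace Pool.Agent.H37SQ

open Finset Filter Pool.Agent.H373R2.T7 Pool.Agent.Y486.SQ Pool.Agent.Y882 Pool.Agent.W23.DC
open Pool.Agent.Y862.SQ (rH leg z2 Ns V1)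
open Pool.Agent.W378.DC.TMP

/-- the densities of `X ^ 2 + j` are regular, uniformly in `j ≤ log ^ 50 Y` -/
theorem reg (ε₁ υ η : ℝ) (hε : 0 < ε₁) (hυ : υ ≤ 1) (hη : 0 < η) : ∃ Y0 : ℕ, ∀ Y : ℕ, Y0 ≤ Y →
    ∀ j : ℕ, 1 ≤ j → (j : ℝ) ≤ Real.log Y ^ 50 →
      Mer (pr Y ε₁ υ) (tt Y) (fun p => (rH {j} p : ℝ) / p) ε₁ υ η := by
  classical
  obtain ⟨N1, hN1⟩ := Pool.Agent.W378.DC.MP ε₁ (η / 3) hε (by linarith)
  obtain ⟨T0, hT0⟩ := Pool.Agent.Y848.SQ.t_SW3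
  have ev1 : ∀ᶠ Y : ℕ in atTop, (3 / η : ℝ) + 3 ≤ (Y : ℝ) ^ ε₁ :=
    ((tendsto_rpow_atTop hε).comp tendsto_natCast_atTop_atTop).eventually_ge_atTop _
  have hlogt : Tendsto (fun Y : ℕ => Real.log Y) atTop atTop :=
    Real.tendsto_log_atTop.comp tendsto_natCast_atTop_atTop
  have ev2 : ∀ᶠ Y : ℕ in atTop, (T0 : ℝ) + 6 / η + 2 + 4 / ε₁ ^ 2 + 4 / ε₁ ≤ Real.log Y :=
    hlogt.eventually_ge_atTop _
  obtain ⟨Y1, hY1⟩ := eventually_atTop.1 (ev1.and (ev2.and (eventually_ge_atTop 3)))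
  refine ⟨max N1 Y1, fun Y hY j hj1 hjY => ?_⟩
  obtain ⟨e1, e2, e4⟩ := hY1 Y ((le_max_right _ _).trans hY)
  have hYN1 : N1 ≤ Y := (le_max_left _ _).trans hY
  have hYr : (3 : ℝ) ≤ Y := by exact_mod_cast e4
  have hY0 : (0 : ℝ) < Y := by linarith
  have hY1r : (1 : ℝ) < Y := by linarith
  set l : ℝ := Real.log Y with hl
  have hq1 : (0 : ℝ) ≤ T0 := Nat.cast_nonneg _
  have hq2 : 0 < 6 / η := by positivity
  have hq3 : 0 < 4 / ε₁ ^ 2 := by positivity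
  have hq4 : 0 < 4 / ε₁ := by positivity
  have hl2 : 2 ≤ l := by linarith
  set T : ℕ := ⌊l ^ 50⌋₊ with hT
  have hl50 : l ≤ l ^ 50 := le_self_pow₀ (by linarith) (by norm_num)
  have hTge : l - 1 ≤ T := by
    have := Nat.lt_floor_add_one (l ^ 50)
    rw [← hT] at this
    linarith
  have hTle : (T : ℝ) ≤ l ^ 50 := Nat.floor_le (by positivity)
  have hTT0 : T0 ≤ T := by
    have : (T0 : ℝ) ≤ T := by linarith
    exact_mod_cast this
  have hjT : j ∈ Icc 1 T := by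
    rw [mem_Icc]
    exact ⟨hj1, Nat.le_floor hjY⟩
  have hT1 : (1 : ℝ) ≤ T := by linarith
  have hTη : 2 / (T : ℝ) ≤ η / 3 := by
    rw [div_le_iff₀ (by linarith)]
    have h1 : 6 / η ≤ T := by linarith
    rw [div_le_iff₀ hη] at h1
    linarith
  -- the threshold
  have hz2 : z2 T ≤ (Y : ℝ) ^ (ε₁ / 2) := by
    unfold z2
    rw [Real.rpow_def_of_pos hY0]
    apply Real.exp_le_exp.2
    rw [← hl]
    have h1 : (T : ℝ) ^ (1 / 100 : ℝ) ≤ l ^ (1 / 2 : ℝ) := by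
      calc (T : ℝ) ^ (1 / 100 : ℝ) ≤ (l ^ 50) ^ (1 / 100 : ℝ) :=
            Real.rpow_le_rpow (Nat.cast_nonneg _) hTle (by norm_num)
        _ = l ^ (1 / 2 : ℝ) := by
            rw [← Real.rpow_natCast, ← Real.rpow_mul (by linarith)]
            norm_num
    have h2 : l ^ (1 / 2 : ℝ) ≤ l * (ε₁ / 2) := by
      rw [← Real.sqrt_eq_rpow, Real.sqrt_le_left (by positivity)]
      have h3 : 4 / ε₁ ^ 2 ≤ l := by linarith
      rw [div_le_iff₀ (by positivity)] at h3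
      calc l = l * 4 / 4 := by ring
        _ ≤ l * (l * ε₁ ^ 2) / 4 := by gcongr
        _ = (l * (ε₁ / 2)) ^ 2 := by ring
    exact h1.trans h2
  have hpow2 : (Y : ℝ) ^ (ε₁ / 2) + 1 ≤ (Y : ℝ) ^ ε₁ := by
    have h1 : (Y : ℝ) ^ ε₁ = (Y : ℝ) ^ (ε₁ / 2) * (Y : ℝ) ^ (ε₁ / 2) := by
      rw [← Real.rpow_add hY0]
      congr 1
      ring
    have h2 : 2 ≤ (Y : ℝ) ^ (ε₁ / 2) := by
      rw [Real.rpow_def_of_pos hY0, ← hl]
      have h3 : 4 / ε₁ ≤ l := by linarith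
      rw [div_le_iff₀ hε] at h3
      have h4 : 1 ≤ l * (ε₁ / 2) := by linarith
      calc (2 : ℝ) ≤ Real.exp 1 := by linarith [Real.exp_one_gt_d9]
        _ ≤ _ := Real.exp_le_exp.2 h4
    rw [h1]
    have h3 := mul_le_mul_of_nonneg_right h2 (show 0 ≤ (Y : ℝ) ^ (ε₁ / 2) by positivity)
    linarith
  intro u v hu huv hv
  have hv1 : v ≤ 1 := hv.trans hυ
  have hset : (pr Y ε₁ υ).filter (fun p => u ≤ tt Y p ∧ tt Y p < v) = pr Y u v := by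
    ext p
    unfold pr
    rw [mem_filter, mem_filter, mem_filter]
    constructor
    · rintro ⟨⟨h1, h2, h3, h4⟩, h5, h6⟩
      exact ⟨h1, h2, h5, h6⟩
    · rintro ⟨h1, h2, h5, h6⟩
      exact ⟨⟨h1, h2, hu.trans h5, h6.trans_le hv⟩, h5, h6⟩
  rw [hset]
  have m1 := hN1 Y hYN1 u v hu huv hv1
  rw [pr_eq (by omega) hv1] at m1 ⊢
  have hmono : (Y : ℝ) ^ u ≤ (Y : ℝ) ^ v := Real.rpow_le_rpow_of_exponent_le hY1r.le huv
  have hu' : (Y : ℝ) ^ ε₁ ≤ (Y : ℝ) ^ u := Real.rpow_le_rpow_of_exponent_le hY1r.le hu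
  have hAB : ⌈(Y : ℝ) ^ u⌉₊ - 1 ≤ ⌈(Y : ℝ) ^ v⌉₊ - 1 := Nat.sub_le_sub_right (Nat.ceil_mono hmono) 1
  have hAl : (Y : ℝ) ^ ε₁ - 1 ≤ ((⌈(Y : ℝ) ^ u⌉₊ - 1 : ℕ) : ℝ) := by
    have h1 := Nat.le_ceil ((Y : ℝ) ^ u)
    have h2 : 1 ≤ ⌈(Y : ℝ) ^ u⌉₊ := Nat.ceil_pos.2 (by positivity)
    rw [Nat.cast_sub h2]
    push_cast
    linarith
  set A := ⌈(Y : ℝ) ^ u⌉₊ - 1 with hA
  set B := ⌈(Y : ℝ) ^ v⌉₊ - 1 with hB
  have hAη : 3 / η ≤ A := by linarith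
  have hA2r : (2 : ℝ) ≤ A := by
    have : 0 < 3 / η := by positivity
    linarith
  have hA2 : 2 ≤ A := by exact_mod_cast hA2r
  have m2 := shift_prime (A := A) (B := B) (by omega) hAB
  rw [Finset.sum_sub_distrib] at m2
  have hzA : z2 T ≤ A := by linarith
  have hsum : ∑ p ∈ (Ioc A B).filter Nat.Prime, (rH {j} p : ℝ) / p =
      ∑ p ∈ (Ioc A B).filter Nat.Prime, 1 / (p : ℝ) + ∑ p ∈ (Ioc A B).filter Nat.Prime, (leg j p : ℝ) / p := by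
    rw [← sum_add_distrib]
    apply sum_congr rfl
    intro p hp
    rw [mem_filter, mem_Ioc] at hp
    have h2 := Pool.Agent.Y420.SQ.rH_single j p hp.2 (by omega)
    have h3 : (rH {j} p : ℝ) = (leg j p : ℝ) + 1 := by exact_mod_cast h2
    rw [h3]
    ring
  rw [hsum]
  have hsplit : ∑ p ∈ (Ioc A B).filter Nat.Prime, (leg j p : ℝ) / p =
      ∑ p ∈ (Pool.Agent.Y862.SQ.pr B).filter (fun p : ℕ => z2 T < p), (leg j p : ℝ) / p -
      ∑ p ∈ (Pool.Agent.Y862.SQ.pr A).filter (fun p : ℕ => z2 T < p), (leg j p : ℝ) / p := by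
    rw [eq_sub_iff_add_eq, ← sum_union]
    · congr 1
      ext p
      unfold Pool.Agent.Y862.SQ.pr
      simp only [mem_union, mem_filter, mem_Ioc, mem_Icc]
      constructor
      · rintro (⟨⟨h3, h4⟩, h5⟩ | ⟨⟨⟨h3, h4⟩, h5⟩, h6⟩)
        · refine ⟨⟨⟨by omega, h4⟩, h5⟩, ?_⟩
          have : (A : ℝ) < p := by exact_mod_cast h3
          linarith
        · exact ⟨⟨⟨h3, by omega⟩, h5⟩, h6⟩
      · rintro ⟨⟨⟨h3, h4⟩, h5⟩, h6⟩
        rcases le_or_gt p A with h | h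
        · exact Or.inr ⟨⟨⟨h3, h⟩, h5⟩, h6⟩
        · exact Or.inl ⟨⟨h, h4⟩, h5⟩
    · rw [disjoint_left]
      intro p hp hp'
      unfold Pool.Agent.Y862.SQ.pr at hp'
      rw [mem_filter, mem_Ioc] at hp
      rw [mem_filter, mem_filter, mem_Icc] at hp'
      omega
  have m3 := hT0 T hTT0 j hjT B
  have m3' := hT0 T hTT0 j hjT A
  have m4 : |∑ p ∈ (Ioc A B).filter Nat.Prime, (leg j p : ℝ) / p| ≤ η / 3 := by
    rw [hsplit]
    refine (abs_sub _ _).trans ?_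
    have h1 : 1 / (T : ℝ) + 1 / T = 2 / T := by ring
    linarith
  have m5 : 1 / (A : ℝ) ≤ η / 3 := by
    rw [div_le_iff₀ (by linarith)]
    rw [div_le_iff₀ hη] at hAη
    linarith
  obtain ⟨a1, a2⟩ := abs_le.1 m1
  obtain ⟨a3, a4⟩ := abs_le.1 m4
  rw [abs_le]
  constructor <;> linarith [m2.1, m2.2]

/-- the bound for the product of `1 + ρ(p) / p` -/
theorem Pi'_le (Y : ℕ) (ε₁ υ η : ℝ) (j : ℕ) (hε : 0 < ε₁) (hευ : ε₁ ≤ υ) (hυ : υ ≤ 1) (hη : η ≤ 1)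
    (hM : Mer (pr Y ε₁ υ) (tt Y) (fun p => (rH {j} p : ℝ) / p) ε₁ υ η) :
    Pi' (pr Y ε₁ υ) j ≤ 3 / ε₁ := by
  classical
  have h1 := hM ε₁ υ le_rfl hευ le_rfl
  have hset : (pr Y ε₁ υ).filter (fun p => ε₁ ≤ tt Y p ∧ tt Y p < υ) = pr Y ε₁ υ := by
    apply filter_true_of_mem
    intro p hp
    unfold pr at hp
    exact ⟨(mem_filter.1 hp).2.2.1, (mem_filter.1 hp).2.2.2⟩
  rw [hset] at h1
  have h2 := (abs_le.1 h1).2
  have hυ0 : 0 < υ := hε.trans_le hευ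
  have h3 : Real.log (υ / ε₁) ≤ Real.log (1 / ε₁) := by
    apply Real.log_le_log (by positivity)
    exact div_le_div_of_nonneg_right hυ hε.le
  calc Pi' (pr Y ε₁ υ) j ≤ ∏ p ∈ pr Y ε₁ υ, Real.exp ((rH {j} p : ℝ) / p) := by
        apply Finset.prod_le_prod
        · intro p _
          positivity
        · intro p _
          have := Real.add_one_le_exp ((rH {j} p : ℝ) / p)
          linarith
    _ = Real.exp (∑ p ∈ pr Y ε₁ υ, (rH {j} p : ℝ) / p) := by rw [Real.exp_sum]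
    _ ≤ Real.exp (Real.log (1 / ε₁) + 1) := Real.exp_le_exp.2 (by linarith)
    _ = 1 / ε₁ * Real.exp 1 := by rw [Real.exp_add, Real.exp_log (by positivity)]
    _ ≤ 1 / ε₁ * 3 := by
        apply mul_le_mul_of_nonneg_left _ (by positivity)
        linarith [Real.exp_one_lt_d9]
    _ = 3 / ε₁ := by ring

/-- the bound for the expected value of the weights -/
theorem vj_le (P : Finset ℕ) (c : Finset ℕ → ℝ) (a1 : ℝ) (hc : ∀ D, |c D| ≤ a1) (j : ℕ) :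
    |vj P c j| ≤ a1 * Pi' P j := by
  unfold vj VV
  refine (abs_sum_le_sum_abs _ _).trans ?_
  rw [← sum_hh, mul_sum]
  apply sum_le_sum
  intro D _
  rw [abs_mul]
  apply mul_le_mul (hc D) _ (abs_nonneg _) ((abs_nonneg _).trans (hc D))
  have h : 0 ≤ ∏ p ∈ D, (rH {j} p : ℝ) / p := prod_nonneg fun p _ => by positivity
  rw [abs_of_nonneg h]
  exact le_rfl

/-- few large prime factors -/
theorem few_large (Y : ℕ) (hY : 2 ≤ Y) (ε₁ S : ℝ) (hε : 0 < ε₁) (E : Finset ℕ)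
    (hE : ∀ p ∈ E, (Y : ℝ) ^ ε₁ ≤ p) (m : ℕ) (hm : S / ε₁ ≤ m)
    (hN : ((∏ p ∈ E, p : ℕ) : ℝ) ≤ (Y : ℝ) ^ S) : E.card ≤ m := by
  have hYr : (2 : ℝ) ≤ Y := by exact_mod_cast hY
  have hY0 : (0 : ℝ) < Y := by linarith
  have h1 : ((Y : ℝ) ^ ε₁) ^ E.card ≤ (Y : ℝ) ^ S := by
    refine le_trans ?_ hN
    push_cast
    rw [← prod_const]
    exact Finset.prod_le_prod (fun _ _ => by positivity) hE
  rw [← Real.rpow_natCast, ← Real.rpow_mul hY0.le] at h1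
  have h2 := (Real.rpow_le_rpow_left_iff (by linarith)).1 h1
  have h3 : (E.card : ℝ) ≤ S / ε₁ := by
    rw [le_div_iff₀ hε]
    linarith
  exact_mod_cast h3.trans hm

/-- the bound for the weights -/
theorem wj_le (Y : ℕ) (hY : 2 ≤ Y) (ε₁ υ S : ℝ) (hε : 0 < ε₁) (c : Finset ℕ → ℝ) (a1 : ℝ)
    (hc : ∀ D, |c D| ≤ a1) (m : ℕ) (hm : S / ε₁ ≤ m) (Z j n : ℕ) (hN0 : (n + Z) ^ 2 + j ≠ 0)
    (hN : (((n + Z) ^ 2 + j : ℕ) : ℝ) ≤ (Y : ℝ) ^ S) :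
    |wj (pr Y ε₁ υ) c Z j n| ≤ a1 * 2 ^ m := by
  classical
  have ha1 : 0 ≤ a1 := (abs_nonneg _).trans (hc ∅)
  set N : ℕ := (n + Z) ^ 2 + j with hNd
  set E : Finset ℕ := (pr Y ε₁ υ).filter (fun p => p ∣ N) with hE
  have hEp : ∀ p ∈ E, p.Prime ∧ (Y : ℝ) ^ ε₁ ≤ p ∧ p ∣ N := by
    intro p hp
    rw [hE, mem_filter] at hp
    have := Pool.Agent.Y882.PX.pr_mem Y p ε₁ υ hY hp.1
    exact ⟨this.1, this.2.1, hp.2⟩
  have hprod : ∏ p ∈ E, p ∣ N := by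
    apply Finset.prod_primes_dvd
    · intro p hp
      exact (hEp p hp).1.prime
    · intro p hp
      exact (hEp p hp).2.2
  have hEm : E.card ≤ m := by
    apply few_large Y hY ε₁ S hε E (fun p hp => (hEp p hp).2.1) m hm
    refine le_trans ?_ hN
    exact_mod_cast Nat.le_of_dvd (Nat.pos_of_ne_zero hN0) hprod
  unfold wj VV
  refine (abs_sum_le_sum_abs _ _).trans ?_
  have h1 : ∑ D ∈ (pr Y ε₁ υ).powerset, |c D * ∏ p ∈ D, (if p ∣ (n + Z) ^ 2 + j then (1 : ℝ) else 0)| ≤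
      ∑ D ∈ (pr Y ε₁ υ).powerset, (if D ⊆ E then a1 else 0) := by
    apply sum_le_sum
    intro D hD
    rw [mem_powerset] at hD
    rw [Pool.Agent.Y882.prod_ind]
    by_cases h : ∀ p ∈ D, p ∣ (n + Z) ^ 2 + j
    · have h2 : D ⊆ E := by
        intro p hp
        rw [hE, mem_filter]
        exact ⟨hD hp, h p hp⟩
      rw [if_pos h, if_pos h2, mul_one]
      exact hc D
    · rw [if_neg h, mul_zero, abs_zero]
      split_ifs
      · exact ha1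
      · exact le_rfl
  refine h1.trans ?_
  rw [← sum_filter, sum_const, nsmul_eq_mul]
  have h2 : ((pr Y ε₁ υ).powerset.filter (fun D => D ⊆ E)).card ≤ 2 ^ m := by
    calc ((pr Y ε₁ υ).powerset.filter (fun D => D ⊆ E)).card ≤ E.powerset.card := by
          apply card_le_card
          intro D hD
          rw [mem_powerset]
          exact (mem_filter.1 hD).2
      _ = 2 ^ E.card := card_powerset E
      _ ≤ 2 ^ m := Nat.pow_le_pow_right (by norm_num) hEm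
  have h3 : (((pr Y ε₁ υ).powerset.filter (fun D => D ⊆ E)).card : ℝ) ≤ 2 ^ m := by exact_mod_cast h2
  calc (((pr Y ε₁ υ).powerset.filter (fun D => D ⊆ E)).card : ℝ) * a1 ≤ 2 ^ m * a1 :=
        mul_le_mul_of_nonneg_right h3 ha1
    _ = a1 * 2 ^ m := by ring

/-- few `n` with a large square factor of some `n ^ 2 + j` -/
theorem few_sq (Y : ℕ) (hY : 2 ≤ Y) (ζ υ : ℝ) (Z M T : ℕ) (h2 : 2 < (Y : ℝ) ^ ζ)
    (hT : (T : ℝ) < (Y : ℝ) ^ ζ) :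
    (((Icc 1 M).filter (fun n => ∃ j ∈ Icc 1 T, ∃ q ∈ pr Y ζ υ, q ^ 2 ∣ (n + Z) ^ 2 + j)).card : ℝ) ≤
      T * (4 * M / (Y : ℝ) ^ ζ + 2 * (Y : ℝ) ^ υ) := by
  classical
  have hYr : (2 : ℝ) ≤ Y := by exact_mod_cast hY
  have hY0 : (0 : ℝ) < Y := by linarith
  have hYζ : (0 : ℝ) < (Y : ℝ) ^ ζ := by positivity
  have hsub : (Icc 1 M).filter (fun n => ∃ j ∈ Icc 1 T, ∃ q ∈ pr Y ζ υ, q ^ 2 ∣ (n + Z) ^ 2 + j) ⊆
      (Icc 1 T).biUnion (fun j => (pr Y ζ υ).biUnion (fun q =>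
        (Icc 1 M).filter (fun n => q ^ 2 ∣ (n + Z) ^ 2 + j))) := by
    intro n hn
    rw [mem_filter] at hn
    obtain ⟨hn1, j, hj, q, hq, hd⟩ := hn
    rw [mem_biUnion]
    refine ⟨j, hj, ?_⟩
    rw [mem_biUnion]
    exact ⟨q, hq, mem_filter.2 ⟨hn1, hd⟩⟩
  have hc1 : (((Icc 1 M).filter (fun n => ∃ j ∈ Icc 1 T, ∃ q ∈ pr Y ζ υ, q ^ 2 ∣ (n + Z) ^ 2 + j)).card : ℝ) ≤
      ∑ j ∈ Icc 1 T, ∑ q ∈ pr Y ζ υ, (((Icc 1 M).filter (fun n => q ^ 2 ∣ (n + Z) ^ 2 + j)).card : ℝ) := by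
    have h := (card_le_card hsub).trans (card_biUnion_le.trans (sum_le_sum fun j _ => card_biUnion_le))
    exact_mod_cast h
  refine hc1.trans ?_
  have hin : ∀ j ∈ Icc 1 T, ∑ q ∈ pr Y ζ υ, (((Icc 1 M).filter (fun n => q ^ 2 ∣ (n + Z) ^ 2 + j)).card : ℝ) ≤
      4 * M / (Y : ℝ) ^ ζ + 2 * (Y : ℝ) ^ υ := by
    intro j hj
    rw [mem_Icc] at hj
    have hq : ∀ q ∈ pr Y ζ υ, (((Icc 1 M).filter (fun n => q ^ 2 ∣ (n + Z) ^ 2 + j)).card : ℝ) ≤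
        2 * ((M : ℝ) / (q : ℝ) ^ 2 + 1) := by
      intro q hq
      obtain ⟨hqp, hq1, hq2⟩ := Pool.Agent.Y882.PX.pr_mem Y q ζ υ hY hq
      have hqi := Nat.prime_iff_prime_int.1 hqp
      have hq3 : (2 : ℝ) < q := h2.trans_le hq1
      have hq3' : 2 < q := by exact_mod_cast hq3
      have hjq : (j : ℝ) < q := by
        have : (j : ℝ) ≤ T := by exact_mod_cast hj.2
        linarith
      have hjq' : j < q := by exact_mod_cast hjq
      have hn2 : ¬ (q : ℤ) ∣ 2 := by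
        intro h
        have := Int.le_of_dvd (by norm_num) h
        have : (2 : ℤ) < q := by exact_mod_cast hq3'
        omega
      apply Pool.Agent.H37AC.sq_count 1 (2 * (Z : ℤ)) ((Z : ℤ) ^ 2) (j : ℤ) q hqp (by rwa [mul_one]) _ M _
        (filter_subset _ _)
      · intro m hm
        rw [mem_filter] at hm
        rw [Pool.Agent.H37AC.fq_eval]
        have h : ((q : ℤ) ^ 2) ∣ ((m : ℤ) + Z) ^ 2 + j := by exact_mod_cast hm.2
        have e : 1 * (m : ℤ) ^ 2 + 2 * (Z : ℤ) * m + (Z : ℤ) ^ 2 + j = ((m : ℤ) + Z) ^ 2 + j := by ring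
        rw [e]
        exact h
      · intro h
        have e : (2 * (Z : ℤ)) ^ 2 - 4 * 1 * ((Z : ℤ) ^ 2 + j) = -(2 * (2 * j)) := by ring
        rw [e, dvd_neg] at h
        rcases hqi.dvd_or_dvd h with h | h
        · exact hn2 h
        · rcases hqi.dvd_or_dvd h with h | h
          · exact hn2 h
          · have h5 : q ∣ j := by exact_mod_cast h
            have := Nat.le_of_dvd (by omega) h5
            omega
    refine (sum_le_sum hq).trans ?_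
    rw [← mul_sum, sum_add_distrib, sum_const, nsmul_eq_mul, mul_one]
    have hpr : ∀ q ∈ pr Y ζ υ, (Y : ℝ) ^ ζ ≤ q ∧ (q : ℝ) < (Y : ℝ) ^ υ := fun q hq =>
      (Pool.Agent.Y882.PX.pr_mem Y q ζ υ hY hq).2
    set Q : ℕ := ⌈(Y : ℝ) ^ ζ⌉₊ with hQ
    have hQ1 : 1 ≤ Q := Nat.ceil_pos.2 hYζ
    have hQr : (Y : ℝ) ^ ζ ≤ Q := Nat.le_ceil _
    have s1 : ∑ q ∈ pr Y ζ υ, (M : ℝ) / (q : ℝ) ^ 2 ≤ M * (2 / (Y : ℝ) ^ ζ) := by
      calc ∑ q ∈ pr Y ζ υ, (M : ℝ) / (q : ℝ) ^ 2 = M * ∑ q ∈ pr Y ζ υ, 1 / (q : ℝ) ^ 2 := by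
            rw [mul_sum]
            apply sum_congr rfl
            intro q _
            ring
        _ ≤ M * ∑ q ∈ Icc Q Y, 1 / (q : ℝ) ^ 2 := by
            apply mul_le_mul_of_nonneg_left _ (Nat.cast_nonneg _)
            apply sum_le_sum_of_subset_of_nonneg
            · intro q hq
              rw [mem_Icc]
              refine ⟨Nat.ceil_le.2 (hpr q hq).1, ?_⟩
              unfold pr at hq
              exact (mem_Icc.1 (mem_filter.1 hq).1).2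
            · intro q _ _
              positivity
        _ ≤ M * (2 / (Q : ℝ)) :=
            mul_le_mul_of_nonneg_left (Pool.Agent.H37AC.tail_sq Q Y hQ1) (Nat.cast_nonneg _)
        _ ≤ M * (2 / (Y : ℝ) ^ ζ) := by
            apply mul_le_mul_of_nonneg_left _ (Nat.cast_nonneg _)
            exact div_le_div_of_nonneg_left (by norm_num) hYζ hQr
    have s2 : ((pr Y ζ υ).card : ℝ) ≤ (Y : ℝ) ^ υ := by
      have h : (pr Y ζ υ).card ≤ (Icc 1 ⌊(Y : ℝ) ^ υ⌋₊).card := by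
        apply card_le_card
        intro q hq
        rw [mem_Icc]
        refine ⟨(Pool.Agent.Y882.PX.pr_mem Y q ζ υ hY hq).1.one_le, ?_⟩
        exact Nat.le_floor (hpr q hq).2.le
      rw [Nat.card_Icc, Nat.add_sub_cancel] at h
      have h3 : ((pr Y ζ υ).card : ℝ) ≤ (⌊(Y : ℝ) ^ υ⌋₊ : ℝ) := by exact_mod_cast h
      exact h3.trans (Nat.floor_le (by positivity))
    have e : 4 * (M : ℝ) / (Y : ℝ) ^ ζ = 2 * (M * (2 / (Y : ℝ) ^ ζ)) := by ring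
    rw [e]
    linarith
  calc ∑ j ∈ Icc 1 T, ∑ q ∈ pr Y ζ υ, (((Icc 1 M).filter (fun n => q ^ 2 ∣ (n + Z) ^ 2 + j)).card : ℝ) ≤
      ∑ _j ∈ Icc 1 T, (4 * M / (Y : ℝ) ^ ζ + 2 * (Y : ℝ) ^ υ) := sum_le_sum hin
    _ = _ := by rw [sum_const, nsmul_eq_mul, Nat.card_Icc, Nat.add_sub_cancel]

end Pool.Agent.H37SQ
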